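import Pool.Agent.Lib.MP_3d3eb4_co.LL.Defs

namespace PlexLL

open Finset Pool.Agent.Lib.MP_3d3eb4_co
open PlexL (co cnt)

namespace DynAux

section Ring
variable {R : Type} [CommRing R]

theorem unit_of {u x v : R} (h : u * x = v) (hv : IsUnit v) : IsUnit x :=
  isUnit_of_mul_isUnit_right (h ▸ hv)

theorem mv1 {A B C y : R} (h2 : IsUnit (2 : R)) (hA : 2 * A = y) (hB : (y - 2) * B = y - 1)
    (hC : y * C = 2 * y - 1) : Mv B A C := by
  unfold Mv
  apply h2.mul_left_cancel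
  linear_combination (B - C + 1) * hA + hB - hC

theorem mv2 {A B C y z : R} (h2 : IsUnit (2 : R)) (hy : IsUnit y) (hy2 : IsUnit (y - 2))
    (hA : 2 * A = z) (hB : (y - 2) * B = y - 1) (hC : y * C = 2 * y - 1)
    (hs : z * (y * (y - 1)) = 2 * (y ^ 2 + y - 1)) : Mv C B A := by
  unfold Mv
  apply ((h2.mul hy).mul hy2).mul_left_cancel
  have e1 : 2 * y * (y - 2) * (C * (B - 1)) = 2 * (y * C) * ((y - 2) * B - (y - 2)) := by ring
  have e2 : 2 * y * (y - 2) * (B * (A - 1)) = y * ((y - 2) * B) * (2 * A - 2) := by ring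
  rw [e1, e2, hA, hB, hC]
  linear_combination -hs

theorem mv3 {A B C y z : R} (h2 : IsUnit (2 : R)) (hy : IsUnit y) (hz2 : IsUnit (z - 2))
    (hA : 2 * A = y) (hB : (z - 2) * B = z - 1) (hC : y * C = 2 * y - 1)
    (hs : z * (y * (y - 1)) = 2 * (y ^ 2 + y - 1)) : Mv A C B := by
  unfold Mv
  apply ((h2.mul hy).mul hz2).mul_left_cancel
  have e1 : 2 * y * (z - 2) * (A * (C - 1)) = 2 * A * (y * C - y) * (z - 2) := by ring
  have e2 : 2 * y * (z - 2) * (C * (B - 1)) = 2 * (y * C) * ((z - 2) * B - (z - 2)) := by ring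
  rw [e1, e2, hA, hB, hC]
  linear_combination hs

theorem mv4 {A B y : R} (h2 : IsUnit (2 : R)) (hA : 2 * A = y) (hB : (y - 2) * B = y - 1)
    (hk : 2 * y = 1) : Mv B A 0 := by
  unfold Mv
  apply h2.mul_left_cancel
  linear_combination (B + 1) * hA + hB + hk

theorem mv5 {A B O y : R} (h2 : IsUnit (2 : R)) (hy2 : IsUnit (y - 2)) (hA : 2 * A = y)
    (hB : (y - 2) * B = y - 1) (hO : 2 * O = 1) (hk : 2 * y = 1) : Mv A B O := by
  unfold Mv
  apply (h2.mul hy2).mul_left_cancel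
  have e1 : 2 * (y - 2) * (A * (B - 1)) = 2 * A * ((y - 2) * B - (y - 2)) := by ring
  have e2 : 2 * (y - 2) * (B * (O - 1)) = (y - 2) * B * (2 * O - 2) := by ring
  rw [e1, e2, hA, hB, hO]
  linear_combination hk

end Ring

section Ker
variable {m : ℕ} [NeZero m]

theorem ker_mul {u : ZMod m} (hu : IsUnit u) (x : ZMod m) : ker (u * x) = ker x := by
  unfold ker
  congr 1
  ext z
  simp only [mem_filter, mem_univ, true_and, mul_assoc]
  exact hu.mul_right_eq_zero

theorem ker_unit {u : ZMod m} (hu : IsUnit u) : ker u ≤ 1 := by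
  unfold ker
  rw [card_le_one]
  intro a ha b hb
  simp only [mem_filter, mem_univ, true_and] at ha hb
  rw [hu.mul_right_eq_zero.1 ha, hu.mul_right_eq_zero.1 hb]

theorem ker_int (z : ℤ) (hz : z ≠ 0) : ker (z : ZMod m) ≤ z.natAbs := by
  have := fiber_le (G := ZMod m) z hz 0 {0}
  simpa [ker, zsmul_eq_mul] using this

/-- `x` is a fraction of height at most `H` and of type `(u : v)` modulo three -/
def Fr (x : ZMod m) (H : ℕ) (u v : ZMod 3) : Prop :=
  ∃ (p q : ℤ) (c : ZMod 3), 0 < p ∧ 0 < q ∧ p ≤ H ∧ q ≤ H ∧ IsUnit (q : ZMod m) ∧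
    (q : ZMod m) * x = p ∧ c ≠ 0 ∧ (p : ZMod 3) = c * u ∧ (q : ZMod 3) = c * v

theorem key3 : ∀ c c' u v u' v' : ZMod 3, c ≠ 0 → c' ≠ 0 → u * v' ≠ u' * v →
    c * u * (c' * v') - c' * u' * (c * v) ≠ 0 := by decide

theorem Fr.pair {x x' : ZMod m} {H H' : ℕ} {u v u' v' : ZMod 3} (h : Fr x H u v)
    (h' : Fr x' H' u' v') (hd : u * v' ≠ u' * v) : ker (x - x') ≤ H * H' := by
  obtain ⟨p, q, c, hp, hq, hpH, hqH, hu, he, hc, h1, h2⟩ := h
  obtain ⟨p', q', c', hp', hq', hpH', hqH', hu', he', hc', h1', h2'⟩ := h'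
  have hz : p * q' - p' * q ≠ 0 := by
    intro h0
    have h3 : ((p * q' - p' * q : ℤ) : ZMod 3) = 0 := by rw [h0]; simp
    push_cast at h3
    rw [h1, h2, h1', h2'] at h3
    exact key3 c c' u v u' v' hc hc' hd h3
  have e : (q : ZMod m) * q' * (x - x') = ((p * q' - p' * q : ℤ) : ZMod m) := by
    push_cast
    linear_combination (q' : ZMod m) * he - (q : ZMod m) * he'
  rw [← ker_mul (hu.mul hu'), e]
  refine (ker_int _ hz).trans ?_
  have b1 : p * q' ≤ H * H' := mul_le_mul hpH hqH' hq'.le (by positivity)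
  have b2 : p' * q ≤ H * H' := by
    rw [mul_comm p' q]; exact mul_le_mul hqH hpH' hp'.le (by positivity)
  have b3 := mul_pos hp hq'
  have b4 := mul_pos hp' hq
  have b5 : ((H * H' : ℕ) : ℤ) = H * H' := by push_cast; rfl
  omega

theorem Fr.dir {x : ZMod m} {H L : ℕ} {u v : ZMod 3} (h : Fr x H u v) {α γ : ℕ} (h1 : 1 ≤ α)
    (h2 : α ≤ L) (h3 : 1 ≤ γ) (h4 : γ ≤ L) :
    ker ((α : ZMod m) * x + (γ : ZMod m)) ≤ 2 * (L * H) := by
  obtain ⟨p, q, c, hp, hq, hpH, hqH, hu, he, -⟩ := h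
  have b1 : (α : ℤ) * p ≤ L * H := mul_le_mul (by exact_mod_cast h2) hpH hp.le (by positivity)
  have b2 : (γ : ℤ) * q ≤ L * H := mul_le_mul (by exact_mod_cast h4) hqH hq.le (by positivity)
  have b3 : 0 < (α : ℤ) * p := mul_pos (by exact_mod_cast h1) hp
  have b4 : 0 < (γ : ℤ) * q := mul_pos (by exact_mod_cast h3) hq
  have e : (q : ZMod m) * ((α : ZMod m) * x + (γ : ZMod m)) =
      (((α : ℤ) * p + (γ : ℤ) * q : ℤ) : ZMod m) := by
    push_cast
    linear_combination (α : ZMod m) * he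
  rw [← ker_mul hu, e]
  refine (ker_int _ (by omega)).trans ?_
  have b5 : ((L * H : ℕ) : ℤ) = L * H := by push_cast; rfl
  omega

end Ker

/-- the orbit in `ZMod m` -/
def Y (m : ℕ) (a b : ℕ → ℕ) (i : ℕ) : ZMod m := a i * (b i : ZMod m)⁻¹

/-- the four families of slopes -/
def W (m : ℕ) (a b : ℕ → ℕ) (τ i : ℕ) : ZMod m :=
  if τ = 0 then (2 : ZMod m)⁻¹ else if τ = 1 then Y m a b i * (2 : ZMod m)⁻¹
  else if τ = 2 then (Y m a b i - 1) * (Y m a b i - 2)⁻¹
  else (2 * Y m a b i - 1) * (Y m a b i)⁻¹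

def ty (s : ℕ) : ℕ := if s = 0 then 0 else if s % 3 = 2 then 1 else if s % 3 = 0 then 2 else 3

def ix (k s : ℕ) : ℕ := if s = 0 then 0 else if s = 1 then k + 1 else (s - 2) / 3

def Val (k τ i : ℕ) : Prop :=
  (τ = 0 ∧ i = 0) ∨ (τ = 1 ∧ i ≤ k) ∨ (τ = 2 ∧ i ≤ k) ∨ (τ = 3 ∧ i ≤ k + 1 ∧ i ≠ k)

def tU (τ : ℕ) : ZMod 3 := if τ = 3 then 0 else 1

def tV (τ : ℕ) : ZMod 3 := if τ = 0 then 2 else if τ = 2 then 0 else 1

theorem val_of {k s : ℕ} (h : s ≤ 3 * k + 3) : Val k (ty s) (ix k s) := by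
  unfold Val ty ix
  split_ifs <;> omega

theorem inj_of {k s s' : ℕ} (h : s ≤ 3 * k + 3) (h' : s' ≤ 3 * k + 3) (h1 : ty s = ty s')
    (h2 : ix k s = ix k s') : s = s' := by
  unfold ty at h1
  unfold ix at h2
  split_ifs at h1 h2 <;> omega

theorem det_ne {k τ τ' i j : ℕ} (h : Val k τ i) (h' : Val k τ' j) (hne : τ ≠ τ') :
    tU τ * tV τ' ≠ tU τ' * tV τ := by
  rcases h with ⟨rfl, -⟩ | ⟨rfl, -⟩ | ⟨rfl, -⟩ | ⟨rfl, -⟩ <;>
  rcases h' with ⟨rfl, -⟩ | ⟨rfl, -⟩ | ⟨rfl, -⟩ | ⟨rfl, -⟩ <;>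
  first | exact absurd rfl hne | decide

/-- the slopes -/
def sl (m k : ℕ) (a b : ℕ → ℕ) (s : ℕ) : ZMod m := W m a b (ty s) (ix k s)

theorem sl_A (m k : ℕ) (a b : ℕ → ℕ) (i : ℕ) : sl m k a b (3 * i + 2) = W m a b 1 i := by
  have h1 : ty (3 * i + 2) = 1 := by unfold ty; split_ifs <;> omega
  have h2 : ix k (3 * i + 2) = i := by
    rw [ix, if_neg (by omega), if_neg (by omega)]; omega
  rw [sl, h1, h2]

theorem sl_B (m k : ℕ) (a b : ℕ → ℕ) (i : ℕ) : sl m k a b (3 * i + 3) = W m a b 2 i := by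
  have h1 : ty (3 * i + 3) = 2 := by unfold ty; split_ifs <;> omega
  have h2 : ix k (3 * i + 3) = i := by
    rw [ix, if_neg (by omega), if_neg (by omega)]; omega
  rw [sl, h1, h2]

theorem sl_C (m k : ℕ) (a b : ℕ → ℕ) (i : ℕ) : sl m k a b (3 * i + 4) = W m a b 3 i := by
  have h1 : ty (3 * i + 4) = 3 := by unfold ty; split_ifs <;> omega
  have h2 : ix k (3 * i + 4) = i := by
    rw [ix, if_neg (by omega), if_neg (by omega)]; omega
  rw [sl, h1, h2]

section Orbit
variable {k m : ℕ} {a b : ℕ → ℕ} (o : Orb k m a b)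
include o

theorem u2 : IsUnit (2 : ZMod m) := by
  exact_mod_cast (ZMod.isUnit_iff_coprime 2 m).2 (Nat.coprime_two_left.2 o.odd)

theorem u3 : IsUnit (3 : ZMod m) := by
  exact_mod_cast (ZMod.isUnit_iff_coprime 3 m).2
    ((Nat.Prime.coprime_iff_not_dvd Nat.prime_three).2 o.three)

theorem hY (i : ℕ) : (b i : ZMod m) * Y m a b i = a i := by
  unfold Y
  rw [mul_comm, mul_assoc, ZMod.inv_mul_of_unit _ (o.ub i), mul_one]

theorem uY (i : ℕ) : IsUnit (Y m a b i) := unit_of (hY o i) (o.ua i)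

theorem uY1 (i : ℕ) : IsUnit (Y m a b i - 1) :=
  unit_of (u := (b i : ZMod m)) (by linear_combination hY o i) (o.uab i)

theorem uYY {i j : ℕ} (hi : i ≤ k + 1) (hj : j ≤ k + 1) (h : i ≠ j) :
    IsUnit (Y m a b i - Y m a b j) := by
  have aux : ∀ i j, i < j → j ≤ k + 1 → IsUnit (Y m a b i - Y m a b j) := fun i j h1 h2 =>
    unit_of (u := (b i : ZMod m) * b j)
      (by linear_combination (b j : ZMod m) * hY o i - (b i : ZMod m) * hY o j) (o.sep i j h1 h2)
  rcases h.lt_or_gt with h | h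
  · exact aux i j h hj
  · simpa using (aux j i h hi).neg

theorem Yk : 2 * Y m a b k = 1 := by
  have h : ((3 * m + b k : ℕ) : ZMod m) = ((2 * a k : ℕ) : ZMod m) := by rw [o.fin]
  push_cast at h
  rw [ZMod.natCast_self] at h
  apply (o.ub k).mul_left_cancel
  linear_combination 2 * hY o k - h

theorem Y0 : Y m a b 0 = 5 := by
  have h := hY o 0
  rw [o.a0, o.b0] at h
  simpa using h

theorem Ys (i : ℕ) : Y m a b (i + 1) * (Y m a b i * (Y m a b i - 1)) =
    2 * (Y m a b i ^ 2 + Y m a b i - 1) := by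
  have h := congrArg (Int.cast : ℤ → ZMod m) (o.step i)
  push_cast at h
  rw [← hY o i, ← hY o (i + 1)] at h
  apply (((o.ub (i + 1)).mul (o.ub i)).mul (o.ub i)).mul_left_cancel
  linear_combination h

theorem Yk1 : Y m a b (k + 1) = 2 := by
  linear_combination (-4) * Ys o k +
    (Y m a b (k + 1) * (2 * Y m a b k - 1) - (4 * Y m a b k + 6)) * Yk o

theorem uY2 {i : ℕ} (hi : i ≤ k) : IsUnit (Y m a b i - 2) := by
  rw [← Yk1 o]
  exact uYY o (by omega) le_rfl (by omega)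

theorem uY3 {i : ℕ} (hi : i ≤ k + 1) (h : i ≠ k) : IsUnit (2 * Y m a b i - 1) := by
  rw [← Yk o, ← mul_sub]
  exact (u2 o).mul (uYY o hi (by omega) h)

theorem W0 (i : ℕ) : 2 * W m a b 0 i = 1 := by
  simp only [W, if_true]
  exact ZMod.mul_inv_of_unit _ (u2 o)

theorem W1 (i : ℕ) : 2 * W m a b 1 i = Y m a b i := by
  have : W m a b 1 i = Y m a b i * (2 : ZMod m)⁻¹ := by simp [W]
  rw [this]
  linear_combination Y m a b i * ZMod.mul_inv_of_unit _ (u2 o)

theorem W2 {i : ℕ} (hi : i ≤ k) : (Y m a b i - 2) * W m a b 2 i = Y m a b i - 1 := by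
  have : W m a b 2 i = (Y m a b i - 1) * (Y m a b i - 2)⁻¹ := by simp [W]
  rw [this]
  linear_combination (Y m a b i - 1) * ZMod.mul_inv_of_unit _ (uY2 o hi)

theorem W3 (i : ℕ) : Y m a b i * W m a b 3 i = 2 * Y m a b i - 1 := by
  have : W m a b 3 i = (2 * Y m a b i - 1) * (Y m a b i)⁻¹ := by simp [W]
  rw [this]
  linear_combination (2 * Y m a b i - 1) * ZMod.mul_inv_of_unit _ (uY o i)

theorem W_unit {τ i : ℕ} (h : Val k τ i) : IsUnit (W m a b τ i) ∧ IsUnit (W m a b τ i - 1) := by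
  rcases h with ⟨rfl, -⟩ | ⟨rfl, hi⟩ | ⟨rfl, hi⟩ | ⟨rfl, hi, hk⟩
  · exact ⟨unit_of (W0 o i) isUnit_one,
      unit_of (u := -2) (by linear_combination -W0 o i) isUnit_one⟩
  · exact ⟨unit_of (W1 o i) (uY o i), unit_of (u := 2) (by linear_combination W1 o i) (uY2 o hi)⟩
  · exact ⟨unit_of (W2 o hi) (uY1 o i),
      unit_of (u := Y m a b i - 2) (by linear_combination W2 o hi) isUnit_one⟩
  · exact ⟨unit_of (W3 o i) (uY3 o hi hk),
      unit_of (u := Y m a b i) (by linear_combination W3 o i) (uY1 o i)⟩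

theorem chn : Chn m k (sl m k a b) where
  unit i hi := W_unit o (val_of hi)
  h0 := W0 o _
  h1 := by
    have h := W3 o (k + 1)
    rw [Yk1 o] at h
    show 2 * W m a b 3 (k + 1) = 3
    linear_combination h
  h2 := by
    have h := W1 o 0
    rw [Y0 o, ← sl_A m k] at h
    exact h
  h3 := by
    have h := W2 o (Nat.zero_le k)
    rw [Y0 o, ← sl_B m k] at h
    show 3 * sl m k a b (3 * 0 + 3) = 4
    linear_combination h
  a1 i hi := by
    rw [sl_A, sl_B, sl_C]
    exact mv1 (u2 o) (W1 o i) (W2 o hi.le) (W3 o i)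
  a2 i hi := by
    rw [show 3 * i + 5 = 3 * (i + 1) + 2 by ring, sl_A, sl_B, sl_C]
    exact mv2 (u2 o) (uY o i) (uY2 o hi.le) (W1 o (i + 1)) (W2 o hi.le) (W3 o i) (Ys o i)
  c1 i hi := by
    rw [show 3 * i + 6 = 3 * (i + 1) + 3 by ring, sl_A, sl_B, sl_C]
    exact mv3 (u2 o) (uY o i) (uY2 o hi) (W1 o i) (W2 o hi) (W3 o i) (Ys o i)
  e1 := by
    rw [sl_A, sl_B]
    exact mv4 (u2 o) (W1 o k) (W2 o le_rfl) (Yk o)
  e2 := by
    rw [sl_A, sl_B]
    exact mv5 (u2 o) (uY2 o le_rfl) (W1 o k) (W2 o le_rfl) (W0 o _) (Yk o)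

theorem W_same {τ i j : ℕ} (h : Val k τ i) (h' : Val k τ j) (hne : i ≠ j) :
    IsUnit (W m a b τ i - W m a b τ j) := by
  rcases h with ⟨rfl, hi⟩ | ⟨rfl, hi⟩ | ⟨rfl, hi⟩ | ⟨rfl, hi, -⟩
  · unfold Val at h'; omega
  · have hj : j ≤ k := by unfold Val at h'; omega
    exact unit_of (u := 2) (by linear_combination W1 o i - W1 o j)
      (uYY o (by omega) (by omega) hne)
  · have hj : j ≤ k := by unfold Val at h'; omega
    exact unit_of (u := (Y m a b i - 2) * (Y m a b j - 2))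
      (by linear_combination (Y m a b j - 2) * W2 o hi - (Y m a b i - 2) * W2 o hj)
      (uYY o (i := j) (j := i) (by omega) (by omega) hne.symm)
  · have hj : j ≤ k + 1 := by unfold Val at h'; omega
    exact unit_of (u := Y m a b i * Y m a b j)
      (by linear_combination Y m a b j * W3 o i - Y m a b i * W3 o j) (uYY o hi hj hne)

theorem W_top {τ τ' i : ℕ} (hk : i + 1 = k) (h0 : i ≠ 0) (h : Val k τ i) (h' : Val k τ' i)
    (hne : τ ≠ τ') : IsUnit (W m a b τ i - W m a b τ' i) := by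
  have hs := Ys o i
  have h1 := Yk o
  rw [hk] at hs
  have hA := W1 o i
  have hB := W2 o (i := i) (by omega)
  have hC := W3 o i
  generalize Y m a b i = y at *
  have h3 : 3 * y ^ 2 + 5 * y - 4 = 0 := by
    linear_combination (-2) * hs + (y * (y - 1)) * h1
  have hP : IsUnit (y ^ 2 - 4 * y + 2) :=
    unit_of (u := 9 * (y ^ 2 - 4 * y + 2) - 145)
      (by linear_combination (3 * y ^ 2 - 29 * y + 64) * h3) (u2 o)
  have p12 : IsUnit (W m a b 1 i - W m a b 2 i) :=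
    unit_of (u := 2 * (y - 2)) (by linear_combination (y - 2) * hA - 2 * hB) hP
  have p13 : IsUnit (W m a b 1 i - W m a b 3 i) :=
    unit_of (u := 2 * y) (by linear_combination y * hA - 2 * hC) hP
  have p32 : IsUnit (W m a b 3 i - W m a b 2 i) :=
    unit_of (u := y * (y - 2)) (by linear_combination (y - 2) * hC - y * hB) hP
  rcases h with ⟨-, hi⟩ | ⟨rfl, -⟩ | ⟨rfl, -⟩ | ⟨rfl, -⟩
  · exact absurd hi h0
  all_goals rcases h' with ⟨-, hi⟩ | ⟨rfl, -⟩ | ⟨rfl, -⟩ | ⟨rfl, -⟩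
  all_goals first
    | exact absurd hi h0
    | exact absurd rfl hne
    | assumption
    | (rw [← neg_sub]; apply IsUnit.neg; assumption)

theorem W_fr {τ i H : ℕ} [NeZero m] (h : Val k τ i) (h4 : 4 ≤ H) (hH : i < k → 2 * a i ≤ H) :
    Fr (W m a b τ i) H (tU τ) (tV τ) := by
  have lo := o.lo i
  have hb := hY o i
  obtain ⟨m1, m2⟩ := o.m3 i
  have c1 : (a i : ZMod 3) = -b i := by
    have := (ZMod.natCast_eq_zero_iff (a i + b i) 3).2 (Nat.dvd_of_mod_eq_zero m1)
    push_cast at this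
    linear_combination this
  have c2 : (b i : ZMod 3) ≠ 0 := fun h =>
    m2 (Nat.mod_eq_zero_of_dvd ((ZMod.natCast_eq_zero_iff _ _).1 h))
  have c3 : (3 : ZMod 3) = 0 := by decide
  have bp : 0 < b i := by omega
  rcases h with ⟨rfl, -⟩ | ⟨rfl, hi⟩ | ⟨rfl, hi⟩ | ⟨rfl, hi, hk⟩
  · exact ⟨1, 2, 1, by omega, by omega, by omega, by omega, by exact_mod_cast u2 o,
      by push_cast; exact W0 o i, by decide, by decide, by decide⟩
  · rcases hi.lt_or_eq with hi | rfl
    · have := hH hi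
      refine ⟨a i, 2 * b i, -b i, by omega, by omega, by omega, by omega,
        by push_cast; exact (u2 o).mul (o.ub i), ?_, neg_ne_zero.2 c2, ?_, ?_⟩
      · push_cast; linear_combination (b i : ZMod m) * W1 o i + hb
      · simp [tU, c1]
      · simp only [tV]; push_cast; simp; linear_combination (b i : ZMod 3) * c3
    · refine ⟨1, 4, 1, by omega, by omega, by omega, by omega, ?_, ?_, by decide, by decide,
        by decide⟩
      · have := (u2 o).mul (u2 o)
        push_cast; convert this using 1; norm_num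
      · push_cast; linear_combination 2 * W1 o i + Yk o
  · rcases hi.lt_or_eq with hi' | rfl
    · have := hH hi'
      have e : ((a i - 2 * b i : ℤ) : ZMod m) = b i * (Y m a b i - 2) := by
        push_cast; linear_combination -hb
      refine ⟨a i - b i, a i - 2 * b i, b i, by omega, by omega, by omega, by omega,
        e ▸ (o.ub i).mul (uY2 o hi), ?_, c2, ?_, ?_⟩
      · rw [e]; push_cast; linear_combination (b i : ZMod m) * W2 o hi + hb
      · simp [tU, c1]; linear_combination -(b i : ZMod 3) * c3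
      · simp [tV, c1]; linear_combination -(b i : ZMod 3) * c3
    · refine ⟨1, 3, 1, by omega, by omega, by omega, by omega, by exact_mod_cast u3 o, ?_,
        by decide, by decide, by decide⟩
      push_cast; linear_combination (-2) * W2 o hi + (W m a b 2 i - 1) * Yk o
  · rcases hi.lt_or_eq with hi' | rfl
    · have := hH (by omega)
      refine ⟨2 * a i - b i, a i, -b i, by omega, by omega, by omega, by omega,
        by push_cast; exact o.ua i, ?_, neg_ne_zero.2 c2, ?_, ?_⟩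
      · push_cast; rw [← hb]; linear_combination (b i : ZMod m) * W3 o i
      · simp [tU, c1]; linear_combination -(b i : ZMod 3) * c3
      · simp [tV, c1]
    · refine ⟨3, 2, 2, by omega, by omega, by omega, by omega, by exact_mod_cast u2 o, ?_,
        by decide, by decide, by decide⟩
      have h := W3 o (k + 1)
      rw [Yk1 o] at h
      push_cast; linear_combination h

theorem a_ge (i : ℕ) : 5 ^ 2 ^ i ≤ a i := by
  induction i with
  | zero => simp [o.a0]
  | succ i ih =>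
    rw [pow_succ, pow_mul]
    exact (Nat.pow_le_pow_left ih 2).trans (o.g1 i)

theorem a_mono : Monotone a := monotone_nat_of_le_succ fun i =>
  (Nat.le_self_pow two_ne_zero _).trans (o.g1 i)

theorem a_lo (j r : ℕ) : a j ^ 2 ^ r ≤ a (j + r) := by
  induction r with
  | zero => simp
  | succ r ih =>
    rw [pow_succ, pow_mul]
    exact (Nat.pow_le_pow_left ih 2).trans (o.g1 _)

theorem a_hi (j r : ℕ) : 3 * a (j + r) ≤ (3 * a j) ^ 2 ^ r := by
  induction r with
  | zero => simp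
  | succ r ih =>
    rw [pow_succ, pow_mul]
    refine le_trans ?_ (Nat.pow_le_pow_left ih 2)
    have := o.g2 (j + r)
    rw [mul_pow, ← add_assoc]
    omega

theorem far [NeZero m] {g L H1 H2 : ℕ} (hk : 2 ≤ k) (h4 : 4 ≤ H2) (h12 : H2 ≤ H1)
    (b1 : ∀ i, i < k → 2 * a i ≤ H1) (b2 : ∀ i, i + 1 < k → 2 * a i ≤ H2)
    (g1 : H1 * H2 ≤ g) (g2 : 2 * (L * H1) ≤ g) : Far m k g L (sl m k a b) where
  pair s hs s' hs' hne := by
    have v := val_of hs
    have v' := val_of hs'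
    have one : 1 ≤ g := le_trans (Nat.mul_pos (by omega) (by omega)) g1
    unfold sl
    by_cases ht : ty s = ty s'
    · rw [← ht] at v' ⊢
      exact (ker_unit (W_same o v v' fun h => hne (inj_of hs hs' ht h))).trans one
    by_cases hi : ix k s + 1 = k
    · by_cases hj : ix k s' = ix k s
      · rw [hj] at v' ⊢
        exact (ker_unit (W_top o hi (by omega) v v' ht)).trans one
      · exact ((W_fr o v (h4.trans h12) (b1 _)).pair
          (W_fr o v' h4 fun h => b2 _ (by omega)) (det_ne v v' ht)).trans g1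
    · exact ((W_fr o v h4 fun h => b2 _ (by omega)).pair
        (W_fr o v' (h4.trans h12) (b1 _)) (det_ne v v' ht)).trans (by rwa [mul_comm])
  dir s hs α γ h1 h2 h3 h5 :=
    ((W_fr o (val_of hs) (h4.trans h12) (b1 _)).dir h1 h2 h3 h5).trans g2

end Orbit

end DynAux

open DynAux in
theorem stDyn (h : StSeq) : StDyn := by
  intro K
  obtain ⟨k, m, a, b, hK, o⟩ := h (K + 15)
  obtain ⟨j, rfl⟩ : ∃ j, k = j + 7 := ⟨k - 7, by omega⟩
  have fin := o.fin
  have lo := o.lo (j + 7)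
  have big : 3 ^ 200 ≤ a j := by
    refine le_trans ?_ (a_ge o j)
    calc 3 ^ 200 ≤ 5 ^ 200 := Nat.pow_le_pow_left (by norm_num) _
      _ ≤ 5 ^ 2 ^ j := Nat.pow_le_pow_right (by norm_num)
        (le_trans (by norm_num) (Nat.pow_le_pow_right two_pos (show 8 ≤ j by omega)))
  have l7 : a j ^ 128 ≤ a (j + 7) := a_lo o j 7
  have u7 : 3 * a (j + 7) ≤ (3 * a j) ^ 128 := a_hi o j 7
  have u6 : 3 * a (j + 6) ≤ (3 * a j) ^ 64 := a_hi o j 6
  have u5 : 3 * a (j + 5) ≤ (3 * a j) ^ 32 := a_hi o j 5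
  have hKj : K ≤ a j := by
    refine le_trans ?_ (a_ge o j)
    have h1 : j < 2 ^ j := Nat.lt_two_pow_self
    have h2 : 2 ^ j < 5 ^ 2 ^ j := Nat.lt_pow_self (by norm_num)
    omega
  have m5 := a_mono o (show j ≤ j + 5 by omega)
  have m6 := a_mono o (show j + 5 ≤ j + 6 by omega)
  have g7 := a_ge o (j + 7)
  generalize hβ : a j = β at *
  have two : 3 ^ 7 ≤ β := le_trans (Nat.pow_le_pow_right (by norm_num) (by norm_num)) big
  have s1 : β ^ 127 ≤ m := by
    have : β ^ 127 * 2 ≤ β ^ 128 := by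
      rw [pow_succ β 127]; exact Nat.mul_le_mul_left _ (by omega)
    omega
  have s2 : m ≤ β ^ 129 := by
    have : (3 * β) ^ 128 ≤ β ^ 129 := by
      rw [mul_pow, pow_succ' β 128]
      exact Nat.mul_le_mul_right _
        (le_trans (Nat.pow_le_pow_right (by norm_num) (by norm_num)) big)
    omega
  have s3 : 2 ^ 2 ^ (j + 7) ≤ m := by
    have e1 : (2 * 2) ^ 2 ^ (j + 7) ≤ 5 ^ 2 ^ (j + 7) := Nat.pow_le_pow_left (by norm_num) _
    have e2 : 2 ≤ 2 ^ 2 ^ (j + 7) := Nat.le_self_pow (by positivity) 2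
    have e3 := Nat.mul_le_mul_right (2 ^ 2 ^ (j + 7)) e2
    rw [mul_pow] at e1
    omega
  have s4 : 2 * a (j + 6) * (2 * a (j + 5)) ≤ β ^ 97 := by
    calc 2 * a (j + 6) * (2 * a (j + 5)) ≤ (3 * β) ^ 64 * (3 * β) ^ 32 :=
          Nat.mul_le_mul (by omega) (by omega)
      _ = 3 ^ 96 * β ^ 96 := by rw [← pow_add, mul_pow]
      _ ≤ β * β ^ 96 := Nat.mul_le_mul_right _
          (le_trans (Nat.pow_le_pow_right (by norm_num) (by norm_num)) big)
      _ = β ^ 97 := (pow_succ' β 96).symm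
  have s5 : 2 * (300 * β * (2 * a (j + 6))) ≤ β ^ 97 := by
    calc 2 * (300 * β * (2 * a (j + 6))) = 600 * β * (2 * a (j + 6)) := by ring
      _ ≤ (3 * β) ^ 32 * (3 * β) ^ 64 := by
          refine Nat.mul_le_mul ?_ (by omega)
          calc 600 * β ≤ (3 * β) * (3 * β) := Nat.mul_le_mul (by omega) (by omega)
            _ = (3 * β) ^ 2 := (sq _).symm
            _ ≤ (3 * β) ^ 32 := Nat.pow_le_pow_right (by omega) (by norm_num)
      _ = 3 ^ 96 * β ^ 96 := by rw [← pow_add, mul_pow]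
      _ ≤ β * β ^ 96 := Nat.mul_le_mul_right _
          (le_trans (Nat.pow_le_pow_right (by norm_num) (by norm_num)) big)
      _ = β ^ 97 := (pow_succ' β 96).symm
  have m2 : 2 ≤ m := le_trans (Nat.le_self_pow (by positivity) 2) s3
  obtain ⟨n, rfl⟩ : ∃ n, m = n + 2 := ⟨m - 2, by omega⟩
  refine ⟨j + 7, n, β, sl (n + 2) (j + 7) a b, hKj, ?_, s1, s2, s3, chn o,
    far o (by omega) (by omega) (by omega) (fun i hi => ?_) (fun i hi => ?_) s4 s5⟩
  · have := o.odd
    rw [Nat.odd_iff] at this ⊢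
    omega
  · exact Nat.mul_le_mul_left 2 (a_mono o (by omega))
  · exact Nat.mul_le_mul_left 2 (a_mono o (by omega))

end PlexLL
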