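import Pool.Agent.Lib.MP_3d3eb4_co.LL.Defs

namespace PlexLL

open Finset Pool.Agent.Lib.MP_3d3eb4_co
open PlexL (co cnt)

namespace FamAux

variable {R : Type} [CommRing R] [Fintype R] [DecidableEq R]

set_option linter.unusedSectionVars false

theorem aff_bij {u : R} (hu : IsUnit u) (v : R) : Function.Bijective fun x : R => u * x + v :=
  Finite.injective_iff_bijective.1 fun _ _ h => hu.mul_left_cancel (add_right_cancel h)

theorem sum_aff {u : R} (hu : IsUnit u) (v : R) (F : R → ℤ) : ∑ x, F (u * x + v) = ∑ x, F x :=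
  (aff_bij hu v).sum_comp F

/-- an affine family of triples -/
def fam (u v u' v' : R) : Multiset (R × R × R) :=
  (univ : Finset R).val.map fun x => (x, u * x + v, u' * x + v')

theorem card_bij {f : R → R} (hf : Function.Bijective f) (y : R) :
    (univ.filter fun x => f x = y).card = 1 := by
  obtain ⟨x, rfl⟩ := hf.2 y
  refine card_eq_one.2 ⟨x, ?_⟩
  ext z
  simp [hf.1.eq_iff]

theorem tn_fam {u u' : R} (hu : IsUnit u) (hu' : IsUnit u') (v v' : R) (l : Fin 3 × R) :
    tn (fam u v u' v') l = 1 := by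
  obtain ⟨i, y⟩ := l
  unfold tn fam
  rw [Multiset.filter_map, Multiset.card_map]
  have h : Function.Bijective fun x : R => tc i (x, u * x + v, u' * x + v') := by
    fin_cases i
    · exact Function.bijective_id
    · exact aff_bij hu v
    · exact aff_bij hu' v'
  exact card_bij h y

theorem tn_add (Q Q' : Multiset (R × R × R)) (l : Fin 3 × R) :
    tn (Q + Q') l = tn Q l + tn Q' l := by
  unfold tn
  rw [Multiset.filter_add, Multiset.card_add]

theorem tn_sum (k : ℕ) (Q : ℕ → Multiset (R × R × R)) (l : Fin 3 × R) :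
    tn (∑ i ∈ range k, Q i) l = ∑ i ∈ range k, tn (Q i) l := by
  induction k with
  | zero => rfl
  | succ k ih => rw [sum_range_succ, sum_range_succ, tn_add, ih]

variable (a b c : R → R → ℤ)

/-- the value of a multiset of triples -/
def vl (Q : Multiset (R × R × R)) : ℤ := (Q.map (ev a b c)).sum

theorem vl_add (Q Q' : Multiset (R × R × R)) : vl a b c (Q + Q') = vl a b c Q + vl a b c Q' := by
  unfold vl
  rw [Multiset.map_add, Multiset.sum_add]

theorem vl_sum (k : ℕ) (Q : ℕ → Multiset (R × R × R)) :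
    vl a b c (∑ i ∈ range k, Q i) = ∑ i ∈ range k, vl a b c (Q i) := by
  induction k with
  | zero => rfl
  | succ k ih => rw [sum_range_succ, sum_range_succ, vl_add, ih]

theorem vl_fam (u v u' v' : R) : vl a b c (fam u v u' v') =
    ∑ x, a x (u * x + v) + ∑ x, b x (u' * x + v') + ∑ x, c (u * x + v) (u' * x + v') := by
  unfold vl fam
  rw [Multiset.map_map, ← sum_add_distrib, ← sum_add_distrib]
  rfl

/-- the three sums over a white line -/
def sA (u o : R) : ℤ := ∑ x, a x (-(u * x) - o)

def sB (u o : R) : ℤ := ∑ x, b x (x + (-(u * x) - o))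

def sC (u o : R) : ℤ := ∑ x, c (-(u * x) - o) (x + (-(u * x) - o))

theorem sA_eq (u o : R) : ∑ x, a x (-u * x + -o) = sA a u o :=
  sum_congr rfl fun x _ => congrArg (a x) (by ring)

theorem sB_eq (u o : R) : ∑ x, b x ((1 - u) * x + -o) = sB b u o :=
  sum_congr rfl fun x _ => congrArg (b x) (by ring)

/-- the family of a move -/
def mv (u w : R) : Multiset (R × R × R) := fam (-u) (-0) (1 - w) (-0)

theorem tn_mv {u w : R} (hu : IsUnit u) (hw : IsUnit (w - 1)) (l : Fin 3 × R) :
    tn (mv u w) l = 1 :=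
  tn_fam hu.neg (by simpa using hw.neg) _ _ l

theorem vl_mv {u v w : R} (hu : IsUnit u) (hv : IsUnit v) (h : Mv u v w) :
    vl a b c (mv u w) = sA a u 0 + sB b w 0 + sC c v 0 := by
  unfold mv
  rw [vl_fam, sA_eq, sB_eq]
  congr 1
  obtain ⟨v', hv'⟩ := hv.exists_right_inv
  have hu' : IsUnit (u * v') := hu.mul (IsUnit.of_mul_eq_one v (by rw [mul_comm]; exact hv'))
  unfold sC
  rw [← sum_aff hu' 0 fun x => c (-(v * x) - 0) (x + (-(v * x) - 0))]
  unfold Mv at h
  refine sum_congr rfl fun x _ => ?_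
  congr 1
  · linear_combination (u * x) * hv'
  · linear_combination (x * v') * h + x * (w - 1) * hv'

theorem sum_blocks (f : ℕ → ℤ) (k : ℕ) : ∑ i ∈ range (3 * k + 4), f i =
    f 0 + f 1 + ∑ i ∈ range k, (f (3 * i + 2) + f (3 * i + 3) + f (3 * i + 4)) +
      f (3 * k + 2) + f (3 * k + 3) := by
  induction k with
  | zero => simp [sum_range_succ]
  | succ k ih =>
    rw [show 3 * (k + 1) + 4 = 3 * k + 4 + 1 + 1 + 1 by ring, sum_range_succ, sum_range_succ,
      sum_range_succ, ih, sum_range_succ, show 3 * (k + 1) + 2 = 3 * k + 4 + 1 by ring,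
      show 3 * (k + 1) + 3 = 3 * k + 4 + 1 + 1 by ring]
    ring

theorem sum_blocks' (f : ℕ → ℤ) (k : ℕ) : ∑ i ∈ range (3 * k + 4), f i =
    f 0 + f 1 + f 2 + f 3 + ∑ i ∈ range k, (f (3 * i + 4) + f (3 * i + 5) + f (3 * i + 6)) := by
  induction k with
  | zero => simp [sum_range_succ]
  | succ k ih =>
    rw [show 3 * (k + 1) + 4 = 3 * k + 4 + 1 + 1 + 1 by ring, sum_range_succ, sum_range_succ,
      sum_range_succ, ih, sum_range_succ]
    ring

end FamAux

open FamAux in
theorem stFam : StFam := by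
  intro m k _ t h
  have u0 := (h.unit 0 (by omega)).1
  have u1 := (h.unit 1 (by omega)).1
  have h0 := h.h0
  have h1 := h.h1
  have h2 := h.h2
  have h3 := h.h3
  have two : IsUnit (2 : ZMod m) := IsUnit.of_mul_eq_one _ h0
  refine ⟨fam (-1) (-3) 1 3 + fam (-t 0) (-0) (-t 0) (-2) + fam (-t 1) (-2) (-t 1) (-0) +
    fam (-1) 4 (1 - t 3) (-0) +
    ∑ i ∈ range k, (mv (t (3 * i + 3)) (t (3 * i + 4)) + mv (t (3 * i + 4)) (t (3 * i + 5)) +
      mv (t (3 * i + 2)) (t (3 * i + 6))) +
    mv (t (3 * k + 3)) 0 + mv (t (3 * k + 2)) (t 0), fun l => ?_, fun a b c => ?_⟩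
  · have e : ∀ i ∈ range k, tn (mv (t (3 * i + 3)) (t (3 * i + 4)) +
        mv (t (3 * i + 4)) (t (3 * i + 5)) + mv (t (3 * i + 2)) (t (3 * i + 6))) l = 3 := by
      intro i hi
      have hi := mem_range.1 hi
      rw [tn_add, tn_add, tn_mv (h.unit _ (by omega)).1 (h.unit _ (by omega)).2,
        tn_mv (h.unit _ (by omega)).1 (h.unit _ (by omega)).2,
        tn_mv (h.unit _ (by omega)).1 (h.unit _ (by omega)).2]
    rw [tn_add, tn_add, tn_add, tn_add, tn_add, tn_add, tn_sum, sum_congr rfl e,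
      tn_fam isUnit_one.neg isUnit_one, tn_fam u0.neg u0.neg, tn_fam u1.neg u1.neg,
      tn_fam isUnit_one.neg (by simpa using (h.unit 3 (by omega)).2.neg),
      tn_mv (h.unit _ le_rfl).1 (by simp), tn_mv (h.unit _ (by omega)).1 (h.unit 0 (by omega)).2,
      sum_const, card_range, smul_eq_mul]
    ring
  · change vl a b c _ = _
    have e : ∀ i ∈ range k, vl a b c (mv (t (3 * i + 3)) (t (3 * i + 4)) +
        mv (t (3 * i + 4)) (t (3 * i + 5)) + mv (t (3 * i + 2)) (t (3 * i + 6))) =
        (sA a (t (3 * i + 2)) 0 + sA a (t (3 * i + 3)) 0 + sA a (t (3 * i + 4)) 0) +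
        (sB b (t (3 * i + 4)) 0 + sB b (t (3 * i + 5)) 0 + sB b (t (3 * i + 6)) 0) +
        (sC c (t (3 * i + 2)) 0 + sC c (t (3 * i + 3)) 0 + sC c (t (3 * i + 4)) 0) := by
      intro i hi
      have hi := mem_range.1 hi
      rw [vl_add, vl_add, vl_mv a b c (h.unit _ (by omega)).1 (h.unit _ (by omega)).1 (h.a1 i hi),
        vl_mv a b c (h.unit _ (by omega)).1 (h.unit _ (by omega)).1 (h.a2 i hi),
        vl_mv a b c (h.unit _ (by omega)).1 (h.unit _ (by omega)).1 (h.c1 i hi)]
      ring
    have w : ∀ i ∈ range (3 * k + 4), ∑ x, evt a b c (wl t i x) =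
        sA a (t i) (if i = 1 then 2 else 0) + sB b (t i) (if i = 1 then 2 else 0) +
          sC c (t i) (if i = 1 then 2 else 0) := by
      intro i _
      unfold sA sB sC
      rw [← sum_add_distrib, ← sum_add_distrib]
      rfl
    have f0 : vl a b c (fam (-1) (-3) 1 3) =
        ∑ x, a x (-3 - x) + ∑ x, b x (x + 3) + sC c (t 0) 0 := by
      rw [vl_fam]
      congr 1
      · congr 1
        · exact sum_congr rfl fun x _ => congrArg (a x) (by ring)
        · exact sum_congr rfl fun x _ => congrArg (b x) (by ring)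
      · unfold sC
        rw [← sum_aff two 6 fun x => c (-(t 0 * x) - 0) (x + (-(t 0 * x) - 0))]
        refine sum_congr rfl fun x _ => ?_
        congr 1
        · linear_combination (x + 3) * h0
        · linear_combination (x + 3) * h0
    have f1 : vl a b c (fam (-t 0) (-0) (-t 0) (-2)) =
        sA a (t 0) 0 + sB b (t 1) 2 + ∑ x, c x (x - 2) := by
      rw [vl_fam, sA_eq]
      congr 1
      · congr 1
        refine sum_congr rfl fun x _ => congrArg (b x) ?_
        linear_combination (-x) * ((t 1 - 1) * h0 - t 0 * h1)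
      · rw [← sum_aff u0.neg (-0) fun x => c x (x - 2)]
        exact sum_congr rfl fun x _ => congrArg (c _) (by ring)
    have f2 : vl a b c (fam (-t 1) (-2) (-t 1) (-0)) =
        sA a (t 1) 2 + sB b (t 2) 0 + ∑ x, c x (x + 2) := by
      rw [vl_fam, sA_eq]
      congr 1
      · congr 1
        refine sum_congr rfl fun x _ => congrArg (b x) ?_
        linear_combination (-x) * (-(1 - t 2 + t 1) * h0 - t 0 * h2 + t 0 * h1)
      · rw [← sum_aff u1.neg (-2) fun x => c x (x + 2)]
        exact sum_congr rfl fun x _ => congrArg (c _) (by ring)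
    have f3 : vl a b c (fam (-1) 4 (1 - t 3) (-0)) =
        ∑ x, a x (4 - x) + sB b (t 3) 0 + sC c (t 1) 2 := by
      rw [vl_fam, sB_eq]
      congr 1
      · congr 1
        exact sum_congr rfl fun x _ => congrArg (a x) (by ring)
      · have e1 : t 1 = 3 * t 0 := by linear_combination t 0 * h1 - t 1 * h0
        have e2 : t 1 * t 3 = 2 := by linear_combination t 3 * e1 + t 0 * h3 + 2 * h0
        unfold sC
        rw [← sum_aff u1 6 fun x => c (-1 * x + 4) ((1 - t 3) * x + -0)]
        refine sum_congr rfl fun x _ => ?_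
        congr 1
        · ring
        · linear_combination (-x) * e2 + x * h1 - 2 * h3
    have f4 : sB b 0 0 = ∑ x, b x x := sum_congr rfl fun x _ => congrArg (b x) (by ring)
    have n1 : ∀ i j : ℕ, (if 3 * i + (j + 2) = 1 then (2 : ZMod m) else 0) = 0 :=
      fun i j => if_neg (by omega)
    rw [vl_add, vl_add, vl_add, vl_add, vl_add, vl_add, vl_sum, sum_congr rfl e, f0, f1, f2, f3,
      vl_mv a b c (h.unit _ le_rfl).1 (h.unit _ (by omega)).1 h.e1,
      vl_mv a b c (h.unit _ (by omega)).1 (h.unit _ le_rfl).1 h.e2, f4, sum_congr rfl w,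
      sum_add_distrib (s := range (3 * k + 4)), sum_add_distrib (s := range (3 * k + 4)),
      sum_blocks fun i => sA a (t i) (if i = 1 then 2 else 0),
      sum_blocks' fun i => sB b (t i) (if i = 1 then 2 else 0),
      sum_blocks fun i => sC c (t i) (if i = 1 then 2 else 0)]
    simp only [n1 _ 0, n1 _ 1, n1 _ 2, n1 _ 3, n1 _ 4, sum_add_distrib, if_true,
      show ¬ (0 : ℕ) = 1 by omega, show ¬ (2 : ℕ) = 1 by omega, show ¬ (3 : ℕ) = 1 by omega,
      if_false]
    ring

end PlexLL
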