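import Pool.Agent.Lib.MP_3d3eb4_co.LL.Defs
import Pool.Agent.Lib.MP_3d3eb4_co.Transfer

namespace PlexLL

open Finset Pool.Agent.Lib.MP_3d3eb4_co
open PlexL (co cnt)

namespace FinAux

/-- triples covering every pair off the removed labels once are the entries of a latin square -/
theorem latin {G : Type} [AddCommGroup G] [Fintype G] [DecidableEq G] (Rm : Fin 3 → Finset G)
    (E : Multiset (G × G × G))
    (hE : ∀ a b c : G → G → ℤ, (E.map (ev a b c)).sum = Tg Rm a b c) :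
    ∃ f : G → G → G, (∀ t ∈ E, f t.1 t.2.1 = t.2.2) ∧
      (∀ t ∈ E, t.1 ∉ Rm 0 ∧ t.2.1 ∉ Rm 1 ∧ t.2.2 ∉ Rm 2) ∧
      (∀ r c, r ∉ Rm 0 → c ∉ Rm 1 → f r c ∉ Rm 2) ∧
      (∀ r c c', r ∉ Rm 0 → c ∉ Rm 1 → c' ∉ Rm 1 → f r c = f r c' → c = c') ∧
      (∀ r r' c, r ∉ Rm 0 → r' ∉ Rm 0 → c ∉ Rm 1 → f r c = f r' c → r = r') := by
  have key : ∀ (P : G × G → Prop) [DecidablePred P] (q : G × G),
      ∑ p ∈ univ.filter P, (if p = q then (1 : ℤ) else 0) = if P q then 1 else 0 := by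
    intro P _ q; simp
  have a1 : ∀ r c : G, ((E.filter fun t => (t.1, t.2.1) = (r, c)).card : ℤ) =
      if r ∉ Rm 0 ∧ c ∉ Rm 1 then 1 else 0 := by
    intro r c
    have := hE (fun x y => if (x, y) = (r, c) then 1 else 0) (fun _ _ => 0) (fun _ _ => 0)
    simp only [Tg, sum_const_zero, add_zero] at this
    rw [key] at this
    rw [← this, ← sum_ind]; simp only [ev, add_zero]
  have a2 : ∀ r c : G, ((E.filter fun t => (t.1, t.2.2) = (r, c)).card : ℤ) =
      if r ∉ Rm 0 ∧ c ∉ Rm 2 then 1 else 0 := by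
    intro r c
    have := hE (fun _ _ => 0) (fun x y => if (x, y) = (r, c) then 1 else 0) (fun _ _ => 0)
    simp only [Tg, sum_const_zero, add_zero, zero_add] at this
    rw [key] at this
    rw [← this, ← sum_ind]; simp only [ev, add_zero, zero_add]
  have a3 : ∀ r c : G, ((E.filter fun t => (t.2.1, t.2.2) = (r, c)).card : ℤ) =
      if r ∉ Rm 1 ∧ c ∉ Rm 2 then 1 else 0 := by
    intro r c
    have := hE (fun _ _ => 0) (fun _ _ => 0) (fun x y => if (x, y) = (r, c) then 1 else 0)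
    simp only [Tg, sum_const_zero, add_zero, zero_add] at this
    rw [key] at this
    rw [← this, ← sum_ind]; simp only [ev, add_zero, zero_add]
  have b1 : ∀ r c : G, (E.filter fun t => (t.1, t.2.1) = (r, c)).card ≤ 1 := by
    intro r c; have := a1 r c; split_ifs at this <;> omega
  have b2 : ∀ r c : G, (E.filter fun t => (t.1, t.2.2) = (r, c)).card ≤ 1 := by
    intro r c; have := a2 r c; split_ifs at this <;> omega
  have b3 : ∀ r c : G, (E.filter fun t => (t.2.1, t.2.2) = (r, c)).card ≤ 1 := by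
    intro r c; have := a3 r c; split_ifs at this <;> omega
  have nd : ∀ t ∈ E, t.1 ∉ Rm 0 ∧ t.2.1 ∉ Rm 1 ∧ t.2.2 ∉ Rm 2 := by
    intro t ht
    have p1 : 0 < (E.filter fun u => (u.1, u.2.1) = (t.1, t.2.1)).card :=
      Multiset.card_pos_iff_exists_mem.2 ⟨t, Multiset.mem_filter.2 ⟨ht, rfl⟩⟩
    have p2 : 0 < (E.filter fun u => (u.1, u.2.2) = (t.1, t.2.2)).card :=
      Multiset.card_pos_iff_exists_mem.2 ⟨t, Multiset.mem_filter.2 ⟨ht, rfl⟩⟩
    have q1 := a1 t.1 t.2.1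
    have q2 := a2 t.1 t.2.2
    by_cases h1 : t.1 ∉ Rm 0 ∧ t.2.1 ∉ Rm 1
    · by_cases h2 : t.1 ∉ Rm 0 ∧ t.2.2 ∉ Rm 2
      · exact ⟨h1.1, h1.2, h2.2⟩
      · rw [if_neg h2] at q2; omega
    · rw [if_neg h1] at q1; omega
  have ex : ∀ r c : G, ∃ s, r ∉ Rm 0 → c ∉ Rm 1 → (r, c, s) ∈ E := by
    intro r c
    by_cases h : r ∉ Rm 0 ∧ c ∉ Rm 1
    · have := a1 r c
      rw [if_pos h] at this
      obtain ⟨t, ht⟩ := Multiset.card_pos_iff_exists_mem.1
        (show 0 < (E.filter fun t => (t.1, t.2.1) = (r, c)).card by omega)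
      obtain ⟨ht, e⟩ := Multiset.mem_filter.1 ht
      simp only [Prod.mk.injEq] at e
      exact ⟨t.2.2, fun _ _ => by rw [← e.1, ← e.2]; exact ht⟩
    · exact ⟨0, fun h1 h2 => absurd ⟨h1, h2⟩ h⟩
  choose f hf using ex
  refine ⟨f, fun t ht => ?_, nd, fun r c hr hc => (nd _ (hf r c hr hc)).2.2,
    fun r c c' hr hc hc' h => ?_, fun r r' c hr hr' hc h => ?_⟩
  · have := eq_of_filter_card E _ (b1 t.1 t.2.1) (hf _ _ (nd t ht).1 (nd t ht).2.1) ht rfl rfl
    exact congrArg (fun u => u.2.2) this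
  · have := eq_of_filter_card E _ (b2 r (f r c)) (hf _ _ hr hc) (hf _ _ hr hc') rfl (by simp [h])
    exact congrArg (fun u => u.2.1) this
  · have := eq_of_filter_card E _ (b3 c (f r c)) (hf _ _ hr hc) (hf _ _ hr' hc) rfl (by simp [h])
    exact congrArg (fun u => u.1) this

theorem two_cancel {n : ℕ} (hn : Odd n) {x : ZMod (n + 2)} (h : 2 * x = 0) : x = 0 := by
  obtain ⟨q, hq⟩ := hn
  have h0 : ((2 * q + 1 + 2 : ℕ) : ZMod (n + 2)) = 0 := by
    rw [← hq]; exact ZMod.natCast_self (n + 2)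
  push_cast at h0
  linear_combination ((q : ZMod (n + 2)) + 2) * h - x * h0

theorem sum_all {n : ℕ} (hn : Odd n) : ∑ x : ZMod (n + 2), x = 0 := by
  refine two_cancel hn ?_
  have e : ∑ x : ZMod (n + 2), -x = ∑ x : ZMod (n + 2), x :=
    Fintype.sum_equiv (Equiv.neg _) _ _ fun _ => rfl
  rw [sum_neg_distrib] at e
  linear_combination -e

theorem labels {n : ℕ} (hn : Odd n) (R : Finset (ZMod (n + 2))) (hR : R.card = 2) :
    ∃ a : Fin n → ZMod (n + 2), Function.Injective a ∧ (∀ i, a i ∉ R) ∧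
      (∀ x, x ∉ R → ∃ i, a i = x) ∧ ∑ i, a i = -∑ x ∈ R, x := by
  have hc : Fintype.card {x : ZMod (n + 2) // x ∉ R} = n := by
    rw [Fintype.card_subtype_compl, Fintype.card_coe, hR, ZMod.card]; rfl
  let e := (Fintype.equivFinOfCardEq hc).symm
  refine ⟨fun i => (e i).1, Subtype.val_injective.comp e.injective, fun i => (e i).2,
    fun x hx => ⟨e.symm ⟨x, hx⟩, by simp⟩, ?_⟩
  have s1 : ∑ i, (e i).1 = ∑ x ∈ Rᶜ, x :=
    Finset.sum_bij (fun i _ => (e i).1) (fun i _ => mem_compl.2 (e i).2)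
      (fun i _ j _ h => e.injective (Subtype.ext h))
      (fun x hx => ⟨e.symm ⟨x, mem_compl.1 hx⟩, mem_univ _, by simp⟩) (fun _ _ => rfl)
  have s2 := sum_add_sum_compl R (fun x => x)
  rw [sum_all hn] at s2
  rw [s1]
  exact eq_neg_of_add_eq_zero_right s2

end FinAux

open FinAux in
theorem stFin : StFin := by
  intro n k Rm U K Q r c hn hkn hcard hsig hbal hU hQ hK hreg
  obtain ⟨f, f0, nd, f1, f2, f3⟩ := latin Rm
    (((T0 Rm \ U).val.map fun p => (p.1, p.2, p.1 + p.2)) + Q) (fun a b c => by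
      have := hbal a b c
      rw [Multiset.map_zero, Multiset.sum_zero, add_zero] at this
      rw [← this, Multiset.map_add, Multiset.sum_add, Multiset.map_map]
      rfl)
  have hw : f r c = r + c + 2 * k := f0 _ (Multiset.mem_add.2 (Or.inr hQ))
  obtain ⟨hr0, hc0, -⟩ := nd _ (Multiset.mem_add.2 (Or.inr hQ))
  have hK0 : (r, c) ∉ K := fun h => (mem_sdiff.1 (hK h)).2 hU
  have hK1 : ∀ q ∈ K, q.1 ∉ Rm 0 ∧ q.2 ∉ Rm 1 ∧ f q.1 q.2 = q.1 + q.2 := by
    intro q hq
    have m : (q.1, q.2, q.1 + q.2) ∈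
        ((T0 Rm \ U).val.map fun p => (p.1, p.2, p.1 + p.2)) + Q :=
      Multiset.mem_add.2 (Or.inl (Multiset.mem_map.2 ⟨q, hK hq, rfl⟩))
    exact ⟨(nd _ m).1, (nd _ m).2.1, f0 _ m⟩
  obtain ⟨a, a1, a2, a3, a4⟩ := labels hn (Rm 0) (hcard 0)
  obtain ⟨b, b1, b2, b3, b4⟩ := labels hn (Rm 1) (hcard 1)
  obtain ⟨d, d1, d2, d3, d4⟩ := labels hn (Rm 2) (hcard 2)
  choose L hL using fun i j => d3 (f (a i) (b j)) (f1 _ _ (a2 i) (b2 j))
  set K' := cons (r, c) K hK0 with hK'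
  set P : Finset (Fin n × Fin n) := univ.filter fun p => (a p.1, b p.2) ∈ K' with hP
  have nd' : ∀ q ∈ K', q.1 ∉ Rm 0 ∧ q.2 ∉ Rm 1 := by
    intro q hq
    rcases mem_cons.1 hq with rfl | hq
    · exact ⟨hr0, hc0⟩
    · exact ⟨(hK1 q hq).1, (hK1 q hq).2.1⟩
  have count : ∀ (j : Fin 3) (φ : Fin n × Fin n → Fin n)
      (g : ZMod (n + 2) × ZMod (n + 2) → ZMod (n + 2)) (lab : Fin n → ZMod (n + 2)),
      Function.Injective lab → (∀ i, lab i ∉ Rm j) → (∀ p, lab (φ p) = g (a p.1, b p.2)) →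
      (∀ q ∈ K, g q = co j q) → g (r, c) = tc j (r, c, r + c + 2 * k) →
      ∀ i, (P.filter fun p => φ p = i).card = k := by
    intro j φ g lab l1 l2 l3 l4 l5 i
    have e : (K'.filter fun q => g q = lab i).card = k := by
      have h1 := hreg j (lab i) (l2 i)
      have h2 : (K.filter fun q => g q = lab i).card = cnt K.val (j, lab i) := by
        rw [PlexL.cnt_val]
        exact congrArg card (filter_congr fun q hq => by rw [l4 q hq])
      rw [← l5, ← h2] at h1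
      rw [hK', filter_cons]
      split_ifs with h
      · rw [if_pos h] at h1; rw [card_cons]; exact h1
      · rw [if_neg h] at h1; exact h1
    rw [← e]
    refine Finset.card_bij (fun p _ => (a p.1, b p.2)) ?_ ?_ ?_
    · intro p hp
      obtain ⟨h1, h2⟩ := mem_filter.1 hp
      exact mem_filter.2 ⟨(mem_filter.1 h1).2, by rw [← l3, h2]⟩
    · intro p _ p' _ h
      simp only [Prod.mk.injEq] at h
      exact Prod.ext (a1 h.1) (b1 h.2)
    · intro q hq
      obtain ⟨h1, h2⟩ := mem_filter.1 hq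
      obtain ⟨i1, e1⟩ := a3 _ (nd' q h1).1
      obtain ⟨i2, e2⟩ := b3 _ (nd' q h1).2
      have e3 : (a i1, b i2) = q := Prod.ext e1 e2
      refine ⟨(i1, i2), mem_filter.2 ⟨mem_filter.2 ⟨mem_univ _, by rw [e3]; exact h1⟩, l1 ?_⟩, e3⟩
      rw [l3, e3, h2]
  have c1 := count 0 Prod.fst Prod.fst a a1 a2 (fun _ => rfl) (fun _ _ => rfl) rfl
  have c2 := count 1 Prod.snd Prod.snd b b1 b2 (fun _ => rfl) (fun _ _ => rfl) rfl
  have c3 := count 2 (fun p => L p.1 p.2) (fun q => f q.1 q.2) d d1 d2 (fun p => hL p.1 p.2)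
    (fun q hq => (hK1 q hq).2.2) hw
  refine ⟨L, P, ⟨fun x => Finite.injective_iff_bijective.1 fun y y' h => b1 ?_,
    fun y => Finite.injective_iff_bijective.1 fun x x' h => a1 ?_⟩, ⟨?_, c1, c2, c3⟩, ?_⟩
  · exact f2 _ _ _ (a2 x) (b2 y) (b2 y') (by rw [← hL, ← hL]; exact congrArg d h)
  · exact f3 _ _ _ (a2 x) (a2 x') (b2 y) (by rw [← hL, ← hL]; exact congrArg d h)
  · rw [Finset.card_eq_sum_card_fiberwise (f := Prod.fst) (s := P) (t := univ)
      (fun _ _ => mem_coe.2 (mem_univ _))]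
    simp [c1]
  · rintro h h0 hk S hS ⟨-, q1, q2, q3⟩
    have s1 := sum_regular S Prod.fst h q1 a
    have s2 := sum_regular S Prod.snd h q2 b
    have s3 := sum_regular S (fun p => L p.1 p.2) h q3 d
    rw [a4, nsmul_eq_mul] at s1
    rw [b4, nsmul_eq_mul] at s2
    rw [d4, nsmul_eq_mul] at s3
    have tot : ∑ p ∈ S, (d (L p.1 p.2) - a p.1 - b p.2) = 2 * (h : ZMod (n + 2)) := by
      rw [sum_sub_distrib, sum_sub_distrib, s1, s2, s3]
      linear_combination (h : ZMod (n + 2)) * hsig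
    obtain ⟨i0, e1⟩ := a3 _ hr0
    obtain ⟨j0, e2⟩ := b3 _ hc0
    have term : ∀ p ∈ S, d (L p.1 p.2) - a p.1 - b p.2 =
        if p = (i0, j0) then 2 * (k : ZMod (n + 2)) else 0 := by
      intro p hp
      rw [hL]
      split_ifs with hp0
      · rw [hp0]; simp only [e1, e2, hw]; ring
      · rcases mem_cons.1 (mem_filter.1 (hS hp)).2 with h' | h'
        · simp only [Prod.mk.injEq] at h'
          exact absurd (Prod.ext (a1 (h'.1.trans e1.symm)) (b1 (h'.2.trans e2.symm))) hp0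
        · have := (hK1 _ h').2.2
          simp only at this
          rw [this]; ring
    rw [sum_congr rfl term, sum_ite_eq'] at tot
    split_ifs at tot
    · have e : (k : ZMod (n + 2)) - h = 0 := two_cancel hn (by linear_combination tot)
      have v := congrArg ZMod.val (sub_eq_zero.1 e)
      rw [ZMod.val_cast_of_lt (show h < n + 2 by omega),
        ZMod.val_cast_of_lt (show k < n + 2 by omega)] at v
      omega
    · have v := congrArg ZMod.val (two_cancel hn tot.symm)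
      rw [ZMod.val_cast_of_lt (show h < n + 2 by omega), ZMod.val_zero] at v
      omega

end PlexLL
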