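import Pool.Agent.Lib.MP_3d3eb4_co.LL.HexData

/-! The gadget absorbing a hexagon with six arbitrary vertices. -/

namespace PlexLL

open Finset Pool.Agent.Lib.MP_3d3eb4_co
open PlexL (co cnt)

set_option linter.unusedSectionVars false

namespace HexAux

/-- the label of a formal triple in a place -/
def lab (f : Form × Form × Form) (i : Fin 3) : Form := ![f.1, f.2.1, f.2.2] i

/-- the slots -/
def sl (k : Fin 37) : Form × Form × Form := (gG.R k, gG.C k, gG.S k)

theorem f1 : ∀ (k : Fin 37) (i : Fin 3), fx (lab (sl k) i) = true →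
    IsZ 24 6 (gG.R k) (gG.C k) (gG.S k) ∧ (lab (sl k) i = kv i ∨ lab (sl k) i = kv (i + 3)) ∧
      ∀ j : Fin 3, j ≠ i → fx (lab (sl k) j) = false := by decide +kernel

theorem f2 : ∀ i : Fin 3, (univ.filter fun k : Fin 37 => fx (lab (sl k) i) = true).card ≤ 4 := by
  decide +kernel

theorem f3 : ∀ t ∈ gB ++ gH, ∀ i : Fin 3,
    (∃ k : Fin 37, lab (sl k) i = lab t i ∧ fx (lab (sl k) i) = false) ∨
    ∃ j : Fin 3, j ≠ i ∧ ∃ k : Fin 37, lab (sl k) j = lab t j ∧ fx (lab (sl k) j) = false := by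
  decide +kernel

variable {G : Type} [AddCommGroup G] [Fintype G] [DecidableEq G]

omit [Fintype G] in
theorem cnt_eq (U : Finset (G × G)) (l : Fin 3 × G) :
    cnt U.val l = (U.filter fun p => co l.1 p = l.2).card := rfl

omit [Fintype G] [DecidableEq G] in
theorem val_kv (κ : Fin 6 → G) (θ : Fin 24 → G) (j : Fin 6) : val κ (kv j) θ = κ j := by
  fin_cases j <;> simp [Pool.Agent.Lib.MP_3d3eb4_co.val, kv, Fin.sum_univ_six]

omit [Fintype G] [DecidableEq G] in
theorem co_add (i : Fin 3) (p q : G × G) : co i (p.1 + q.1, p.2 + q.2) = co i p + co i q := by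
  fin_cases i <;> simp [add_add_add_comm]

omit [Fintype G] [DecidableEq G] in
theorem tc_cell (i : Fin 3) (p : G × G) : tc i (p.1, p.2, p.1 + p.2) = co i p := by
  fin_cases i <;> rfl

/-- test functions -/
def ia (H : Fin 3 → Finset G) (i : Fin 3) (r c : G) : ℤ :=
  if i = 2 ∧ r ∈ H 0 ∧ c ∈ H 1 then 1 else 0
/-- test functions -/
def ib (H : Fin 3 → Finset G) (i : Fin 3) (r s : G) : ℤ :=
  if i = 1 ∧ r ∈ H 0 ∧ s ∈ H 2 then 1 else 0
/-- test functions -/
def ic (H : Fin 3 → Finset G) (i : Fin 3) (c s : G) : ℤ :=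
  if i = 0 ∧ c ∈ H 1 ∧ s ∈ H 2 then 1 else 0

omit [Fintype G] in
theorem ev_ind (H : Fin 3 → Finset G) (i : Fin 3) (t : G × G × G) :
    ev (ia H i) (ib H i) (ic H i) t = if ∀ j, j ≠ i → tc j t ∈ H j then 1 else 0 := by
  fin_cases i <;> simp [ev, ia, ib, ic, Fin.forall_fin_succ]

theorem off_lab {off : G → Finset (G × G)} {s : ℕ} (h : IsOff off s) (w : G) :
    (0, 0) ∈ off w ∧ ∃ p ∈ off w, p.1 + p.2 = w := by
  obtain ⟨B, hB⟩ := h.tr w
  constructor
  · by_contra hn
    have h1 := hB (fun r c => if r = 0 ∧ c = 0 then 1 else 0) (fun _ _ => 0) (fun _ _ => 0)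
    have h2 : ∑ p ∈ off w, evt (fun r c => if r = 0 ∧ c = 0 then (1:ℤ) else 0) (fun _ _ => 0)
        (fun _ _ => 0) p = 0 := by
      refine sum_eq_zero fun p hp => ?_
      have : ¬ (p.1 = 0 ∧ p.2 = 0) := fun hh => hn (by
        have : p = (0, 0) := Prod.ext hh.1 hh.2
        rwa [this] at hp)
      simp [evt, this]
    have h3 : 0 ≤ (B.map (ev (fun r c => if r = 0 ∧ c = 0 then (1:ℤ) else 0) (fun _ _ => 0)
        (fun _ _ => 0))).sum := by
      refine Multiset.sum_nonneg fun z hz => ?_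
      obtain ⟨t, -, rfl⟩ := Multiset.mem_map.1 hz
      simp only [ev]; split_ifs <;> simp
    rw [h2] at h1
    simp only [ev, and_self, if_true] at h1 h3
    omega
  · by_contra hn
    have h1 := hB (fun _ _ => 0) (fun _ s => if s = w then 1 else 0) (fun _ _ => 0)
    have h2 : ∑ p ∈ off w, evt (fun _ _ => 0) (fun _ s => if s = w then (1:ℤ) else 0)
        (fun _ _ => 0) p = 0 := by
      refine sum_eq_zero fun p hp => ?_
      have : ¬ (p.1 + p.2 = w) := fun hh => hn ⟨p, hp, hh⟩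
      simp [evt, this]
    have h3 : 0 ≤ (B.map (ev (fun _ _ => 0) (fun _ s => if s = w then (1:ℤ) else 0)
        (fun _ _ => 0))).sum := by
      refine Multiset.sum_nonneg fun z hz => ?_
      obtain ⟨t, -, rfl⟩ := Multiset.mem_map.1 hz
      simp only [ev]; split_ifs <;> simp
    rw [h2] at h1
    simp only [ev, if_true] at h1 h3
    omega

end HexAux

open HexAux

theorem stHex : StHex := by
  intro m s D h _ off U H x y hoff hU hH hxy hnum
  let κ : Fin 6 → ZMod m := ![x 0, x 1, x 2, y 0, y 1, y 2]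
  obtain ⟨Bad, hB, hF⟩ := gG.bad_bound 3 gD g_cert κ off s D h hoff.card U
    (fun r => hU (0, r)) (fun r => hU (1, r)) (fun r => hU (2, r)) (H 0) (H 1) (H 2)
    (hH 0) (hH 1) (hH 2)
  obtain ⟨θ, hθ⟩ := exists_not_mem_of_small hB
    (lt_of_le_of_lt (le_of_eq (by ring)) (hnum.trans_eq (ZMod.card m).symm))
  obtain ⟨F1, F2⟩ := hF θ hθ
  obtain ⟨f5, f6, f7, f8⟩ := g_perm
  have hd : ∀ i j, i ≠ j → Disjoint (gG.cells κ off θ i) (gG.cells κ off θ j) := by
    intro i j hij
    rw [Finset.disjoint_left]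
    intro p0 hp0 hq0
    obtain ⟨p, hp, rfl⟩ := mem_image.1 hp0
    obtain ⟨q, hq, e⟩ := mem_image.1 hq0
    exact F2 i j (by simpa [gG] using hij) p hp q hq e.symm
  obtain ⟨B0, hB0⟩ := gG.assemble κ off θ hoff.tr hd
  -- unfixed labels
  have hun : ∀ k i, fx (lab (sl k) i) = false → ∀ p ∈ gG.cells κ off θ k, co i p ∉ H i := by
    intro k i hf p0 hp0
    obtain ⟨p, hp, rfl⟩ := mem_image.1 hp0
    obtain ⟨-, g1, g2, g3⟩ := F1 k p hp
    fin_cases i
    · exact g1 (by change (!fx (lab (sl k) 0)) = true; simpa using hf)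
    · exact g2 (by change (!fx (lab (sl k) 1)) = true; simpa using hf)
    · exact g3 (by change (!fx (lab (sl k) 2)) = true; simpa using hf)
  have hA : ∀ k i, ∀ p ∈ gG.cells κ off θ k, co i p ∈ H i → fx (lab (sl k) i) = true ∧
      p = (val κ (gG.R k) θ, val κ (gG.C k) θ) ∧ co i p = val κ (lab (sl k) i) θ := by
    intro k i p0 hp0 hi
    have hf : fx (lab (sl k) i) = true := by
      by_contra hn
      exact hun k i (by simpa using hn) p0 hp0 hi
    obtain ⟨z, -, -⟩ := f1 k i hf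
    obtain ⟨p, hp, rfl⟩ := mem_image.1 hp0
    rw [gG.wt_zero κ k θ z, hoff.zero, mem_singleton] at hp
    subst hp
    refine ⟨hf, by simp, ?_⟩
    fin_cases i
    · simp [lab, sl]
    · simp [lab, sl]
    · simp [lab, sl, z.val_eq]
  have hL : ∀ k i, ∃ p ∈ gG.cells κ off θ k, co i p = val κ (lab (sl k) i) θ := by
    intro k i
    obtain ⟨h0, p, hp, hw⟩ := off_lab hoff (gG.wt κ k θ)
    fin_cases i
    · exact ⟨_, mem_image_of_mem _ h0, by simp [lab, sl]⟩
    · exact ⟨_, mem_image_of_mem _ h0, by simp [lab, sl]⟩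
    · refine ⟨_, mem_image_of_mem _ hp, ?_⟩
      have : val κ (gG.R k) θ + p.1 + (val κ (gG.C k) θ + p.2) = val κ (gG.S k) θ := by
        rw [add_add_add_comm, hw, Gad.wt]; abel
      simpa [lab, sl] using this
  set W := univ.biUnion (gG.cells κ off θ) with hW
  have hmem : ∀ p ∈ W, ∃ k, p ∈ gG.cells κ off θ k := by
    intro p hp
    obtain ⟨k, -, hk⟩ := mem_biUnion.1 hp
    exact ⟨k, hk⟩
  have hW0 : ∀ i, ∑ p ∈ W, evt (ia H i) (ib H i) (ic H i) p = 0 := by
    intro i
    refine sum_eq_zero fun p hp => ?_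
    obtain ⟨k, hk⟩ := hmem p hp
    have e : evt (ia H i) (ib H i) (ic H i) p =
      ev (ia H i) (ib H i) (ic H i) (p.1, p.2, p.1 + p.2) := rfl
    rw [e, ev_ind, if_neg]
    intro hh
    simp only [tc_cell] at hh
    obtain ⟨j, j', h1, h2, h3⟩ :=
      (by decide : ∀ i : Fin 3, ∃ j j' : Fin 3, j ≠ i ∧ j' ≠ i ∧ j' ≠ j) i
    have a1 := (hA k j p hk (hh j h1)).1
    have a2 := (hA k j' p hk (hh j' h2)).1
    rw [(f1 k j a1).2.2 j' h3] at a2
    exact Bool.false_ne_true a2
  have hfin : ∀ a b c : ZMod m → ZMod m → ℤ,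
      ((B0 + ((gB ++ gH).map fun t => (val κ t.1 θ, val κ t.2.1 θ, val κ t.2.2 θ) : List _) :
        Multiset (ZMod m × ZMod m × ZMod m)).map (ev a b c)).sum = ∑ p ∈ W, evt a b c p +
      (a (x 0) (x 1) + c (x 1) (x 2) + b (y 0) (x 2) + a (y 0) (y 1) + c (y 1) (y 2) +
        b (x 0) (y 2)) := by
    intro a b c
    rw [hB0, Multiset.map_add, Multiset.sum_add, Multiset.map_coe, Multiset.sum_coe, List.map_map]
    have := ev_perm κ θ gW (gB ++ gH) _ _ _ f6 f7 f8 a b c
    simp only [Function.comp_def]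
    rw [this, ← f5, List.map_ofFn, List.sum_ofFn]
    have k0 : val κ (kv 0) θ = x 0 := val_kv κ θ 0
    have k1 : val κ (kv 1) θ = x 1 := val_kv κ θ 1
    have k2 : val κ (kv 2) θ = x 2 := val_kv κ θ 2
    have k3 : val κ (kv 3) θ = y 0 := val_kv κ θ 3
    have k4 : val κ (kv 4) θ = y 1 := val_kv κ θ 4
    have k5 : val κ (kv 5) θ = y 2 := val_kv κ θ 5
    simp only [Function.comp_def, List.map_cons, List.map_nil, List.sum_cons, List.sum_nil,
      k0, k1, k2, k3, k4, k5]
    ring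
  refine ⟨W, B0 + ((gB ++ gH).map fun t => (val κ t.1 θ, val κ t.2.1 θ, val κ t.2.2 θ) : List _),
    ?_, ?_, ?_, ?_, ?_, ?_, ?_, hfin⟩
  · rw [Finset.disjoint_left]
    intro p0 hp0
    obtain ⟨i, hp1⟩ := hmem p0 hp0
    obtain ⟨p, hp, rfl⟩ := mem_image.1 hp1
    exact (F1 i p hp).1
  · refine le_trans card_biUnion_le ?_
    calc _ ≤ ∑ _i : Fin 37, s := sum_le_sum fun i _ => card_image_le.trans (hoff.card _)
      _ = _ := by simp
  · intro l
    rw [cnt_eq, hW, filter_biUnion]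
    refine le_trans card_biUnion_le ?_
    calc _ ≤ ∑ _i : Fin 37, 400 := sum_le_sum fun k _ => ?_
      _ = _ := by simp
    rw [Gad.cells, filter_image]
    refine card_image_le.trans (le_trans (le_of_eq ?_) (hoff.load (gG.wt κ k θ)
      (l.1, l.2 - co l.1 (val κ (gG.R k) θ, val κ (gG.C k) θ))))
    rw [cnt_eq]
    congr 1
    refine filter_congr fun p _ => ?_
    have := co_add l.1 (val κ (gG.R k) θ, val κ (gG.C k) θ) p
    simp only at this ⊢
    rw [this, eq_sub_iff_add_eq, add_comm]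
  · intro i a ha
    rw [cnt_eq]
    refine le_trans (card_le_card (t := (univ.filter fun k : Fin 37 =>
      fx (lab (sl k) i) = true).image fun k => (val κ (gG.R k) θ, val κ (gG.C k) θ)) ?_)
      (card_image_le.trans (f2 i))
    intro p hp
    obtain ⟨hp1, hp2⟩ := mem_filter.1 hp
    obtain ⟨k, hk⟩ := hmem p hp1
    obtain ⟨a1, a2, -⟩ := hA k i p hk (by rw [show co i p = a from hp2]; exact ha)
    exact mem_image.2 ⟨k, mem_filter.2 ⟨mem_univ _, a1⟩, a2.symm⟩
  · intro p hp i hi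
    obtain ⟨k, hk⟩ := hmem p hp
    obtain ⟨a1, -, a3⟩ := hA k i p hk hi
    rw [a3]
    rcases (f1 k i a1).2.1 with e | e <;> rw [e]
    · left
      fin_cases i
      exacts [val_kv κ θ 0, val_kv κ θ 1, val_kv κ θ 2]
    · right
      fin_cases i
      exacts [val_kv κ θ 3, val_kv κ θ 4, val_kv κ θ 5]
  · intro t ht i hi
    rcases Multiset.mem_add.1 ht with ht | ht
    · exfalso
      have h1 := hB0 (ia H i) (ib H i) (ic H i)
      rw [hW0 i] at h1
      have h2 : 0 ≤ ∑ k, ev (ia H i) (ib H i) (ic H i)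
          (val κ (gG.R k) θ, val κ (gG.C k) θ, val κ (gG.S k) θ) :=
        sum_nonneg fun k _ => by rw [ev_ind]; split_ifs <;> simp
      have h3 : (B0.map (ev (ia H i) (ib H i) (ic H i))).sum =
          (B0.filter fun t => ∀ j, j ≠ i → tc j t ∈ H j).card := by
        rw [← sum_ind]; congr 2; funext t; exact ev_ind H i t
      have h4 : 0 < (B0.filter fun t => ∀ j, j ≠ i → tc j t ∈ H j).card :=
        Multiset.card_pos_iff_exists_mem.2 ⟨t, Multiset.mem_filter.2 ⟨ht, hi⟩⟩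
      omega
    · obtain ⟨f, hf, rfl⟩ := List.mem_map.1 (Multiset.mem_coe.1 ht)
      have htc : ∀ j, tc j (val κ f.1 θ, val κ f.2.1 θ, val κ f.2.2 θ) = val κ (lab f j) θ := by
        intro j; fin_cases j <;> rfl
      have key : ∀ j k, lab (sl k) j = lab f j → fx (lab (sl k) j) = false →
          val κ (lab f j) θ ∉ H j ∧ ∃ p ∈ W, co j p = val κ (lab f j) θ := by
        intro j k e hx
        obtain ⟨p, hp, hp'⟩ := hL k j
        rw [e] at hp'
        exact ⟨hp' ▸ hun k j hx p hp, p, mem_biUnion.2 ⟨k, mem_univ _, hp⟩, hp'⟩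
      rw [htc]
      rcases f3 f hf i with ⟨k, e, hx⟩ | ⟨j, hj, k, e, hx⟩
      · exact key i k e hx
      · exact absurd (htc j ▸ hi j hj) (key j k e hx).1
  · intro i
    have h1 := hfin (ia H i) (ib H i) (ic H i)
    rw [hW0 i, show ev (ia H i) (ib H i) (ic H i) =
      fun t => if ∀ j, j ≠ i → tc j t ∈ H j then 1 else 0 from funext (ev_ind H i), sum_ind] at h1
    have ha : ∀ r c, ia H i r c ≤ 1 := fun r c => by unfold ia; split_ifs <;> simp
    have hb : ∀ r c, ib H i r c ≤ 1 := fun r c => by unfold ib; split_ifs <;> simp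
    have hc : ∀ r c, ic H i r c ≤ 1 := fun r c => by unfold ic; split_ifs <;> simp
    have := ha (x 0) (x 1)
    have := hc (x 1) (x 2)
    have := hb (y 0) (x 2)
    have := ha (y 0) (y 1)
    have := hc (y 1) (y 2)
    have := hb (x 0) (y 2)
    omega

end PlexLL
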