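import Pool.Agent.Lib.MP_3d3eb4_co.LL.Defs
import Pool.Agent.Lib.MP_3d3eb4_co.PL.All

namespace PlexLL

open Finset Pool.Agent.Lib.MP_3d3eb4_co
open PlexL (co cnt)

namespace MainAux

theorem ev_ll : ∀ᶠ n : ℕ in Filter.atTop, 1 ≤ Real.log (Real.log (n : ℝ)) :=
  ((Real.tendsto_log_atTop.comp Real.tendsto_log_atTop).comp
    (tendsto_natCast_atTop_atTop (R := ℝ))).eventually_ge_atTop 1

theorem k_le {k n : ℕ} (hn : 2 ≤ n) (h : 2 ^ 2 ^ k ≤ n + 2)
    (hl : 1 ≤ Real.log (Real.log (n : ℝ))) :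
    ((3000 * (3 * k + 6) : ℕ) : ℝ) ≤ 100000 * Real.log (Real.log (n : ℝ)) := by
  have l2 := Real.log_two_gt_d9
  have hn' : (2 : ℝ) ≤ n := by exact_mod_cast hn
  have a1 : ((2 : ℝ) ^ 2 ^ k) ≤ (n : ℝ) ^ 2 := by
    have : 2 ^ 2 ^ k ≤ n ^ 2 := h.trans (by nlinarith)
    exact_mod_cast this
  have a2 := Real.log_le_log (by positivity) a1
  rw [Real.log_pow, Real.log_pow] at a2
  push_cast at a2
  have a0 : 0 < Real.log (n : ℝ) := Real.log_pos (by linarith)
  have p : (0 : ℝ) < 2 ^ k := by positivity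
  have a3 : (2 : ℝ) ^ k ≤ 3 * Real.log n := by nlinarith
  have a4 := Real.log_le_log p a3
  rw [Real.log_pow, Real.log_mul (by norm_num) a0.ne'] at a4
  have a5 : Real.log 3 ≤ 2 := by
    have := Real.log_le_sub_one_of_pos (show (0 : ℝ) < 3 by norm_num)
    linarith
  have k0 : (0 : ℝ) ≤ k := Nat.cast_nonneg k
  push_cast
  nlinarith

theorem log_le {n β : ℕ} (C : ℝ) (hn : 1 ≤ n) (h : n + 2 ≤ β ^ 129)
    (hb : |C| * 129 ^ 3 * Real.log β ^ 3 ≤ β / 6) : C * Real.log n ^ 3 ≤ β := by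
  have hn' : (1 : ℝ) ≤ n := by exact_mod_cast hn
  have a1 : (n : ℝ) ≤ (β : ℝ) ^ 129 := by
    have : n ≤ β ^ 129 := by omega
    exact_mod_cast this
  have a2 := Real.log_le_log (by linarith) a1
  rw [Real.log_pow] at a2
  push_cast at a2
  have a0 : 0 ≤ Real.log (n : ℝ) := Real.log_nonneg hn'
  have a3 : Real.log (n : ℝ) ^ 3 ≤ (129 * Real.log β) ^ 3 := pow_le_pow_left₀ a0 a2 3
  have a4 : C * Real.log n ^ 3 ≤ |C| * Real.log n ^ 3 :=
    mul_le_mul_of_nonneg_right (le_abs_self C) (by positivity)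
  have a5 := mul_le_mul_of_nonneg_left a3 (abs_nonneg C)
  have b0 : (0 : ℝ) ≤ β := Nat.cast_nonneg β
  rw [mul_pow, ← mul_assoc] at a5
  linarith

end MainAux

theorem stMain (h1 : StDyn) (h2 : StNear) : StMain := by
  obtain ⟨C, N0, H⟩ := PlexS.all
  obtain ⟨K, hK⟩ := Filter.eventually_atTop.1 (PlexS.ev_log (|C| * 129 ^ 3))
  obtain ⟨N1, hN1⟩ := Filter.eventually_atTop.1 MainAux.ev_ll
  refine ⟨100000, fun N => ?_⟩
  obtain ⟨k, n, β, t, b1, b2, b3, b4, b5, b6, b7⟩ := h1 (K + N + N0 + N1 + 1000000)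
  have c1 : β ^ 2 ≤ n + 2 := (Nat.pow_le_pow_right (by omega) (by norm_num)).trans b3
  have c2 : β ≤ n := by nlinarith
  refine ⟨n, by omega, fun k' hk hk' => ?_⟩
  have d1 := hN1 n (by omega)
  have d2 := MainAux.k_le (by omega) b5 d1
  have d3 : 3000 * (3 * k + 6) + k' ≤ n := by
    have : ((3000 * (3 * k + 6) : ℕ) : ℝ) + k' ≤ n := by linarith
    exact_mod_cast this
  rcases le_or_gt (n - k') β with h | h
  · have := h2 k n β (n - k') t (by omega) b2 b3 b4 b6 b7 (by omega) h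
    rwa [Nat.sub_sub_self (by omega)] at this
  · refine H n (by omega) k' hk ?_
    have e1 := MainAux.log_le C (by omega : 1 ≤ n) b4 (hK β (by omega))
    have e2 : (k' : ℝ) + β ≤ n := by
      have : k' + β ≤ n := by omega
      exact_mod_cast this
    linarith

end PlexLL
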