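import Pool.Agent.Lib.MP_3d3eb4_co.LL.Defs

/-! Small trades with boundedly many cells on each line. -/

namespace PlexLL

open Finset Pool.Agent.Lib.MP_3d3eb4_co
open PlexL (co cnt)

namespace OffAux

variable {G : Type} [AddCommGroup G] [DecidableEq G]

/-- a trade of weight `w` with small load -/
def TrL (w : G) (n : ℕ) : Prop :=
  ∃ W : Finset (G × G), W.card ≤ n ∧ (∀ l, cnt W.val l ≤ 400) ∧
    ∃ B : Multiset (G × G × G), ∀ a b c : G → G → ℤ,
      ∑ p ∈ W, evt a b c p = ev a b c (0, 0, w) + (B.map (ev a b c)).sum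

theorem count_le (W : List (ℤ × ℤ)) (f : ℤ × ℤ → ℤ) (P : ℤ × ℤ → Prop) [DecidablePred P] {n : ℕ}
    (h1 : ∀ v : ℤ, W.countP (fun p => f p = v) ≤ n)
    (h2 : ∀ p ∈ W, ∀ p' ∈ W, P p → P p' → f p = f p') : W.countP (fun p => P p) ≤ n := by
  by_cases h : ∃ p ∈ W, P p
  · obtain ⟨p, hp, hP⟩ := h
    refine le_trans (List.countP_mono_left fun p' hp' h' => ?_) (h1 (f p))
    simpa using h2 p' hp' p hp (by simpa using h') hP
  · rw [List.countP_eq_zero.2 fun p hp h' => h ⟨p, hp, by simpa using h'⟩]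
    exact Nat.zero_le _

theorem cnt_le (W : Finset (G × G)) (l : Fin 3 × G) : cnt W.val l ≤ W.card :=
  Multiset.card_le_card (Multiset.filter_le _ _)

theorem tr_load (h : StDis) (w : G) (K j : ℕ) (hK : 5 ≤ K) (hj : K ≤ 2 ^ j)
    (hw : addOrderOf w = 2 * K + 3) : TrL w (18 * j + 32) := by
  obtain ⟨Sq, W, ⟨x0, y0, l⟩, e, h1, h2, h3, h4, h5, h6⟩ := h j K hK hj
  simp only at h1
  have hcop : IsCoprime l ((2 * K + 3 : ℕ) : ℤ) := by
    have : IsCoprime (2 : ℤ) ((2 * K + 3 : ℕ) : ℤ) := ⟨-(K + 1 : ℤ), 1, by push_cast; ring⟩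
    rcases h1 with h | h <;> rw [h]
    · exact this.pow_left
    · exact this.pow_left.neg_left
  obtain ⟨u, u', hu⟩ := hcop
  have hNw : ((2 * K + 3 : ℕ) : ℤ) • w = 0 := by
    rw [← hw, natCast_zsmul]; exact addOrderOf_nsmul_eq_zero w
  set v : G := u • w with hv
  have hlv : l • v = w := by
    rw [hv, smul_smul, show l * u = 1 - u' * ((2 * K + 3 : ℕ) : ℤ) by linear_combination hu,
      sub_smul, mul_smul, hNw]; simp
  have hNv : ((2 * K + 3 : ℕ) : ℤ) • v = 0 := by rw [hv, smul_comm, hNw]; simp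
  have hinj' : ∀ x x' : ℤ, |x - x'| < 2 * K + 3 → x • v = x' • v → x = x' := by
    intro x x' a1 h
    have : (x - x') • w = 0 := by
      rw [← hlv, smul_comm, sub_smul, h]; simp
    have hd := addOrderOf_dvd_iff_zsmul_eq_zero.2 this
    rw [hw] at hd
    have := Int.eq_zero_of_abs_lt_dvd hd (by push_cast; exact a1)
    omega
  have hinj : ∀ x x' : ℤ, 0 ≤ x → x ≤ K + 3 → 0 ≤ x' → x' ≤ K + 3 → x • v = x' • v → x = x' :=
    fun x x' a1 a2 a3 a4 => hinj' x x' (by rw [abs_lt]; omega)
  let φ : ℤ × ℤ → G × G := fun p => ((p.1 - x0) • v, (p.2 - y0) • v)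
  let W' : List (ℤ × ℤ) := (0, 0) :: ((K : ℤ) + 3, (K : ℤ)) :: (0, (K : ℤ)) :: ((K : ℤ) + 3, 0) :: W
  have hbox : ∀ p ∈ W', 0 ≤ p.1 ∧ p.1 ≤ K + 3 ∧ 0 ≤ p.2 ∧ p.2 ≤ K := by
    intro p hp
    simp only [W', List.mem_cons] at hp
    rcases hp with rfl | rfl | rfl | rfl | hp
    · simp only; omega
    · simp only; omega
    · simp only; omega
    · simp only; omega
    · have := h4 p hp
      simp only [Good] at this; omega
  have hnd : W'.Nodup := by
    simp only [W', List.nodup_cons, List.mem_cons, Prod.mk.injEq, not_or]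
    refine ⟨⟨by omega, by omega, by omega, fun h => ?_⟩, ⟨by omega, by omega, fun h => ?_⟩,
      ⟨by omega, fun h => ?_⟩, fun h => ?_, h3⟩ <;>
    · have := h4 _ h
      unfold Good at this; dsimp only at this; omega
  have hnd' : (W'.map φ).Nodup := by
    refine List.Nodup.map_on ?_ hnd
    intro p hp p' hp' h
    have b1 := hbox p hp
    have b2 := hbox p' hp'
    simp only [φ, Prod.mk.injEq, sub_smul, sub_left_inj] at h
    ext
    · exact hinj _ _ b1.1 b1.2.1 b2.1 b2.2.1 h.1
    · exact hinj _ _ b1.2.2.1 (by omega) b2.2.2.1 (by omega) h.2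
  let ψ : ℤ → ℤ → ℤ → G × G × G := fun x y s => ((x - x0) • v, (y - y0) • v, (s - x0 - y0) • v)
  refine ⟨(W'.map φ).toFinset, ?_, ?_,
    ψ (x0 + l) (y0 + l) (x0 + y0 + l) ::ₘ ψ (K + 3) 0 0 ::ₘ ψ 0 K 0 ::ₘ
      ((Sq.map fun q => ψ q.1 q.2.1 (q.1 + q.2.1 + q.2.2) : List _) +
       (Sq.map fun q => ψ (q.1 + q.2.2) (q.2.1 + q.2.2) (q.1 + q.2.1 + q.2.2) : List _)), ?_⟩
  · rw [List.toFinset_card_of_nodup hnd']
    simp only [W', List.length_map, List.length_cons]; omega
  · rintro ⟨i, s⟩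
    have e1 : cnt (W'.map φ).toFinset.val (i, s) =
        W'.countP (fun p => decide (co i (φ p) = s)) := by
      rw [← List.toFinset_eq hnd', cnt, Multiset.filter_coe, Multiset.coe_card,
        ← List.countP_eq_length_filter, List.countP_map]
      rfl
    have e2 : W.countP (fun p => decide (co i (φ p) = s)) ≤ 316 := by
      have g : ∀ p ∈ W, 0 ≤ p.1 ∧ p.1 ≤ K + 3 ∧ 0 ≤ p.2 ∧ p.2 ≤ K ∧ 0 < p.1 + p.2 ∧
          p.1 + p.2 < 2 * K + 3 := by
        intro p hp
        have := h4 p hp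
        simp only [Good] at this; omega
      have t3 : ∀ i : Fin 3, i = 0 ∨ i = 1 ∨ i = 2 := by decide
      rcases t3 i with rfl | rfl | rfl
      · refine count_le W (fun p => p.1) _ (fun z => (h6 z).1) fun p hp p' hp' a1 a2 => ?_
        have b1 := g p hp
        have b2 := g p' hp'
        have a3 := a1.trans a2.symm
        simp only [φ, PlexL.co_zero, sub_smul, sub_left_inj] at a3
        exact hinj' _ _ (by rw [abs_lt]; omega) a3
      · refine count_le W (fun p => p.2) _ (fun z => (h6 z).2.1) fun p hp p' hp' a1 a2 => ?_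
        have b1 := g p hp
        have b2 := g p' hp'
        have a3 := a1.trans a2.symm
        simp only [φ, PlexL.co_one, sub_smul, sub_left_inj] at a3
        exact hinj' _ _ (by rw [abs_lt]; omega) a3
      · refine count_le W (fun p => p.1 + p.2) _ (fun z => (h6 z).2.2)
          fun p hp p' hp' a1 a2 => ?_
        have b1 := g p hp
        have b2 := g p' hp'
        have a3 := a1.trans a2.symm
        simp only [φ, PlexL.co_two, ← add_smul] at a3
        have := hinj' _ _ (by rw [abs_lt]; omega) a3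
        omega
    have e3 : W'.countP (fun p => decide (co i (φ p) = s)) ≤
        W.countP (fun p => decide (co i (φ p) = s)) + 4 := by
      simp only [W', List.countP_cons]
      split_ifs <;> omega
    omega
  · intro a b c
    rw [List.sum_toFinset _ hnd', List.map_map]
    have := h5 (fun x y => a ((x - x0) • v) ((y - y0) • v))
      (fun x y => b ((x - x0) • v) ((x - x0) • v + (y - y0) • v) +
        c ((y - y0) • v) ((x - x0) • v + (y - y0) • v))
    have hs : ∀ q : ℤ × ℤ × ℤ, sqv (fun x y => a ((x - x0) • v) ((y - y0) • v))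
      (fun x y => b ((x - x0) • v) ((x - x0) • v + (y - y0) • v) +
        c ((y - y0) • v) ((x - x0) • v + (y - y0) • v)) q =
        ev a b c (ψ q.1 q.2.1 (q.1 + q.2.1 + q.2.2)) +
        ev a b c (ψ (q.1 + q.2.2) (q.2.1 + q.2.2) (q.1 + q.2.1 + q.2.2)) := by
      intro q
      have e1 : (q.1 - x0) • v + (q.2.1 + q.2.2 - y0) • v = (q.1 + q.2.1 + q.2.2 - x0 - y0) • v := by
        rw [← add_smul]; congr 1; ring
      have e2 : (q.1 + q.2.2 - x0) • v + (q.2.1 - y0) • v = (q.1 + q.2.1 + q.2.2 - x0 - y0) • v := by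
        rw [← add_smul]; congr 1; ring
      simp only [sqv, ev, ψ, e1, e2]
      ring
    rw [hs, funext hs, List.sum_map_add] at this
    simp only [Multiset.map_cons, Multiset.sum_cons, Multiset.map_add, Multiset.sum_add,
      Multiset.map_coe, Multiset.sum_coe, List.map_map]
    have e0 : ψ x0 y0 (x0 + y0 + l) = (0, 0, w) := by
      simp only [ψ, sub_self, zero_smul, show x0 + y0 + l - x0 - y0 = l by ring, hlv]
    simp only at this
    rw [e0] at this
    have e4 : ((K : ℤ) + 3 - x0) • v + ((K : ℤ) - y0) • v = (0 - x0 - y0) • v := by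
      rw [← add_smul, show (K : ℤ) + 3 - x0 + (K - y0) = ((2 * K + 3 : ℕ) : ℤ) + (0 - x0 - y0) by
        push_cast; ring, add_smul, hNv, zero_add]
    have e5 : (0 - x0) • v + (0 - y0) • v = (0 - x0 - y0) • v := by
      rw [← add_smul]; congr 1; ring
    simp only [W', List.map_cons, List.sum_cons, Function.comp_def, evt, φ, e4, e5] at this ⊢
    simp only [ev, ψ, add_assoc] at this ⊢
    linarith

end OffAux

open OffAux in
theorem stOff (h : StDis) : StOff := by
  intro m j _ hm hj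
  have : ∀ w : ZMod m, ∃ W : Finset (ZMod m × ZMod m), W.card ≤ 18 * j + 32 ∧
      (∀ l, cnt W.val l ≤ 400) ∧ (w = 0 → W = {(0, 0)}) ∧
      ∃ B : Multiset (ZMod m × ZMod m × ZMod m), ∀ a b c : ZMod m → ZMod m → ℤ,
        ∑ p ∈ W, evt a b c p = ev a b c (0, 0, w) + (B.map (ev a b c)).sum := by
    intro w
    by_cases hw : w = 0
    · subst hw
      exact ⟨{(0, 0)}, by simp, fun l => (cnt_le _ l).trans (by simp), fun _ => rfl, 0,
        fun a b c => by simp [ev, evt]⟩
    by_cases h12 : addOrderOf w ≤ 12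
    · obtain ⟨W, h1, -, h3⟩ := tr_small w hw
      exact ⟨W, by omega, fun l => (cnt_le _ l).trans (by omega), fun h => absurd h hw, h3⟩
    have hd : addOrderOf w ∣ m := by
      have := addOrderOf_dvd_card (x := w)
      rwa [ZMod.card] at this
    obtain ⟨N, hN⟩ := hm.of_dvd_nat hd
    have hle := Nat.le_of_dvd (NeZero.pos m) hd
    obtain ⟨W, h1, h2, h3⟩ := tr_load h w (N - 1) j (by omega) (by omega) (by omega)
    exact ⟨W, h1, h2, fun h => absurd h hw, h3⟩
  choose off h1 h2 h3 h4 using this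
  exact ⟨off, h1, h2, h3 0 rfl, h4⟩

end PlexLL
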