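import Pool.Agent.Lib.MP_3d3eb4_co.LL.Defs

namespace PlexLL

open Finset Pool.Agent.Lib.MP_3d3eb4_co
open PlexL (co cnt)

namespace PatchAux

set_option linter.unusedSectionVars false

section
variable {G : Type} [AddCommGroup G] [Fintype G] [DecidableEq G]

/-- the triple of a table cell -/
def tri (p : G × G) : G × G × G := (p.1, p.2, p.1 + p.2)

/-- removed labels are sent to a fixed label -/
def pm (Rm : Fin 3 → Finset G) (tg : Fin 3 → G) (i : Fin 3) (x : G) : G :=
  if x ∈ Rm i then tg i else x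

def pt (Rm : Fin 3 → Finset G) (tg : Fin 3 → G) (t : G × G × G) : G × G × G :=
  (pm Rm tg 0 t.1, pm Rm tg 1 t.2.1, pm Rm tg 2 t.2.2)

variable {Rm : Fin 3 → Finset G} {tg : Fin 3 → G}

theorem tc_tri (i : Fin 3) (p : G × G) : tc i (tri p) = co i p := by fin_cases i <;> rfl

theorem tc_pt (i : Fin 3) (t : G × G × G) : tc i (pt Rm tg t) = pm Rm tg i (tc i t) := by
  fin_cases i <;> rfl

theorem mem_T0 {p : G × G} : p ∈ T0 Rm ↔ ∀ i, co i p ∉ Rm i := by simp [T0]

theorem pt_tri {p : G × G} (h : p ∈ T0 Rm) : pt Rm tg (tri p) = tri p := by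
  have h0 : p.1 ∉ Rm 0 := mem_T0.1 h 0
  have h1 : p.2 ∉ Rm 1 := mem_T0.1 h 1
  have h2 : p.1 + p.2 ∉ Rm 2 := mem_T0.1 h 2
  simp [pt, tri, pm, h0, h1, h2]

theorem tn_add (A B : Multiset (G × G × G)) (l : Fin 3 × G) : tn (A + B) l = tn A l + tn B l := by
  simp [tn]

theorem tn_le_card (A : Multiset (G × G × G)) (l : Fin 3 × G) : tn A l ≤ A.card :=
  Multiset.card_le_card (Multiset.filter_le _ _)

theorem tn_map {ι : Type} (S : Finset ι) (f : ι → G × G × G) (l : Fin 3 × G) :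
    tn (S.val.map f) l = #{j ∈ S | tc l.1 (f j) = l.2} := by
  rw [tn, Multiset.filter_map, Multiset.card_map]; rfl

theorem tn_eq_zero {A : Multiset (G × G × G)} {l : Fin 3 × G} (h : ∀ t ∈ A, tc l.1 t ≠ l.2) :
    tn A l = 0 := Multiset.card_eq_zero.2 (Multiset.filter_eq_nil.2 h)

theorem tn_pt_eq (A : Multiset (G × G × G)) {l : Fin 3 × G} (h : l.2 ∉ Rm l.1)
    (h' : l.2 ≠ tg l.1) : tn (A.map (pt Rm tg)) l = tn A l := by
  rw [tn, Multiset.filter_map, Multiset.card_map, tn]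
  congr 1
  refine Multiset.filter_congr fun t _ => ?_
  simp only [Function.comp, tc_pt, pm]
  split_ifs with h1
  · exact ⟨fun e => (h' e.symm).elim, fun e => (h (e ▸ h1)).elim⟩
  · rfl

theorem tn_pt_le (hc : ∀ i, (Rm i).card = 2) (A : Multiset (G × G × G)) {D : ℕ}
    (h : ∀ l, tn A l ≤ D) (l : Fin 3 × G) : tn (A.map (pt Rm tg)) l ≤ 3 * D := by
  obtain ⟨y, z, -, e⟩ := card_eq_two.1 (hc l.1)
  have key : tn (A.map (pt Rm tg)) l ≤ tn A l + tn A (l.1, y) + tn A (l.1, z) := by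
    clear h
    induction A using Multiset.induction_on with
    | empty => simp [tn]
    | cons t A ih =>
      simp only [tn, Multiset.map_cons, Multiset.filter_cons, Multiset.card_add, tc_pt, pm, e,
        mem_insert, mem_singleton] at ih ⊢
      split_ifs <;> simp_all <;> omega
  have := h l
  have := h (l.1, y)
  have := h (l.1, z)
  omega

/-- test functions of a line -/
theorem bal_line (hc : ∀ i, (Rm i).card = 2) {U : Finset (G × G)} {Q Z : Multiset (G × G × G)}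
    (h : Bal Rm U Q Z) {l : Fin 3 × G} (hl : l.2 ∉ Rm l.1) :
    cnt (T0 Rm \ U).val l + tn Q l + 2 = Fintype.card G + tn Z l := by
  obtain ⟨i, x⟩ := l
  have h1 : ∀ A B : Finset G, x ∉ A → B.card = 2 →
      ∑ p ∈ univ.filter (fun p : G × G => p.1 ∉ A ∧ p.2 ∉ B), (if p.1 = x then (1 : ℤ) else 0) + 2
        = Fintype.card G := fun A B hA hB => by
    rw [sum_filter, Fintype.sum_prod_type, sum_eq_single x (fun y _ hy => by simp [hy]) (by simp)]
    have := card_compl_add_card B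
    simp only [hA, not_false_eq_true, true_and, if_true, ← mem_compl, sum_ite_mem, univ_inter,
      sum_const, nsmul_eq_mul, mul_one]
    omega
  have h2 : ∀ A B : Finset G, x ∉ B → A.card = 2 →
      ∑ p ∈ univ.filter (fun p : G × G => p.1 ∉ A ∧ p.2 ∉ B), (if p.2 = x then (1 : ℤ) else 0) + 2
        = Fintype.card G := fun A B hB hA => by
    rw [← h1 B A hB hA, sum_filter, sum_filter, ← Equiv.sum_comp (Equiv.prodComm G G)]
    congr 1
    exact sum_congr rfl fun p _ => if_congr and_comm rfl rfl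
  have fin : ∀ a b c : G → G → ℤ, (∀ t, ev a b c t = if tc i t = x then 1 else 0) →
      Tg Rm a b c + 2 = Fintype.card G →
      cnt (T0 Rm \ U).val (i, x) + tn Q (i, x) + 2 = Fintype.card G + tn Z (i, x) := by
    intro a b c h3 h4
    have h5 := h a b c
    have h6 : ∀ p, evt a b c p = if co i p = x then 1 else 0 := fun p => by
      rw [← tc_tri]; exact h3 (tri p)
    rw [funext h3, sum_ind, sum_ind] at h5
    simp only [h6, sum_boole] at h5
    simp only [PlexL.cnt_val, tn]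
    omega
  fin_cases i
  · exact fin (fun r _ => if r = x then 1 else 0) (fun _ _ => 0) (fun _ _ => 0)
      (fun t => by simp [ev]) (by simpa [Tg] using h1 _ _ hl (hc 1))
  · exact fin (fun _ s => if s = x then 1 else 0) (fun _ _ => 0) (fun _ _ => 0)
      (fun t => by simp [ev]) (by simpa [Tg] using h2 _ _ hl (hc 0))
  · exact fin (fun _ _ => 0) (fun _ s => if s = x then 1 else 0) (fun _ _ => 0)
      (fun t => by simp [ev]) (by simpa [Tg] using h2 _ _ hl (hc 0))

theorem card_le_lines {ι : Type} [DecidableEq ι] (hc : ∀ i, (Rm i).card = 2) (J : Finset ι)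
    (w : ι → G × G) {e : ℕ} (hl : ∀ l : Fin 3 × G, #{j ∈ J | co l.1 (w j) = l.2} ≤ e) :
    #{j ∈ J | w j ∉ T0 Rm} ≤ 6 * e := by
  have h1 : {j ∈ J | w j ∉ T0 Rm} ⊆ univ.biUnion fun i : Fin 3 => (Rm i).biUnion fun x =>
      {j ∈ J | co i (w j) = x} := fun j hj => by
    obtain ⟨h2, h3⟩ := mem_filter.1 hj
    rw [mem_T0] at h3
    push Not at h3
    obtain ⟨i, hi⟩ := h3
    simp only [mem_biUnion, mem_univ, true_and, mem_filter]
    exact ⟨i, _, hi, h2, rfl⟩
  refine (card_le_card h1).trans ((card_biUnion_le_card_mul _ _ (2 * e) fun i _ => ?_).trans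
    (by simp; omega))
  rw [← hc i]
  exact card_biUnion_le_card_mul _ _ _ fun x _ => hl (i, x)

/-- the lines through a triple -/
def lns (t : G × G × G) : Finset (Fin 3 × G) := univ.image fun i => (i, tc i t)

theorem card_lns (S : Finset (G × G × G)) : (S.biUnion lns).card ≤ 3 * S.card := by
  rw [mul_comm]
  exact card_biUnion_le_card_mul _ _ _ fun t _ => card_image_le.trans (by simp)

theorem patch_abs {ι : Type} [DecidableEq ι] (hc : ∀ i, (Rm i).card = 2) (htg : ∀ i, tg i ∉ Rm i)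
    {J Jg : Finset ι} (w : ι → G × G) {Cr : Finset (G × G)} {Bk K : Multiset (G × G × G)}
    {e : ℕ} (base : ∀ a b c : G → G → ℤ, ∑ p ∈ T0 Rm, evt a b c p + (Bk.map (ev a b c)).sum
      + (K.map (ev a b c)).sum = Tg Rm a b c + ∑ j ∈ J, evt a b c (w j) + ∑ p ∈ Cr, evt a b c p)
    (hK : ∀ t ∈ K, ∀ i, tc i t ∈ Rm i) (hK4 : K.card ≤ 4) (hCr : Cr.card ≤ 12)
    (hCr' : ∀ p ∈ Cr, p ∉ T0 Rm) (hJ : Jg ⊆ J) (hi : Set.InjOn w Jg) (hg : ∀ j ∈ Jg, w j ∈ T0 Rm)
    (hl : ∀ l : Fin 3 × G, #{j ∈ J | co l.1 (w j) = l.2} ≤ e) (hB : ∀ l, tn Bk l = e + 2) :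
    ∃ (Co U : Finset (G × G)) (Q Z : Multiset (G × G × G)) (Λ : Finset (Fin 3 × G)),
      U ⊆ J.image w ∪ Co ∧ Co.card ≤ 18 * (e + 2) ∧ U ⊆ T0 Rm ∧ Bal Rm U Q Z ∧
      (∀ t ∈ Z, ∀ i, tc i t ∉ Rm i) ∧ (∀ t ∈ Z, Cor Rm U t) ∧
      (∀ l, cnt U.val l ≤ 30 * (e + 2)) ∧ (∀ l, tn Q l ≤ 30 * (e + 2)) ∧
      (∀ l, tn Z l ≤ 30 * (e + 2)) ∧ Z.card ≤ #(J \ Jg) + 12 ∧
      Λ.card ≤ 6 * #(J \ Jg) + 54 * (e + 2) + 45 ∧
      ∀ l ∉ Λ, cnt (T0 Rm \ U).val l + (e + 2) + 2 = Fintype.card G := by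
  let P : Finset (G × G × G) :=
    (({j ∈ J | w j ∉ T0 Rm}.image w) ∪ Cr).image fun p => pt Rm tg (tri p)
  have hP : P.card ≤ 6 * (e + 2) := by
    have := card_le_lines hc J w hl
    refine card_image_le.trans ((card_union_le _ _).trans ?_)
    have := card_image_le (s := {j ∈ J | w j ∉ T0 Rm}) (f := w)
    omega
  let Co : Finset (G × G) := P.image (fun t => (t.1, t.2.1)) ∪ P.image (fun t => (t.1, t.2.2 - t.1))
    ∪ P.image fun t => (t.2.2 - t.2.1, t.2.1)
  have hCo : Co.card ≤ 18 * (e + 2) := by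
    refine (card_union_le _ _).trans ((add_le_add ((card_union_le _ _).trans
      (add_le_add card_image_le card_image_le)) card_image_le).trans ?_)
    omega
  let U := (J.image w ∪ Co) ∩ T0 Rm
  let Z := ((J \ Jg).val.map fun j => tri (w j)).map (pt Rm tg) + (Cr.val.map tri).map (pt Rm tg)
  let Q := Bk.map (pt Rm tg) + K.map (pt Rm tg) + (U \ Jg.image w).val.map tri
  have hU0 : Jg.image w ⊆ U := fun p hp => by
    obtain ⟨j, hj, rfl⟩ := mem_image.1 hp
    exact mem_inter.2 ⟨mem_union_left _ (mem_image_of_mem _ (hJ hj)), hg j hj⟩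
  have hUT : U ⊆ T0 Rm := inter_subset_right
  have hbal : Bal Rm U Q Z := fun a b c => by
    have h1 := base (fun x y => a (pm Rm tg 0 x) (pm Rm tg 1 y))
      (fun x y => b (pm Rm tg 0 x) (pm Rm tg 2 y)) fun x y => c (pm Rm tg 1 x) (pm Rm tg 2 y)
    have h2 : Tg Rm (fun x y => a (pm Rm tg 0 x) (pm Rm tg 1 y))
        (fun x y => b (pm Rm tg 0 x) (pm Rm tg 2 y)) (fun x y => c (pm Rm tg 1 x) (pm Rm tg 2 y))
        = Tg Rm a b c := by
      simp only [Tg]
      congr 1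
      congr 1
      all_goals
        refine sum_congr rfl fun p hp => ?_
        simp [pm, (mem_filter.1 hp).2.1, (mem_filter.1 hp).2.2]
    have h3 : ∀ S ⊆ T0 Rm, ∑ p ∈ S, ev a b c (pt Rm tg (tri p)) = ∑ p ∈ S, evt a b c p :=
      fun S hS => sum_congr rfl fun p hp => by rw [pt_tri (hS hp)]; rfl
    rw [h2] at h1
    change ∑ p ∈ T0 Rm, ev a b c (pt Rm tg (tri p)) + (Bk.map fun t => ev a b c (pt Rm tg t)).sum
      + (K.map fun t => ev a b c (pt Rm tg t)).sum = Tg Rm a b c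
      + ∑ j ∈ J, ev a b c (pt Rm tg (tri (w j))) + ∑ p ∈ Cr, ev a b c (pt Rm tg (tri p)) at h1
    rw [← sum_sdiff hJ, ← sum_image (f := fun p => ev a b c (pt Rm tg (tri p))) hi,
      h3 _ (hU0.trans hUT), h3 _ Subset.rfl, ← sum_sdiff hUT, ← sum_sdiff hU0] at h1
    simp only [Q, Z, Multiset.map_add, Multiset.sum_add, Multiset.map_map, Function.comp_def]
    change _ + (_ + _ + ∑ p ∈ U \ Jg.image w, evt a b c p) = _ + (∑ j ∈ J \ Jg,
      ev a b c (pt Rm tg (tri (w j))) + ∑ p ∈ Cr, ev a b c (pt Rm tg (tri p)))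
    linarith
  have hZ : ∀ t ∈ Z, ∃ p ∈ J.image w ∪ Cr, t = pt Rm tg (tri p) := fun t ht => by
    simp only [Z, Multiset.mem_add, Multiset.mem_map, mem_val, exists_exists_and_eq_and] at ht
    rcases ht with ⟨j, hj, rfl⟩ | ⟨p, hp, rfl⟩
    · exact ⟨_, mem_union_left _ (mem_image_of_mem _ (mem_sdiff.1 hj).1), rfl⟩
    · exact ⟨_, mem_union_right _ hp, rfl⟩
  have hZc : Z.card ≤ #(J \ Jg) + 12 := by
    simp only [Z, Multiset.card_add, Multiset.card_map, card_val]
    omega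
  have hlU : ∀ l, cnt U.val l ≤ e + 18 * (e + 2) := fun l => by
    refine (PlexL.cnt_subset inter_subset_left l).trans ((PlexL.cnt_union_le _ _ l).trans
      (add_le_add ?_ ((PlexL.cnt_le_card _ _).trans hCo)))
    rw [PlexL.cnt_val, filter_image]
    exact card_image_le.trans (hl l)
  have hd : #(U \ Jg.image w) ≤ #(J \ Jg) + 18 * (e + 2) := by
    have : U \ Jg.image w ⊆ (J \ Jg).image w ∪ Co := fun p hp => by
      obtain ⟨h1, h2⟩ := mem_sdiff.1 hp
      rcases mem_union.1 (mem_inter.1 h1).1 with h3 | h3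
      · obtain ⟨j, hj, rfl⟩ := mem_image.1 h3
        exact mem_union_left _ (mem_image_of_mem _
          (mem_sdiff.2 ⟨hj, fun h => h2 (mem_image_of_mem _ h)⟩))
      · exact mem_union_right _ h3
    exact (card_le_card this).trans ((card_union_le _ _).trans (add_le_add card_image_le hCo))
  refine ⟨Co, U, Q, Z, Z.toFinset.biUnion lns ∪ ((U \ Jg.image w).image tri).biUnion lns
    ∪ univ.biUnion fun i => (insert (tg i) (Rm i)).image fun x => (i, x), inter_subset_left, hCo,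
    hUT, hbal, fun t ht i => ?_, fun t ht => ?_, fun l => (hlU l).trans (by omega), fun l => ?_,
    fun l => ?_, hZc, ?_, fun l hl => ?_⟩
  · obtain ⟨p, -, rfl⟩ := hZ t ht
    rw [tc_pt, pm]
    split_ifs with h
    exacts [htg i, h]
  · obtain ⟨p, hp, rfl⟩ := hZ t ht
    by_cases h : p ∈ T0 Rm
    · have h1 : p ∉ T0 Rm \ U := fun h2 => (mem_sdiff.1 h2).2 (mem_inter.2 ⟨mem_union_left _
        ((mem_union.1 hp).resolve_right fun h3 => hCr' p h3 h), h⟩)
      rw [pt_tri h]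
      simpa [Cor, tri] using h1
    · have h1 : pt Rm tg (tri p) ∈ P := mem_image_of_mem _ (by
        rcases mem_union.1 hp with h2 | h2
        · obtain ⟨j, hj, rfl⟩ := mem_image.1 h2
          exact mem_union_left _ (mem_image_of_mem _ (mem_filter.2 ⟨hj, h⟩))
        · exact mem_union_right _ h2)
      have h2 : ∀ q ∈ Co, q ∉ T0 Rm \ U := fun q hq h3 =>
        (mem_sdiff.1 h3).2 (mem_inter.2 ⟨mem_union_right _ hq, (mem_sdiff.1 h3).1⟩)
      exact ⟨h2 _ (mem_union_left _ (mem_union_left _ (mem_image_of_mem _ h1))),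
        h2 _ (mem_union_left _ (mem_union_right _ (mem_image_of_mem _ h1))),
        h2 _ (mem_union_right _ (mem_image_of_mem _ h1))⟩
  · have h1 := tn_pt_le (tg := tg) hc Bk (fun l => (hB l).le) l
    have h2 := tn_le_card (K.map (pt Rm tg)) l
    have h3 : tn ((U \ Jg.image w).val.map tri) l ≤ cnt U.val l := by
      rw [tn_map]
      simp only [tc_tri]
      exact PlexL.cnt_subset sdiff_subset l
    have h4 := hlU l
    rw [Multiset.card_map] at h2
    simp only [Q, tn_add]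
    omega
  · have h1 := tn_pt_le (tg := tg) hc ((J \ Jg).val.map fun j => tri (w j)) (D := e) (fun l => by
      rw [tn_map]
      simp only [tc_tri]
      exact (card_le_card (filter_subset_filter _ sdiff_subset)).trans (hl l)) l
    have h2 := tn_le_card ((Cr.val.map tri).map (pt Rm tg)) l
    rw [Multiset.card_map, Multiset.card_map, card_val] at h2
    simp only [Z, tn_add]
    omega
  · have h1 := card_lns Z.toFinset
    have h2 := card_lns ((U \ Jg.image w).image tri)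
    have h3 := Multiset.toFinset_card_le Z
    have h4 := card_image_le (s := U \ Jg.image w) (f := tri)
    have h5 := card_biUnion_le_card_mul univ
      (fun i : Fin 3 => (insert (tg i) (Rm i)).image fun x => (i, x)) 3 fun i _ =>
        card_image_le.trans ((card_insert_le _ _).trans (by rw [hc i]))
    refine (card_union_le _ _).trans ((add_le_add (card_union_le _ _) h5).trans ?_)
    simp only [card_univ, Fintype.card_fin]
    omega
  · simp only [mem_union, not_or, mem_biUnion, lns, mem_image, mem_univ, true_and, not_exists,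
      not_and, Multiset.mem_toFinset, mem_insert] at hl
    obtain ⟨⟨h1, h2⟩, h3⟩ := hl
    have h4 : l.2 ∉ Rm l.1 := fun h => h3 l.1 l.2 (Or.inr h) rfl
    have h5 : l.2 ≠ tg l.1 := fun h => h3 l.1 l.2 (Or.inl h) rfl
    have h6 := bal_line hc hbal h4
    have h7 : tn Z l = 0 := tn_eq_zero fun t ht e => h1 t ht l.1 (Prod.ext rfl e)
    have h8 : tn K l = 0 := tn_eq_zero fun t ht e => h4 (e ▸ hK t ht l.1)
    have h9 : tn ((U \ Jg.image w).val.map tri) l = 0 := tn_eq_zero fun t ht e => by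
      obtain ⟨p, hp, rfl⟩ := Multiset.mem_map.1 ht
      exact h2 _ ⟨p, hp, rfl⟩ l.1 (Prod.ext rfl e)
    simp only [Q, tn_add, tn_pt_eq _ h4 h5, hB, h7, h8, h9] at h6
    omega

theorem sh1 (F : G → G → ℤ) : ∑ p : G × G, F p.1 (p.1 + p.2) = ∑ p : G × G, F p.1 p.2 := by
  simp only [Fintype.sum_prod_type]
  exact sum_congr rfl fun x _ => Equiv.sum_comp (Equiv.addLeft x) (F x)

theorem sh2 (F : G → G → ℤ) : ∑ p : G × G, F p.2 (p.1 + p.2) = ∑ p : G × G, F p.1 p.2 := by
  rw [← sh1, ← Equiv.sum_comp (Equiv.prodComm G G)]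
  simp [add_comm]

theorem sum_two (A B : Finset G) (F : G → G → ℤ) :
    ∑ p : G × G, (if p.1 ∈ A ∧ p.2 ∈ B then F p.1 p.2 else 0) = ∑ x ∈ A, ∑ y ∈ B, F x y := by
  simp only [← mem_product, sum_ite_mem, univ_inter, sum_product]

theorem sum_snd (B : Finset G) (F : G → G → ℤ) :
    ∑ p : G × G, (if p.2 ∈ B then F p.1 p.2 else 0) = ∑ x, ∑ y ∈ B, F x y := by
  simpa using sum_two univ B F

/-- inclusion and exclusion over the removed lines -/
theorem base_gen (h3 : ∀ x ∈ Rm 0, ∀ y ∈ Rm 1, x + y ∉ Rm 2) (a b c : G → G → ℤ) :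
    ∑ p ∈ T0 Rm, evt a b c p + (∑ x, ∑ s ∈ Rm 2, a x (s - x) + ∑ x, ∑ y ∈ Rm 1, b x (x + y)
      + ∑ x, ∑ y ∈ Rm 0, c x (x + y)) + (∑ x ∈ Rm 0, ∑ y ∈ Rm 1, a x y
      + ∑ x ∈ Rm 0, ∑ y ∈ Rm 2, b x y + ∑ x ∈ Rm 1, ∑ y ∈ Rm 2, c x y)
    = Tg Rm a b c + ∑ p ∈ univ.filter (fun p : G × G => (p.1 ∈ Rm 0 ∧ p.2 ∈ Rm 1) ∨
        (p.1 ∈ Rm 0 ∧ p.1 + p.2 ∈ Rm 2) ∨ (p.2 ∈ Rm 1 ∧ p.1 + p.2 ∈ Rm 2)), evt a b c p := by
  have e0 : ∑ x, ∑ y ∈ Rm 0, c x (x + y)
      = ∑ p : G × G, if p.1 ∈ Rm 0 then c p.2 (p.1 + p.2) else 0 := by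
    rw [← sum_snd (Rm 0) fun x y => c x (x + y), ← Equiv.sum_comp (Equiv.prodComm G G)]
    simp [add_comm]
  rw [e0, ← sum_snd (Rm 1) fun x y => b x (x + y), ← sum_snd (Rm 2) fun x s => a x (s - x),
    ← sh1 fun x s => if s ∈ Rm 2 then a x (s - x) else 0, ← sum_two _ _ a, ← sum_two _ _ b,
    ← sum_two _ _ c, ← sh1 fun x s => if x ∈ Rm 0 ∧ s ∈ Rm 2 then b x s else 0,
    ← sh2 fun x s => if x ∈ Rm 1 ∧ s ∈ Rm 2 then c x s else 0]
  simp only [Tg, T0, sum_filter]
  rw [← sh1 fun x s => if x ∉ Rm 0 ∧ s ∉ Rm 2 then b x s else 0,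
    ← sh2 fun x s => if x ∉ Rm 1 ∧ s ∉ Rm 2 then c x s else 0]
  simp only [← sum_add_distrib]
  refine sum_congr rfl fun p _ => ?_
  have := h3 p.1
  by_cases h0 : p.1 ∈ Rm 0 <;> by_cases h1 : p.2 ∈ Rm 1 <;> by_cases h2 : p.1 + p.2 ∈ Rm 2 <;>
    simp_all [evt, Fin.forall_fin_succ] <;> ring

theorem card_two (hc : ∀ i, (Rm i).card = 2) :
    (univ.filter fun p : G × G => (p.1 ∈ Rm 0 ∧ p.2 ∈ Rm 1) ∨
      (p.1 ∈ Rm 0 ∧ p.1 + p.2 ∈ Rm 2) ∨ (p.2 ∈ Rm 1 ∧ p.1 + p.2 ∈ Rm 2)).card ≤ 12 := by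
  have h : (univ.filter fun p : G × G => (p.1 ∈ Rm 0 ∧ p.2 ∈ Rm 1) ∨
      (p.1 ∈ Rm 0 ∧ p.1 + p.2 ∈ Rm 2) ∨ (p.2 ∈ Rm 1 ∧ p.1 + p.2 ∈ Rm 2)) ⊆ Rm 0 ×ˢ Rm 1 ∪
      (Rm 0 ×ˢ Rm 2).image (fun q => (q.1, q.2 - q.1)) ∪
      (Rm 1 ×ˢ Rm 2).image fun q => (q.2 - q.1, q.1) := fun p hp => by
    rcases (mem_filter.1 hp).2 with h | h | h
    · exact mem_union_left _ (mem_union_left _ (mem_product.2 h))
    · exact mem_union_left _ (mem_union_right _
        (mem_image.2 ⟨(p.1, p.1 + p.2), mem_product.2 h, by simp⟩))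
    · exact mem_union_right _ (mem_image.2 ⟨(p.2, p.1 + p.2), mem_product.2 h, by simp⟩)
  refine (card_le_card h).trans ((card_union_le _ _).trans ((add_le_add ((card_union_le _ _).trans
    (add_le_add le_rfl card_image_le)) card_image_le).trans ?_))
  simp [hc]

end

variable {m : ℕ} [NeZero m]

theorem coset_le (u c : ZMod m) : #{x : ZMod m | u * x = c} ≤ ker u := by
  rcases ({x : ZMod m | u * x = c} : Finset _).eq_empty_or_nonempty with h | ⟨y, hy⟩
  · simp [h]
  · refine card_le_card_of_injOn (· - y) (fun x hx => ?_) (sub_left_injective.injOn)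
    simp only [coe_filter, mem_univ, true_and, Set.mem_ofPred_eq, mem_filter] at hx hy ⊢
    rw [mul_sub, hx, hy, sub_self]

theorem unit_le {u : ZMod m} (hu : IsUnit u) (c : ZMod m) : #{x : ZMod m | u * x = c} ≤ 1 :=
  card_le_one.2 fun _ hx _ hy => hu.mul_left_cancel ((mem_filter.1 hx).2.trans
    (mem_filter.1 hy).2.symm)

theorem card_prod_le {e D : ℕ} (q : ℕ × ZMod m → Prop) [DecidablePred q]
    (h : ∀ i < e, #{x | q (i, x)} ≤ D) : #{j ∈ range e ×ˢ univ | q j} ≤ e * D := by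
  rw [card_filter, sum_product]
  refine (sum_le_card_nsmul _ _ D fun i hi => ?_).trans (by simp)
  rw [← card_filter]
  exact h i (mem_range.1 hi)

theorem nz (hm : 100 ≤ m) (z : ℤ) (h : z ≠ 0) (h' : |z| < 100) : (z : ZMod m) ≠ 0 := fun e =>
  h (Int.eq_zero_of_abs_lt_dvd ((ZMod.intCast_zmod_eq_zero_iff_dvd z m).1 e) (by omega))

end PatchAux

open PatchAux

theorem stPatch (h : StFam) : StPatch := by
  intro m k g L _ t _ hm hL hLg hC hF
  obtain ⟨Bk, hB, hBk⟩ := h m k t hC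
  have n : ∀ x y : ℤ, x ≠ y → |x - y| < 100 → (x : ZMod m) ≠ y := fun x y h1 h2 e =>
    nz hm (x - y) (by omega) h2 (by push_cast; rw [e, sub_self])
  have n0 : (-2 : ZMod m) ≠ 2 := by simpa using n (-2) 2 (by simp) (by simp)
  have n1 : (0 : ZMod m) ≠ 3 := by simpa using n 0 3 (by simp) (by simp)
  have n2 : (-3 : ZMod m) ≠ 4 := by simpa using n (-3) 4 (by simp) (by simp)
  let Rm : Fin 3 → Finset (ZMod m) := ![{-2, 2}, {0, 3}, {-3, 4}]
  have r0 : Rm 0 = {-2, 2} := rfl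
  have r1 : Rm 1 = {0, 3} := rfl
  have r2 : Rm 2 = {-3, 4} := rfl
  have hc : ∀ i, (Rm i).card = 2 := fun i => by
    fin_cases i
    exacts [card_pair n0, card_pair n1, card_pair n2]
  have hint : ∀ (z x y : ℤ), z ≠ x → z ≠ y → |z - x| < 100 → |z - y| < 100 →
      (z : ZMod m) ∉ ({(x : ZMod m), (y : ZMod m)} : Finset (ZMod m)) := fun z x y a b c d => by
    simp [n z x a c, n z y b d]
  have htg : ∀ i, (![0, 1, 0] : Fin 3 → ZMod m) i ∉ Rm i := fun i => by
    fin_cases i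
    · simpa [r0] using hint 0 (-2) 2 (by simp) (by simp) (by simp) (by simp)
    · simpa [r1] using hint 1 0 3 (by simp) (by simp) (by simp) (by simp)
    · simpa [r2] using hint 0 (-3) 4 (by simp) (by simp) (by simp) (by simp)
  have h3 : ∀ x ∈ Rm 0, ∀ y ∈ Rm 1, x + y ∉ Rm 2 := fun x hx y hy => by
    rw [r0, mem_insert, mem_singleton] at hx
    rw [r1, mem_insert, mem_singleton] at hy
    rw [r2]
    rcases hx with rfl | rfl <;> rcases hy with rfl | rfl
    · convert hint (-2) (-3) 4 (by simp) (by simp) (by simp) (by simp) <;> simp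
    · convert hint 1 (-3) 4 (by simp) (by simp) (by simp) (by simp) <;> norm_num
    · convert hint 2 (-3) 4 (by simp) (by simp) (by simp) (by simp) <;> simp
    · convert hint 5 (-3) 4 (by simp) (by simp) (by simp) (by simp) <;> norm_num
  let w : ℕ × ZMod m → ZMod m × ZMod m := fun j => wl t j.1 j.2
  let J : Finset (ℕ × ZMod m) := range (3 * k + 4) ×ˢ univ
  let Jg := {j ∈ J | w j ∈ T0 Rm ∧ ∀ i < 3 * k + 4, i ≠ j.1 → wl t i j.2 ≠ w j}
  have hl : ∀ l : Fin 3 × ZMod m, #{j ∈ J | co l.1 (w j) = l.2} ≤ 3 * k + 4 := fun l => by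
    refine (card_prod_le (D := 1) _ fun i hi => ?_).trans (by omega)
    obtain ⟨u1, u2⟩ := hC.unit i (by omega)
    obtain ⟨s, x⟩ := l
    fin_cases s
    · simpa [w, wl] using unit_le isUnit_one x
    · refine le_trans (le_of_eq ?_) (unit_le u1 (-x - if i = 1 then 2 else 0))
      congr 1; ext y
      simp only [w, wl, mem_filter, mem_univ, true_and]
      exact ⟨fun h => by rw [← h]; simp, fun h => by simp [h]⟩
    · refine le_trans (le_of_eq ?_) (unit_le u2 (-x - if i = 1 then 2 else 0))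
      congr 1; ext y
      simp only [w, wl, mem_filter, mem_univ, true_and]
      change y + (_ - _) = x ↔ _
      exact ⟨fun h => by linear_combination -h, fun h => by linear_combination -h⟩
  have hX : #(J \ Jg) ≤ 6 * (3 * k + 4) + (3 * k + 4) * ((3 * k + 4) * g) := by
    have h1 : J \ Jg ⊆ {j ∈ J | w j ∉ T0 Rm} ∪
        {j ∈ J | ∃ i < 3 * k + 4, i ≠ j.1 ∧ wl t i j.2 = w j} := fun j hj => by
      obtain ⟨h2, h4⟩ := mem_sdiff.1 hj
      by_contra h5
      simp only [mem_union, mem_filter, h2, true_and, not_or, not_not, not_exists, not_and] at h5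
      exact h4 (mem_filter.2 ⟨h2, h5⟩)
    refine (card_le_card h1).trans ((card_union_le _ _).trans (add_le_add
      (card_le_lines hc J w hl) (card_prod_le _ fun i hi => ?_)))
    have h2 : ({x | ∃ i' < 3 * k + 4, i' ≠ i ∧ wl t i' x = w (i, x)} : Finset _) ⊆
        ((range (3 * k + 4)).erase i).biUnion fun i' => {x | (t i' - t i) * x
          = (if i = 1 then 2 else 0) - if i' = 1 then 2 else 0} := fun x hx => by
      obtain ⟨i', a, b, c⟩ := (mem_filter.1 hx).2
      refine mem_biUnion.2 ⟨i', mem_erase.2 ⟨b, mem_range.2 a⟩, mem_filter.2 ⟨mem_univ _, ?_⟩⟩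
      have := congrArg Prod.snd c
      simp only [w, wl] at this
      linear_combination -this
    refine (card_le_card h2).trans ((card_biUnion_le_card_mul _ _ g fun i' hi' => ?_).trans
      (Nat.mul_le_mul_right _ (card_erase_le.trans (by simp))))
    obtain ⟨a, b⟩ := mem_erase.1 hi'
    exact (coset_le _ _).trans (hF.pair i' (by have := mem_range.1 b; omega) i (by omega) a)
  obtain ⟨Co, U, Q, Z, Λ, p1, p2, p3, p4, p5, p6, p7, p8, p9, p10, p11, p12⟩ :=
    patch_abs hc htg (J := J) (Jg := Jg) w (Bk := Bk) (e := 3 * k + 4)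
      (K := {(-2, 0, -3), (-2, 3, 4), (2, 0, 4), (2, 3, -3)}) (fun a b c => by
        have h1 := base_gen h3 a b c
        simp only [r0, r1, r2, sum_pair n0, sum_pair n1, sum_pair n2, add_zero,
          ← sub_eq_add_neg, sum_add_distrib] at h1
        rw [hBk, sum_product]
        simp only [r0, r1, r2, w, sum_add_distrib, Multiset.insert_eq_cons, Multiset.map_cons,
          Multiset.sum_cons, Multiset.map_singleton, Multiset.sum_singleton, ev]
        linarith)
      (fun t ht i => by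
        simp only [Multiset.insert_eq_cons, Multiset.mem_cons, Multiset.mem_singleton] at ht
        rcases ht with rfl | rfl | rfl | rfl <;> fin_cases i <;> simp [r0, r1, r2])
      (by simp) (card_two hc)
      (fun p hp hT => by
        have := mem_T0.1 hT
        rcases (mem_filter.1 hp).2 with h | h | h
        exacts [this 0 h.1, this 0 h.1, this 1 h.1])
      (filter_subset _ _)
      (fun j hj j' hj' e => by
        have h1 : j.2 = j'.2 := congrArg Prod.fst e
        refine Prod.ext (by_contra fun hne => ?_) h1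
        have h2 := mem_range.1 (mem_product.1 (mem_filter.1 hj).1).1
        exact (mem_filter.1 hj').2.2 j.1 h2 hne (h1 ▸ e))
      (fun j hj => (mem_filter.1 hj).2.1) hl hB
  have hg : 1 ≤ g := hL.trans hLg
  refine ⟨Rm, U, Q, Z, Λ, hc, ?_, p3, p4, p5, p6, p7, p8, p9, by nlinarith, by nlinarith,
    fun l hl => (p12 l hl).trans (ZMod.card m), fun p a b a1 a2 b1 b2 => ?_⟩
  · simp only [r0, r1, r2, sum_pair n0, sum_pair n1, sum_pair n2]; ring
  have h1 : ({τ : ZMod m | (p.1 + a * τ, p.2 + b * τ) ∈ U} : Finset _) ⊆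
      (range (3 * k + 4)).biUnion (fun i => {τ | ((a : ZMod m) * t i + b) * τ
        = -(t i * p.1) - p.2 - if i = 1 then 2 else 0}) ∪
      univ.filter fun τ => p.1 + (a : ℤ) • τ ∈ Co.image Prod.fst := fun τ hτ => by
    rcases mem_union.1 (p1 (mem_filter.1 hτ).2) with h2 | h2
    · obtain ⟨j, hj, e⟩ := mem_image.1 h2
      refine mem_union_left _ (mem_biUnion.2 ⟨j.1, (mem_product.1 hj).1,
        mem_filter.2 ⟨mem_univ _, ?_⟩⟩)
      simp only [w, wl, Prod.mk.injEq] at e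
      linear_combination -e.2 - t j.1 * e.1
    · exact mem_union_right _ (mem_filter.2 ⟨mem_univ _, mem_image.2 ⟨_, h2, by simp⟩⟩)
  have h2 := fiber_le (a : ℤ) (by omega) p.1 (Co.image Prod.fst)
  have h4 := card_biUnion_le_card_mul (range (3 * k + 4)) (fun i => ({τ | ((a : ZMod m) * t i + b)
    * τ = -(t i * p.1) - p.2 - if i = 1 then 2 else 0} : Finset _)) g fun i hi =>
      (coset_le _ _).trans (hF.dir i (by have := mem_range.1 hi; omega) a b a1 a2 b1 b2)
  have h5 := Nat.mul_le_mul (a2.trans hLg) (card_image_le.trans p2 : #(Co.image Prod.fst) ≤ _)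
  rw [Int.natAbs_natCast] at h2
  rw [card_range] at h4
  refine (card_le_card h1).trans ((card_union_le _ _).trans ((add_le_add h4 (h2.trans h5)).trans ?_))
  nlinarith [Nat.zero_le (k * g), Nat.zero_le (k * k * g)]

end PlexLL
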