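import Pool.Agent.Lib.MP_3d3eb4_co.LL.Defs

namespace PlexLL

open Finset Pool.Agent.Lib.MP_3d3eb4_co
open PlexL (co cnt)

namespace RepAux

set_option linter.unusedSectionVars false

section

variable {G : Type} [AddCommGroup G] [Fintype G] [DecidableEq G]

/-- the labels of a family of triples in a given place -/
def Lab (Z : Multiset (G × G × G)) (j : Fin 3) : Finset G := (Z.map (tc j)).toFinset

/-- triples on a line whose other two labels are labels of `Z` -/
def ex (Z Q : Multiset (G × G × G)) (l : Fin 3 × G) : ℕ :=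
  (Q.filter fun t => tc l.1 t = l.2 ∧ ∀ j, j ≠ l.1 → tc j t ∈ Lab Z j).card

theorem mem_Lab {Z : Multiset (G × G × G)} {t : G × G × G} (h : t ∈ Z) (j : Fin 3) :
    tc j t ∈ Lab Z j := Multiset.mem_toFinset.2 (Multiset.mem_map_of_mem _ h)

theorem card_Lab (Z : Multiset (G × G × G)) (j : Fin 3) : (Lab Z j).card ≤ Z.card :=
  (Multiset.toFinset_card_le _).trans (Multiset.card_map _ _).le

theorem ex_add (Z Q Q' : Multiset (G × G × G)) (l : Fin 3 × G) :
    ex Z (Q + Q') l = ex Z Q l + ex Z Q' l := by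
  simp [ex]

theorem ex_mono (Z : Multiset (G × G × G)) {Q Q' : Multiset (G × G × G)} (h : Q ≤ Q')
    (l : Fin 3 × G) : ex Z Q l ≤ ex Z Q' l :=
  Multiset.card_le_card (Multiset.filter_le_filter _ h)

theorem ex_le_tn (Z Q : Multiset (G × G × G)) (l : Fin 3 × G) : ex Z Q l ≤ tn Q l :=
  Multiset.card_le_card (Multiset.monotone_filter_right _ fun _ h => h.1)

theorem ex_cons {Z Q : Multiset (G × G × G)} {t : G × G × G} {l : Fin 3 × G}
    (h : tc l.1 t = l.2) (h' : ∀ j, j ≠ l.1 → tc j t ∈ Lab Z j) :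
    ex Z (t ::ₘ Q) l = ex Z Q l + 1 := by
  rw [ex, Multiset.filter_cons_of_pos _ ⟨h, h'⟩, Multiset.card_cons, ex]

theorem tn_mono {Q Q' : Multiset (G × G × G)} (h : Q ≤ Q') (l : Fin 3 × G) : tn Q l ≤ tn Q' l :=
  Multiset.card_le_card (Multiset.filter_le_filter _ h)

theorem tn_cons {Q : Multiset (G × G × G)} {t : G × G × G} {l : Fin 3 × G}
    (h : tc l.1 t = l.2) : tn (t ::ₘ Q) l = tn Q l + 1 := by
  rw [tn, Multiset.filter_cons_of_pos (p := fun t => tc l.1 t = l.2) _ h, Multiset.card_cons, tn]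

theorem ev_nonneg {a b c : G → G → ℤ} (ha : ∀ u v, 0 ≤ a u v) (hb : ∀ u v, 0 ≤ b u v)
    (hc : ∀ u v, 0 ≤ c u v) (Q : Multiset (G × G × G)) : 0 ≤ (Q.map (ev a b c)).sum :=
  Multiset.sum_nonneg fun x hx => by
    obtain ⟨t, -, rfl⟩ := Multiset.mem_map.1 hx
    exact add_nonneg (add_nonneg (ha _ _) (hb _ _)) (hc _ _)

theorem ev_le {a b c : G → G → ℤ} (ha : ∀ u v, 0 ≤ a u v) (hb : ∀ u v, 0 ≤ b u v)
    (hc : ∀ u v, 0 ≤ c u v) {Q : Multiset (G × G × G)} {t : G × G × G} (h : t ∈ Q) :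
    ev a b c t ≤ (Q.map (ev a b c)).sum := by
  obtain ⟨Q', rfl⟩ := Multiset.exists_cons_of_mem h
  rw [Multiset.map_cons, Multiset.sum_cons]
  exact le_add_of_nonneg_right (ev_nonneg ha hb hc Q')

theorem ev_zero {a b c : G → G → ℤ} {Q : Multiset (G × G × G)} (h : ∀ t ∈ Q, ev a b c t = 0) :
    (Q.map (ev a b c)).sum = 0 :=
  Multiset.sum_eq_zero fun x hx => by
    obtain ⟨t, ht, rfl⟩ := Multiset.mem_map.1 hx
    exact h t ht

theorem ind_nonneg (p : Prop) [Decidable p] : (0 : ℤ) ≤ if p then 1 else 0 := by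
  split_ifs <;> norm_num

variable {Rm : Fin 3 → Finset G} {U : Finset (G × G)} {Q Z : Multiset (G × G × G)}

theorem cover (h : Bal Rm U Q Z) {a b c : G → G → ℤ} (ha : ∀ u v, 0 ≤ a u v)
    (hb : ∀ u v, 0 ≤ b u v) (hc : ∀ u v, 0 ≤ c u v) {ρ : G × G × G} (hρ : ρ ∈ Z)
    (h1 : ev a b c ρ = 1) (h0 : ∀ p ∈ T0 Rm \ U, evt a b c p = 0) :
    ∃ t ∈ Q, ev a b c t ≠ 0 := by
  by_contra hn
  push Not at hn
  have e := h a b c
  rw [sum_eq_zero h0, ev_zero hn] at e
  have h2 := ev_le ha hb hc hρ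
  have h3 : 0 ≤ Tg Rm a b c := add_nonneg (add_nonneg (sum_nonneg fun _ _ => ha _ _)
    (sum_nonneg fun _ _ => hb _ _)) (sum_nonneg fun _ _ => hc _ _)
  omega

theorem cover3 (h : Bal Rm U Q Z) {x y z : G} (hρ : (x, y, z) ∈ Z) (hc : Cor Rm U (x, y, z)) :
    (∃ z1, (x, y, z1) ∈ Q) ∧ (∃ x1, (x1, y, z) ∈ Q) ∧ ∃ y1, (x, y1, z) ∈ Q := by
  obtain ⟨c1, c2, c3⟩ := hc
  refine ⟨?_, ?_, ?_⟩
  · obtain ⟨⟨u, v, w⟩, ht, h1⟩ := cover h (a := fun u v => if u = x ∧ v = y then 1 else 0)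
      (b := fun _ _ => 0) (c := fun _ _ => 0) (fun _ _ => ind_nonneg _) (fun _ _ => le_rfl)
      (fun _ _ => le_rfl) hρ (by simp [ev]) fun p hp => by
        simp only [evt, add_zero, ite_eq_right_iff, one_ne_zero, imp_false]
        rintro ⟨rfl, rfl⟩
        exact c1 hp
    obtain ⟨rfl, rfl⟩ : u = x ∧ v = y := by simpa [ev] using h1
    exact ⟨w, ht⟩
  · obtain ⟨⟨u, v, w⟩, ht, h1⟩ := cover h (c := fun u v => if u = y ∧ v = z then 1 else 0)
      (b := fun _ _ => 0) (a := fun _ _ => 0) (fun _ _ => le_rfl) (fun _ _ => le_rfl)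
      (fun _ _ => ind_nonneg _) hρ (by simp [ev]) fun p hp => by
        simp only [evt, zero_add, ite_eq_right_iff, one_ne_zero, imp_false]
        rintro ⟨rfl, rfl⟩
        exact c3 (by simpa using hp)
    obtain ⟨rfl, rfl⟩ : v = y ∧ w = z := by simpa [ev] using h1
    exact ⟨u, ht⟩
  · obtain ⟨⟨u, v, w⟩, ht, h1⟩ := cover h (b := fun u v => if u = x ∧ v = z then 1 else 0)
      (a := fun _ _ => 0) (c := fun _ _ => 0) (fun _ _ => le_rfl) (fun _ _ => ind_nonneg _)
      (fun _ _ => le_rfl) hρ (by simp [ev]) fun p hp => by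
        simp only [evt, zero_add, add_zero, ite_eq_right_iff, one_ne_zero, imp_false]
        rintro ⟨rfl, rfl⟩
        exact c2 (by simpa using hp)
    obtain ⟨rfl, rfl⟩ : u = x ∧ w = z := by simpa [ev] using h1
    exact ⟨v, ht⟩

theorem avoid0 (h : Bal Rm U Q Z) {a b c : G → G → ℤ} (ha : ∀ u v, 0 ≤ a u v)
    (hb : ∀ u v, 0 ≤ b u v) (hc : ∀ u v, 0 ≤ c u v) (h0 : Tg Rm a b c = 0)
    (hZ : ∀ t ∈ Z, ev a b c t = 0) {t : G × G × G} (ht : t ∈ Q) : ev a b c t ≤ 0 := by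
  have e := h a b c
  rw [h0, ev_zero hZ] at e
  have h2 := ev_le ha hb hc ht
  have h3 : 0 ≤ ∑ p ∈ T0 Rm \ U, evt a b c p :=
    sum_nonneg fun _ _ => add_nonneg (add_nonneg (ha _ _) (hb _ _)) (hc _ _)
  omega

theorem avoid (h : Bal Rm U Q Z) (hZ : ∀ t ∈ Z, ∀ i, tc i t ∉ Rm i) {t : G × G × G}
    (ht : t ∈ Q) : t.1 ∉ Rm 0 ∧ t.2.1 ∉ Rm 1 ∧ t.2.2 ∉ Rm 2 := by
  refine ⟨fun h1 => ?_, fun h1 => ?_, fun h1 => ?_⟩
  · have := avoid0 h (a := fun u _ => if u ∈ Rm 0 then 1 else 0) (b := fun _ _ => 0)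
      (c := fun _ _ => 0) (fun _ _ => ind_nonneg _) (fun _ _ => le_rfl) (fun _ _ => le_rfl)
      (by
        simp only [Tg, sum_const_zero, add_zero]
        exact sum_eq_zero fun p hp => if_neg (mem_filter.1 hp).2.1)
      (fun t ht => by simpa [ev] using hZ t ht 0) ht
    simp [ev, h1] at this
  · have := avoid0 h (a := fun _ v => if v ∈ Rm 1 then 1 else 0) (b := fun _ _ => 0)
      (c := fun _ _ => 0) (fun _ _ => ind_nonneg _) (fun _ _ => le_rfl) (fun _ _ => le_rfl)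
      (by
        simp only [Tg, sum_const_zero, add_zero]
        exact sum_eq_zero fun p hp => if_neg (mem_filter.1 hp).2.2)
      (fun t ht => by simpa [ev] using hZ t ht 1) ht
    simp [ev, h1] at this
  · have := avoid0 h (b := fun _ v => if v ∈ Rm 2 then 1 else 0) (a := fun _ _ => 0)
      (c := fun _ _ => 0) (fun _ _ => le_rfl) (fun _ _ => ind_nonneg _) (fun _ _ => le_rfl)
      (by
        simp only [Tg, sum_const_zero, add_zero, zero_add]
        exact sum_eq_zero fun p hp => if_neg (mem_filter.1 hp).2.2)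
      (fun t ht => by simpa [ev] using hZ t ht 2) ht
    simp [ev, h1] at this

theorem sum_step {W : Finset (G × G)} (h1 : W ⊆ T0 Rm) (h2 : Disjoint W U) (f : G × G → ℤ) :
    ∑ p ∈ T0 Rm \ (U ∪ W), f p + ∑ p ∈ W, f p = ∑ p ∈ T0 Rm \ U, f p := by
  rw [← sum_sdiff (s₁ := W) (s₂ := T0 Rm \ U) (subset_sdiff.2 ⟨h1, h2⟩), sdiff_sdiff_left, sup_eq_union]

theorem cnt_zero_of {W : Finset (G × G)} {l : Fin 3 × G} (h : ∀ p ∈ W, co l.1 p ≠ l.2) :
    cnt W.val l = 0 := by
  rw [PlexL.cnt_val, card_eq_zero, filter_eq_empty_iff]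
  exact h

theorem cor_mono {U' : Finset (G × G)} (hU : U ⊆ U') {t : G × G × G} (h : Cor Rm U t) :
    Cor Rm U' t :=
  have k : T0 Rm \ U' ⊆ T0 Rm \ U := sdiff_subset_sdiff Subset.rfl hU
  ⟨fun h1 => h.1 (k h1), fun h1 => h.2.1 (k h1), fun h1 => h.2.2 (k h1)⟩

theorem co_add (i : Fin 3) (q p : G × G) : co i (q + p) = co i q + co i p := by
  fin_cases i
  · rfl
  · rfl
  · exact add_add_add_comm _ _ _ _

/-- the state of the repair -/
structure St (s D : ℕ) (Rm : Fin 3 → Finset G) (U₀ : Finset (G × G)) (Z : Multiset (G × G × G))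
    (U : Finset (G × G)) (Q Z' : Multiset (G × G × G)) : Prop where
  sub0 : U₀ ⊆ U
  sub : U ⊆ T0 Rm
  bal : Bal Rm U Q Z'
  size : (U \ U₀).card + 37 * s * Z'.card ≤ 37 * s * Z.card
  i1 : ∀ l, cnt U.val l + 4 * (tn Z' l + ex Z Q l) ≤ 9 * D + 14824
  i2 : ∀ l : Fin 3 × G, (∀ p ∈ U \ U₀, co l.1 p ≠ l.2) → ex Z Q l ≤ D

theorem St.erase {s D : ℕ} {U₀ : Finset (G × G)} {Z' : Multiset (G × G × G)} {ρ : G × G × G}
    (h : St s D Rm U₀ Z U (ρ ::ₘ Q) (ρ ::ₘ Z')) : St s D Rm U₀ Z U Q Z' := by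
  refine ⟨h.sub0, h.sub, fun a b c => ?_, ?_, fun l => ?_,
    fun l hl => (ex_mono Z (Multiset.le_cons_self _ _) l).trans (h.i2 l hl)⟩
  · have := h.bal a b c
    simp only [Multiset.map_cons, Multiset.sum_cons] at this
    linarith
  · have := h.size
    rw [Multiset.card_cons, mul_add] at this
    omega
  · have h1 := h.i1 l
    have h2 := ex_mono Z (Multiset.le_cons_self Q ρ) l
    have h3 := tn_mono (Multiset.le_cons_self Z' ρ) l
    omega

end

theorem step (hx : StHex) {m s D N : ℕ} [NeZero m] {off : ZMod m → Finset (ZMod m × ZMod m)}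
    {Rm : Fin 3 → Finset (ZMod m)} {U₀ U : Finset (ZMod m × ZMod m)}
    {Z Q Z' : Multiset (ZMod m × ZMod m × ZMod m)} (ho : IsOff off s) (hs : 1 ≤ s)
    (hR : ∀ i, (Rm i).card ≤ 2) (hZ : ∀ t ∈ Z, ∀ i, tc i t ∉ Rm i) (hC : ∀ t ∈ Z, Cor Rm U₀ t)
    (hU : ∀ l, cnt U₀.val l ≤ D) (hN : Z.card ≤ N)
    (hm : 1000 * s * D + 10000000 * s * s * (N + 1) < m) {ρ : ZMod m × ZMod m × ZMod m}
    (hle : ρ ::ₘ Z' ≤ Z) (h : St s D Rm U₀ Z U Q (ρ ::ₘ Z')) :
    ∃ U' Q', St s D Rm U₀ Z U' Q' Z' := by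
  by_cases hρ : ρ ∈ Q
  · obtain ⟨Q', rfl⟩ := Multiset.exists_cons_of_mem hρ
    exact ⟨U, Q', h.erase⟩
  obtain ⟨x, y, z⟩ := ρ
  have hρZ : (x, y, z) ∈ Z := Multiset.mem_of_le hle (Multiset.mem_cons_self _ _)
  have hZ' : ∀ t ∈ (x, y, z) ::ₘ Z', ∀ i, tc i t ∉ Rm i := fun t ht =>
    hZ t (Multiset.mem_of_le hle ht)
  obtain ⟨⟨z1, q1⟩, ⟨x1, q2⟩, y1, q3⟩ :=
    cover3 h.bal (Multiset.mem_cons_self _ _) (cor_mono h.sub0 (hC _ hρZ))
  have n1 : z1 ≠ z := fun e => hρ (e ▸ q1)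
  have n2 : x1 ≠ x := fun e => hρ (e ▸ q2)
  have a1 := (avoid h.bal hZ' q1).2.2
  have a2 := (avoid h.bal hZ' q2).1
  have a3 := (avoid h.bal hZ' q3).2.1
  obtain ⟨Q1, rfl⟩ := Multiset.exists_cons_of_mem q1
  have q2' : (x1, y, z) ∈ Q1 :=
    (Multiset.mem_cons.1 q2).resolve_left fun e => n2 (congrArg Prod.fst e)
  obtain ⟨Q2, rfl⟩ := Multiset.exists_cons_of_mem q2'
  have q3' : (x, y1, z) ∈ Q2 :=
    (Multiset.mem_cons.1 ((Multiset.mem_cons.1 q3).resolve_left
      fun e => n1 (congrArg (fun t => t.2.2) e).symm)).resolve_left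
      fun e => n2 (congrArg Prod.fst e).symm
  obtain ⟨Q3, rfl⟩ := Multiset.exists_cons_of_mem q3'
  let X : Fin 3 → ZMod m := ![x, y1, z]
  let Y : Fin 3 → ZMod m := ![x1, y, z1]
  let H : Fin 3 → Finset (ZMod m) := fun i =>
    Lab Z i ∪ Rm i ∪ (U \ U₀).image (co i) ∪ {X i, Y i}
  have hL : ∀ i, Lab Z i ⊆ H i := fun i a ha =>
    mem_union_left _ (mem_union_left _ (mem_union_left _ ha))
  have hsz : (U \ U₀).card ≤ 37 * s * N :=
    ((Nat.le_add_right _ _).trans h.size).trans (Nat.mul_le_mul_left _ hN)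
  have hH : ∀ i, (H i).card ≤ N + 4 + 37 * s * N := fun i => by
    have e1 := card_union_le (Lab Z i ∪ Rm i ∪ (U \ U₀).image (co i)) {X i, Y i}
    have e2 := card_union_le (Lab Z i ∪ Rm i) ((U \ U₀).image (co i))
    have e3 := card_union_le (Lab Z i) (Rm i)
    have e4 := card_Lab Z i
    have e5 := hR i
    have e6 : ((U \ U₀).image (co i)).card ≤ (U \ U₀).card := card_image_le
    have e7 : ({X i, Y i} : Finset (ZMod m)).card ≤ 2 := card_le_two
    simp only [H]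
    omega
  obtain ⟨W, B, w1, w2, w3, w4, w5, w6, w7, w8⟩ := hx m s (9 * D + 14824) (N + 4 + 37 * s * N)
    off U H X Y ho (fun l => (Nat.le_add_right _ _).trans (h.i1 l)) hH
    (fun i => ⟨mem_union_right _ (by simp), mem_union_right _ (by simp)⟩) (by
      have e1 : s ≤ s * s := Nat.le_mul_self s
      have e2 : s * N ≤ s * s * N := Nat.mul_le_mul_right N e1
      nlinarith)
  have hXY : ∀ i, X i ∉ Rm i ∧ Y i ∉ Rm i := fun i => by
    fin_cases i
    exacts [⟨hZ _ hρZ 0, a2⟩, ⟨a3, hZ _ hρZ 1⟩, ⟨hZ _ hρZ 2, a1⟩]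
  have hW : W ⊆ T0 Rm := fun p hp => mem_filter.2 ⟨mem_univ _, fun i hi => by
    rcases w5 p hp i (mem_union_left _ (mem_union_left _ (mem_union_right _ hi))) with e | e
    · exact (hXY i).1 (e ▸ hi)
    · exact (hXY i).2 (e ▸ hi)⟩
  have hQ : Q3 ≤ (x, y, z1) ::ₘ (x1, y, z) ::ₘ (x, y1, z) ::ₘ Q3 :=
    ((Multiset.le_cons_self _ _).trans (Multiset.le_cons_self _ _)).trans
      (Multiset.le_cons_self _ _)
  have hB : ∀ l : Fin 3 × ZMod m, ex Z B l ≠ 0 → l.2 ∉ H l.1 ∧ ∃ p ∈ W, co l.1 p = l.2 := by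
    intro l hl
    obtain ⟨t, ht⟩ := Multiset.card_pos_iff_exists_mem.1 (Nat.pos_of_ne_zero hl)
    obtain ⟨t1, t2, t3⟩ := Multiset.mem_filter.1 ht
    rw [← t2]
    exact w6 t t1 l.1 fun j hj => hL j (t3 j hj)
  have hB6 : ∀ l : Fin 3 × ZMod m, ex Z B l ≤ 6 := fun l =>
    (Multiset.card_le_card (Multiset.monotone_filter_right _
      fun t ht j hj => hL j (ht.2 j hj))).trans (w7 l.1)
  have m0 : x ∈ Lab Z 0 := mem_Lab hρZ 0
  have m1 : y ∈ Lab Z 1 := mem_Lab hρZ 1
  have m2 : z ∈ Lab Z 2 := mem_Lab hρZ 2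
  have drop : ∀ l : Fin 3 × ZMod m, l.2 = X l.1 ∨ l.2 = Y l.1 → tn Z' l + ex Z Q3 l + 1 ≤
      tn ((x, y, z) ::ₘ Z') l + ex Z ((x, y, z1) ::ₘ (x1, y, z) ::ₘ (x, y1, z) ::ₘ Q3) l := by
    rintro ⟨i, a⟩ hl
    have k1 := ex_mono Z hQ (i, a)
    have k2 := tn_mono (Multiset.le_cons_self Z' (x, y, z)) (i, a)
    have kρ : tc i (x, y, z) = a → tn Z' (i, a) + ex Z Q3 (i, a) + 1 ≤ tn ((x, y, z) ::ₘ Z') (i, a)
        + ex Z ((x, y, z1) ::ₘ (x1, y, z) ::ₘ (x, y1, z) ::ₘ Q3) (i, a) := fun e => by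
      have := tn_cons (Q := Z') (l := (i, a)) e
      omega
    have kq : ∀ t, t ::ₘ Q3 ≤ (x, y, z1) ::ₘ (x1, y, z) ::ₘ (x, y1, z) ::ₘ Q3 → tc i t = a →
        (∀ j, j ≠ i → tc j t ∈ Lab Z j) → tn Z' (i, a) + ex Z Q3 (i, a) + 1 ≤
          tn ((x, y, z) ::ₘ Z') (i, a) +
            ex Z ((x, y, z1) ::ₘ (x1, y, z) ::ₘ (x, y1, z) ::ₘ Q3) (i, a) := by
      intro t ht e1 e2
      have e3 := ex_cons (Q := Q3) (l := (i, a)) e1 e2
      have e4 := ex_mono Z ht (i, a)
      omega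
    fin_cases i
    · rcases hl with e | e
      · exact kρ e.symm
      · refine kq (x1, y, z) ((Multiset.cons_le_cons _ (Multiset.le_cons_self _ _)).trans
          (Multiset.le_cons_self _ _)) e.symm fun j hj => ?_
        fin_cases j
        exacts [absurd rfl hj, m1, m2]
    · rcases hl with e | e
      · refine kq (x, y1, z) ((Multiset.le_cons_self _ _).trans (Multiset.le_cons_self _ _))
          e.symm fun j hj => ?_
        fin_cases j
        exacts [m0, absurd rfl hj, m2]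
      · exact kρ e.symm
    · rcases hl with e | e
      · exact kρ e.symm
      · refine kq (x, y, z1) (Multiset.cons_le_cons _ ((Multiset.le_cons_self _ _).trans
          (Multiset.le_cons_self _ _))) e.symm fun j hj => ?_
        fin_cases j
        exacts [m0, m1, absurd rfl hj]
  refine ⟨U ∪ W, Q3 + B, h.sub0.trans subset_union_left, union_subset h.sub hW,
    fun a b c => ?_, ?_, fun l => ?_, fun l hl => ?_⟩
  · have e1 := h.bal a b c
    have e2 := sum_step hW w1 (evt a b c)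
    have e3 : (B.map (ev a b c)).sum = ∑ p ∈ W, evt a b c p +
      (a x y1 + c y1 z + b x1 z + a x1 y + c y z1 + b x z1) := w8 a b c
    have e4 : ∀ u v w, ev a b c (u, v, w) = a u v + b u w + c v w := fun _ _ _ => rfl
    simp only [Multiset.map_cons, Multiset.sum_cons] at e1
    rw [e4, e4, e4, e4] at e1
    rw [Multiset.map_add, Multiset.sum_add, e3]
    linarith
  · have e1 := h.size
    have e2 : ((U ∪ W) \ U₀).card ≤ (U \ U₀).card + W.card :=
      (card_le_card (by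
        rw [union_sdiff_distrib]
        exact union_subset_union Subset.rfl sdiff_subset)).trans (card_union_le _ _)
    rw [Multiset.card_cons, mul_add] at e1
    omega
  · have e1 := h.i1 l
    have e2 := PlexL.cnt_union_le U W l
    have k1 := ex_mono Z hQ l
    have k2 := tn_mono (Multiset.le_cons_self Z' (x, y, z)) l
    rw [ex_add]
    by_cases hl : l.2 ∈ H l.1
    · have e3 : ex Z B l = 0 := by
        by_contra e3
        exact (hB l e3).1 hl
      by_cases e4 : ∀ p ∈ W, co l.1 p ≠ l.2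
      · have := cnt_zero_of e4
        omega
      · push Not at e4
        obtain ⟨p, hp, e4⟩ := e4
        have e5 := drop l (e4 ▸ w5 p hp l.1 (e4 ▸ hl))
        have e6 : cnt W.val l ≤ 4 := w4 l.1 l.2 hl
        omega
    · have e3 : ∀ p ∈ U \ U₀, co l.1 p ≠ l.2 := fun p hp e =>
        hl (mem_union_left _ (mem_union_right _ (mem_image.2 ⟨p, hp, e⟩)))
      have e4 := h.i2 l e3
      have e5 := cnt_zero_of e3
      have e6 := PlexL.cnt_union_le U₀ (U \ U₀) l
      rw [union_sdiff_of_subset h.sub0] at e6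
      have e7 : tn Z' l = 0 :=
        Multiset.card_eq_zero.2 (Multiset.filter_eq_nil.2 fun t ht e => hl (hL _ (e ▸ mem_Lab
          (Multiset.mem_of_le hle (Multiset.mem_cons_of_mem ht)) l.1)))
      have e8 := hU l
      have e9 := w3 l
      have e10 := hB6 l
      omega
  · have e1 := h.i2 l fun p hp => hl p (sdiff_subset_sdiff subset_union_left Subset.rfl hp)
    have k1 := ex_mono Z hQ l
    have e3 : ex Z B l = 0 := by
      by_contra e3
      obtain ⟨-, p, hp, e⟩ := hB l e3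
      exact hl p (mem_sdiff.2 ⟨mem_union_right _ hp,
        fun h0 => disjoint_left.1 w1 hp (h.sub0 h0)⟩) e
    rw [ex_add]
    omega

end RepAux

open RepAux in
theorem stRep (h : StHex) : StRep := by
  intro m s D N _ off Rm U₀ Q₀ Z w ho hs hR hT hB hZ hC hU hQ hZ' hN hm
  have all : ∀ Z' : Multiset (ZMod m × ZMod m × ZMod m), Z' ≤ Z → ∀ U Q,
      St s D Rm U₀ Z U Q Z' → ∃ U' Q', St s D Rm U₀ Z U' Q' 0 := by
    intro Z'
    induction Z' using Multiset.induction_on with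
    | empty => exact fun _ U Q h1 => ⟨U, Q, h1⟩
    | cons ρ Z' ih =>
      intro hle U Q h1
      obtain ⟨U', Q', h2⟩ := step h ho hs hR hZ hC hU hN hm hle h1
      exact ih ((Multiset.le_cons_self _ _).trans hle) U' Q' h2
  obtain ⟨U, Q, h1⟩ := all Z le_rfl U₀ Q₀ ⟨Subset.rfl, hT, hB, by simp, fun l => by
    have e1 := hU l
    have e2 := hZ' l
    have e3 := hQ l
    have e4 := ex_le_tn Z Q₀ l
    omega, fun l _ => (ex_le_tn Z Q₀ l).trans (hQ l)⟩
  have hl : ∀ l, cnt U.val l ≤ 9 * D + 14824 := fun l => (Nat.le_add_right _ _).trans (h1.i1 l)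
  have hss : s ≤ s * s * (N + 1) := (Nat.le_mul_self s).trans (Nat.le_mul_of_pos_right _ N.succ_pos)
  have pick : ∀ (f : ZMod m × ZMod m → Finset (ZMod m)),
      (∀ p, (f p).card ≤ 9 * D + 14828) → ∃ r, ∀ p ∈ off w, r ∉ f p := by
    intro f hf
    have e1 : ((off w).biUnion f).card ≤ (off w).card * (9 * D + 14828) :=
      card_biUnion_le_card_mul _ _ _ fun p _ => hf p
    have e2 := Nat.mul_le_mul_right (9 * D + 14828) (ho.card w)
    obtain ⟨r, -, hr⟩ := exists_mem_notMem_of_card_lt_card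
      (s := (off w).biUnion f) (t := univ) (by rw [card_univ, ZMod.card]; nlinarith)
    exact ⟨r, fun p hp e => hr (mem_biUnion.2 ⟨p, hp, e⟩)⟩
  obtain ⟨r, hr⟩ := pick (fun p => (Rm 0).image (· - p.1)) fun p =>
    card_image_le.trans ((hR 0).trans (by omega))
  obtain ⟨c, hc⟩ := pick (fun p => (Rm 1).image (· - p.2) ∪ (Rm 2).image (· - (r + p.1 + p.2)) ∪
      (U.filter fun q => co 0 q = r + p.1).image (fun q => q.2 - p.2)) fun p => by
    have e1 := hR 1
    have e2 := hR 2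
    have e3 : (U.filter fun q => co 0 q = r + p.1).card ≤ _ := hl (0, r + p.1)
    refine (card_union_le _ _).trans ((add_le_add ((card_union_le _ _).trans
      (add_le_add card_image_le card_image_le)) card_image_le).trans (by omega))
  let W := (off w).map (addLeftEmbedding (r, c))
  have hW : W ⊆ T0 Rm := fun q hq => by
    obtain ⟨p, hp, rfl⟩ := mem_map.1 hq
    refine mem_filter.2 ⟨mem_univ _, fun i hi => ?_⟩
    fin_cases i
    · exact hr p hp (mem_image.2 ⟨_, hi, add_sub_cancel_right r p.1⟩)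
    · exact hc p hp (mem_union_left _ (mem_union_left _
        (mem_image.2 ⟨_, hi, add_sub_cancel_right c p.2⟩)))
    · refine hc p hp (mem_union_left _ (mem_union_right _ (mem_image.2 ⟨_, hi, ?_⟩)))
      change r + p.1 + (c + p.2) - (r + p.1 + p.2) = c
      ring
  have hd : Disjoint W U := disjoint_left.2 fun q hq hq' => by
    obtain ⟨p, hp, rfl⟩ := mem_map.1 hq
    exact hc p hp (mem_union_right _ (mem_image.2
      ⟨_, mem_filter.2 ⟨hq', rfl⟩, add_sub_cancel_right c p.2⟩))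
  obtain ⟨B, hB'⟩ := ho.tr w
  have h0 : ((0 : ZMod m), (0 : ZMod m)) ∈ off w := by
    by_contra h0
    have e1 := hB' (fun u v => if u = 0 ∧ v = 0 then 1 else 0) (fun _ _ => 0) fun _ _ => 0
    have e2 := ev_nonneg (a := fun u v : ZMod m => if u = 0 ∧ v = 0 then 1 else 0)
      (b := fun _ _ => 0) (c := fun _ _ => 0) (fun _ _ => ind_nonneg _) (fun _ _ => le_rfl)
      (fun _ _ => le_rfl) B
    rw [sum_eq_zero fun p hp => by
      simp only [evt, add_zero, ite_eq_right_iff, one_ne_zero, imp_false]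
      rintro ⟨f1, f2⟩
      exact h0 ((show p = (0, 0) from Prod.ext f1 f2) ▸ hp)]
      at e1
    have e3 : ev (fun u v : ZMod m => if u = 0 ∧ v = 0 then (1 : ℤ) else 0) (fun _ _ => 0)
      (fun _ _ => 0) (0, 0, w) = 1 := by simp [ev]
    omega
  refine ⟨U ∪ W, Q + (r, c, r + c + w) ::ₘ B.map fun t => (r + t.1, c + t.2.1, r + c + t.2.2),
    r, c, h1.sub0.trans subset_union_left, union_subset h1.sub hW, ?_, fun l => ?_,
    fun a b c' => ?_, mem_union_right _ (mem_map.2 ⟨_, h0, by simp⟩),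
    Multiset.mem_add.2 (.inr (Multiset.mem_cons_self _ _))⟩
  · have e1 : (U \ U₀).card ≤ 37 * s * N :=
      ((Nat.le_add_right _ _).trans h1.size).trans (Nat.mul_le_mul_left _ hN)
    have e2 : ((U ∪ W) \ U₀).card ≤ (U \ U₀).card + W.card :=
      (card_le_card (by
        rw [union_sdiff_distrib]
        exact union_subset_union Subset.rfl sdiff_subset)).trans (card_union_le _ _)
    have e3 : W.card ≤ s := (card_map _).trans_le (ho.card w)
    rw [mul_add]
    omega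
  · have e1 := hl l
    have e2 := PlexL.cnt_union_le U W l
    have e3 : cnt W.val l ≤ 400 := by
      refine le_trans (le_of_eq ?_) (ho.load w (l.1, l.2 - co l.1 (r, c)))
      rw [PlexL.cnt_val, PlexL.cnt_val, filter_map, card_map]
      congr 1
      refine filter_congr fun p _ => ?_
      change co l.1 ((r, c) + p) = l.2 ↔ _
      rw [co_add, eq_sub_iff_add_eq']
    omega
  · have e1 := h1.bal a b c'
    have e2 := sum_step hW hd (evt a b c')
    have e3 := hB' (fun u v => a (r + u) (c + v)) (fun u v => b (r + u) (r + c + v))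
      fun u v => c' (c + u) (r + c + v)
    have e4 : ∑ p ∈ W, evt a b c' p = ∑ p ∈ off w, evt (fun u v => a (r + u) (c + v))
        (fun u v => b (r + u) (r + c + v)) (fun u v => c' (c + u) (r + c + v)) p := by
      rw [sum_map]
      refine sum_congr rfl fun p _ => ?_
      change a (r + p.1) (c + p.2) + b (r + p.1) (r + p.1 + (c + p.2)) +
        c' (c + p.2) (r + p.1 + (c + p.2)) = _
      rw [add_add_add_comm r p.1 c p.2]
      rfl
    rw [Multiset.map_add, Multiset.sum_add, Multiset.map_cons, Multiset.sum_cons, Multiset.map_map]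
    have e5 : (B.map (ev a b c' ∘ fun t => (r + t.1, c + t.2.1, r + c + t.2.2))).sum =
      (B.map (ev (fun u v => a (r + u) (c + v)) (fun u v => b (r + u) (r + c + v))
        fun u v => c' (c + u) (r + c + v))).sum := rfl
    have e6 : ev (fun u v => a (r + u) (c + v)) (fun u v => b (r + u) (r + c + v))
        (fun u v => c' (c + u) (r + c + v)) (0, 0, w) = ev a b c' (r, c, r + c + w) := by
      simp only [ev, add_zero]
    rw [e5]
    linarith

end PlexLL
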