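import Pool.Agent.Lib.MP_3d3eb4_co.LL.Defs

namespace PlexLL

open Finset Pool.Agent.Lib.MP_3d3eb4_co
open PlexL (co cnt)

namespace SeqAux

/-- the orbit as a pair of integers -/
def orb : ℕ → ℤ × ℤ
  | 0 => (5, 1)
  | i + 1 =>
    if i % 3 = 1 then (2 * ((orb i).1 ^ 2 + (orb i).1 * (orb i).2 - (orb i).2 ^ 2),
      (orb i).1 * ((orb i).1 - (orb i).2))
    else ((orb i).1 ^ 2 + (orb i).1 * (orb i).2 - (orb i).2 ^ 2, (orb i).1 * ((orb i).1 - (orb i).2) / 2)

/-- residues modulo powers of two -/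
def Par (i : ℕ) (a b : ℤ) : Prop :=
  (i % 3 = 0 → a % 8 = 5 ∧ b % 8 = 1) ∧ (i % 3 = 1 → a % 8 = 5 ∧ b % 4 = 2) ∧
    (i % 3 = 2 → a % 16 = 2 * (b % 8) ∧ b % 4 = 3)

theorem par (i : ℕ) : Par i (orb i).1 (orb i).2 := by
  induction i with
  | zero => simp [Par, orb]
  | succ i ih =>
    obtain ⟨h0, h1, h2⟩ := ih
    rw [orb]
    generalize (orb i).1 = a at *
    generalize (orb i).2 = b at *
    have : i % 3 = 0 ∨ i % 3 = 1 ∨ i % 3 = 2 := by omega
    rcases this with h | h | h
    · rw [if_neg (by omega)]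
      obtain ⟨s, rfl⟩ : ∃ s, a = 8 * s + 5 := ⟨a / 8, by omega⟩
      obtain ⟨t, rfl⟩ : ∃ t, b = 8 * t + 1 := ⟨b / 8, by omega⟩
      have e1 : (8 * s + 5) ^ 2 + (8 * s + 5) * (8 * t + 1) - (8 * t + 1) ^ 2 =
        64 * (s * s) + 64 * (s * t) - 64 * (t * t) + 88 * s + 24 * t + 29 := by ring
      have e2 : (8 * s + 5) * (8 * s + 5 - (8 * t + 1)) =
        64 * (s * s) - 64 * (s * t) + 72 * s - 40 * t + 20 := by ring
      refine ⟨by omega, fun _ => ?_, by omega⟩
      simp only [e1, e2]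
      omega
    · rw [if_pos h]
      obtain ⟨s, rfl⟩ : ∃ s, a = 8 * s + 5 := ⟨a / 8, by omega⟩
      obtain ⟨t, rfl⟩ : ∃ t, b = 4 * t + 2 := ⟨b / 4, by omega⟩
      have e1 : (8 * s + 5) ^ 2 + (8 * s + 5) * (4 * t + 2) - (4 * t + 2) ^ 2 =
        64 * (s * s) + 32 * (s * t) - 16 * (t * t) + 96 * s + 4 * t + 31 := by ring
      have e2 : (8 * s + 5) * (8 * s + 5 - (4 * t + 2)) =
        64 * (s * s) - 32 * (s * t) + 64 * s - 20 * t + 15 := by ring
      refine ⟨by omega, by omega, fun _ => ?_⟩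
      simp only [e1, e2]
      omega
    · rw [if_neg (by omega)]
      obtain ⟨t, rfl⟩ : ∃ t, b = 4 * t + 3 := ⟨b / 4, by omega⟩
      obtain ⟨s, rfl⟩ : ∃ s, a = 16 * s + 8 * t + 6 := ⟨(a - 8 * t - 6) / 16, by omega⟩
      have e1 : (16 * s + 8 * t + 6) ^ 2 + (16 * s + 8 * t + 6) * (4 * t + 3) - (4 * t + 3) ^ 2 =
        256 * (s * s) + 320 * (s * t) + 80 * (t * t) + 240 * s + 120 * t + 45 := by ring
      have e2 : (16 * s + 8 * t + 6) * (16 * s + 8 * t + 6 - (4 * t + 3)) =
        256 * (s * s) + 192 * (s * t) + 32 * (t * t) + 144 * s + 48 * t + 18 := by ring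
      refine ⟨fun _ => ?_, by omega, by omega⟩
      simp only [e1, e2]
      omega

theorem stp (i : ℕ) : ∃ g : ℤ, (g = 1 ∨ g = 2) ∧
    g * (orb (i + 1)).1 = 2 * ((orb i).1 ^ 2 + (orb i).1 * (orb i).2 - (orb i).2 ^ 2) ∧
    g * (orb (i + 1)).2 = (orb i).1 * ((orb i).1 - (orb i).2) := by
  obtain ⟨h0, -, h2⟩ := par i
  rw [orb]
  by_cases h : i % 3 = 1
  · exact ⟨1, .inl rfl, by simp [h]⟩
  · refine ⟨2, .inr rfl, by simp [h], ?_⟩
    rw [if_neg h]
    refine Int.mul_ediv_cancel' ?_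
    by_cases h' : i % 3 = 0
    · exact Dvd.dvd.mul_left (by omega) _
    · exact Dvd.dvd.mul_right (by omega) _

theorem size (i : ℕ) : 0 < (orb i).2 ∧ 2 * (orb i).2 < (orb i).1 ∧ (orb i).1 ≤ 5 * (orb i).2 := by
  induction i with
  | zero => simp [orb]
  | succ i ih =>
    obtain ⟨g, hg, e1, e2⟩ := stp i
    obtain ⟨h0, h1, h2⟩ := ih
    generalize (orb i).1 = a at *
    generalize (orb i).2 = b at *
    have p1 : 0 < a * (a - b) := mul_pos (by omega) (by omega)
    have p2 : 0 < b * (2 * a - b) := mul_pos h0 (by omega)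
    have p3 : 0 < (3 * a - b) * (a - 2 * b) := mul_pos (by omega) (by omega)
    rcases hg with rfl | rfl <;> exact ⟨by linarith, by nlinarith, by nlinarith⟩

theorem nine (i : ℕ) : ¬(3 : ℤ) ∣ (orb i).2 ∧
    (9 : ℤ) ∣ (orb i).1 - (if i % 2 = 0 then 5 else 2) * (orb i).2 := by
  induction i with
  | zero => simp [orb]
  | succ i ih =>
    obtain ⟨g, hg, e1, e2⟩ := stp i
    obtain ⟨h0, u, hu⟩ := ih
    generalize (orb i).1 = a at *
    generalize (orb i).2 = b at *
    generalize (orb (i + 1)).1 = a' at *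
    generalize (orb (i + 1)).2 = b' at *
    refine ⟨fun h => ?_, ?_⟩
    · have h1 : (3 : ℤ) ∣ a * (a - b) := e2 ▸ h.mul_left g
      rcases Int.prime_three.dvd_or_dvd h1 with h2 | h2 <;> split_ifs at hu <;> omega
    · by_cases h : i % 2 = 0
      · rw [if_pos h] at hu
        rw [if_neg (by omega)]
        have h1 : g * (a' - 2 * b') = 9 * (2 * b * (b + 2 * u)) := by
          linear_combination e1 - 2 * e2 + 4 * b * hu
        rcases hg with rfl | rfl <;> omega
      · rw [if_neg h] at hu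
        rw [if_pos (by omega)]
        have h1 : g * (a' - 5 * b') = 9 * (-((3 * a - b) * u)) := by
          linear_combination e1 - 5 * e2 - (3 * a - b) * hu
        rcases hg with rfl | rfl <;> omega

section field

variable {L : Type} [Field L]

open Classical in
/-- the map on the projective line -/
noncomputable def F : Option L → Option L
  | none => some 2
  | some y => if y * (y - 1) = 0 then none else some (2 * (y ^ 2 + y - 1) / (y * (y - 1)))

open Classical in
/-- the point with given coordinates -/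
noncomputable def pt (a b : L) : Option L := if b = 0 then none else some (a / b)

theorem F_pt {a b a' b' g : L} (hg : g ≠ 0) (h0 : b = 0 → a ≠ 0)
    (e1 : g * a' = 2 * (a ^ 2 + a * b - b ^ 2)) (e2 : g * b' = a * (a - b)) :
    pt a' b' = F (pt a b) := by
  have f1 : a' = 2 * (a ^ 2 + a * b - b ^ 2) / g := by rw [← e1]; field_simp
  have f2 : b' = a * (a - b) / g := by rw [← e2]; field_simp
  by_cases hb : b = 0
  · have ha := h0 hb
    subst hb
    have h1 : b' ≠ 0 := by rw [f2]; simp [ha, hg]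
    rw [pt, pt, if_neg h1, if_pos rfl, F, f1, f2]
    congr 1
    field_simp
    ring
  · have h1 : a / b * (a / b - 1) = g * b' / b ^ 2 := by rw [e2]; field_simp
    rw [pt, pt, if_neg hb, F, h1]
    by_cases hb' : b' = 0
    · simp [hb']
    · rw [if_neg hb', if_neg (div_ne_zero (mul_ne_zero hg hb') (pow_ne_zero _ hb))]
      congr 1
      rw [f1]
      field_simp

theorem orbit {k : ℕ} (hk : (k + 2).Prime) (h2 : (2 : L) ≠ 0) (h3 : (3 : L) ≠ 0) (a b g : ℕ → L)
    (a0 : a 0 = 5) (b0 : b 0 = 1) (hg : ∀ i, g i ≠ 0)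
    (e1 : ∀ i, g i * a (i + 1) = 2 * (a i ^ 2 + a i * b i - b i ^ 2))
    (e2 : ∀ i, g i * b (i + 1) = a i * (a i - b i)) (fin : b k = 2 * a k) :
    (∀ i, b i ≠ 0) ∧ ∀ i j, i < j → j ≤ k + 1 → a i * b j - a j * b i ≠ 0 := by
  have nz : ∀ i, b i = 0 → a i ≠ 0 := fun i => by
    induction i with
    | zero => simp [b0]
    | succ i ih =>
      intro hb ha
      have h4 := e1 i
      have h5 := e2 i
      rw [ha, mul_zero, eq_comm, mul_eq_zero, or_iff_right h2] at h4
      rw [hb, mul_zero, eq_comm, mul_eq_zero, sub_eq_zero] at h5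
      have h6 : b i ^ 2 = 0 := by
        rcases h5 with h | h <;> rw [h] at h4
        · linear_combination -h4
        · linear_combination h4
      have h7 := pow_eq_zero_iff two_ne_zero |>.1 h6
      rcases h5 with h | h
      exacts [ih h7 h, ih h7 (h.trans h7)]
  have it : ∀ i, F^[i] (some (5 : L)) = pt (a i) (b i) := fun i => by
    induction i with
    | zero => simp [pt, a0, b0]
    | succ i ih => rw [Function.iterate_succ_apply', ih, F_pt (hg i) (nz i) (e1 i) (e2 i)]
  have ak : a k ≠ 0 := fun h => nz k (by rw [fin, h, mul_zero]) h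
  have yk : F^[k] (some (5 : L)) = some (1 / 2) := by
    rw [it, pt, fin, if_neg (mul_ne_zero h2 ak)]
    congr 1
    field_simp
  have h4 : (4 : L) ≠ 0 := by simpa only [show (2 : L) * 2 = 4 by norm_num] using mul_ne_zero h2 h2
  have Fh : F (some (1 / 2 : L)) = some 2 := by
    have : (1 / 2 : L) * (1 / 2 - 1) = -1 / 4 := by field_simp; ring
    rw [F, this, if_neg (div_ne_zero (by simp) h4)]
    congr 1
    field_simp
    ring
  have F2 : F (some (2 : L)) = some 5 := by
    have : (2 : L) * (2 - 1) = 2 := by ring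
    rw [F, this, if_neg h2]
    congr 1
    field_simp
    ring
  have per : Function.IsPeriodicPt F (k + 2) (some (5 : L)) := by
    rw [Function.IsPeriodicPt, Function.IsFixedPt, Function.iterate_succ_apply',
      Function.iterate_succ_apply', yk, Fh, F2]
  have nb : ∀ i, b i ≠ 0 := fun i hi => by
    have h5 := (per.apply_iterate i).eq_of_apply_eq_same (per.apply_iterate k) hk.pos
      (by rw [yk, Fh, it, pt, if_pos hi, F])
    rw [yk, it, pt, if_pos hi] at h5
    exact absurd h5 (by simp)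
  have : Fact (k + 2).Prime := ⟨hk⟩
  have mp := Function.minimalPeriod_eq_prime per fun h => by
    have h5 := (h.iterate k).eq
    rw [yk, Option.some.injEq, div_eq_iff h2] at h5
    exact mul_ne_zero h3 h3 (by linear_combination -h5)
  refine ⟨nb, fun i j hij hj h => hij.ne ?_⟩
  refine Function.iterate_injOn_Iio_minimalPeriod (f := F) (x := some (5 : L))
    (by rw [mp, Set.mem_Iio]; omega) (by rw [mp, Set.mem_Iio]; omega) ?_
  simp only [it, pt, if_neg (nb _), Option.some.injEq]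
  rw [div_eq_div_iff (nb i) (nb j)]
  exact sub_eq_zero.1 h

end field

theorem unit_of {m : ℕ} {z : ℤ} (h : ∀ p : ℕ, p.Prime → p ∣ m → (z : ZMod p) ≠ 0) :
    IsUnit (z : ZMod m) := by
  rw [ZMod.coe_int_isUnit_iff_isCoprime, Int.isCoprime_iff_gcd_eq_one]
  refine Nat.coprime_of_dvd fun p hp h1 h2 => h p hp (by simpa using h1) ?_
  rw [ZMod.intCast_zmod_eq_zero_iff_dvd]
  exact Int.natCast_dvd.2 h2

end SeqAux

open SeqAux in
theorem stSeq : StSeq := by
  intro K
  obtain ⟨q, hq, hp⟩ := Nat.exists_infinite_primes (K + 5)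
  obtain ⟨k, rfl⟩ : ∃ k, q = k + 2 := ⟨q - 2, by omega⟩
  have k2 : ¬k % 2 = 0 := fun h => by
    have := (Nat.prime_dvd_prime_iff_eq Nat.prime_two hp).1 (by omega)
    omega
  have k3 : ¬k % 3 = 1 := fun h => by
    have := (Nat.prime_dvd_prime_iff_eq Nat.prime_three hp).1 (by omega)
    omega
  have ca : ∀ i, (((orb i).1.toNat : ℕ) : ℤ) = (orb i).1 := fun i =>
    Int.toNat_of_nonneg (by have := size i; omega)
  have cb : ∀ i, (((orb i).2.toNat : ℕ) : ℤ) = (orb i).2 := fun i =>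
    Int.toNat_of_nonneg (size i).1.le
  obtain ⟨n3, u, hu⟩ := nine k
  rw [if_neg k2] at hu
  obtain ⟨m, hm⟩ : ∃ m : ℕ, (m : ℤ) = (orb k).2 + 6 * u :=
    ⟨((orb k).2 + 6 * u).toNat, Int.toNat_of_nonneg (by have := size k; omega)⟩
  have m2 : m % 2 = 1 := by
    obtain ⟨h0, -, h2⟩ := par k
    omega
  have m3 : ¬3 ∣ m := by omega
  choose g hg e1 e2 using stp
  have key : ∀ p : ℕ, p.Prime → p ∣ m → (∀ i, ((orb i).2 : ZMod p) ≠ 0) ∧
      (∀ i, (((orb i).1 * ((orb i).1 - (orb i).2) : ℤ) : ZMod p) ≠ 0) ∧ ∀ i j, i < j → j ≤ k + 1 →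
      (((orb i).1 * (orb j).2 - (orb j).1 * (orb i).2 : ℤ) : ZMod p) ≠ 0 := fun p pp hd => by
    have : Fact p.Prime := ⟨pp⟩
    have nz : ∀ r : ℕ, r.Prime → ¬r ∣ m → (r : ZMod p) ≠ 0 := fun r hr h h0 => by
      rw [ZMod.natCast_eq_zero_iff, Nat.prime_dvd_prime_iff_eq pp hr] at h0
      exact h (h0 ▸ hd)
    have h2 : (2 : ZMod p) ≠ 0 := by exact_mod_cast nz 2 Nat.prime_two (by omega)
    have h3 : (3 : ZMod p) ≠ 0 := by exact_mod_cast nz 3 Nat.prime_three m3
    have g0 : ∀ i, (g i : ZMod p) ≠ 0 := fun i => by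
      rcases hg i with h | h <;> rw [h] <;> simp [h2]
    have m0 : ((m : ℤ) : ZMod p) = 0 := by
      rw [Int.cast_natCast, ZMod.natCast_eq_zero_iff]; exact hd
    obtain ⟨h4, h5⟩ := orbit hp h2 h3 (fun i => ((orb i).1 : ZMod p)) (fun i => ((orb i).2 : ZMod p))
      (fun i => (g i : ZMod p)) (by simp [orb]) (by simp [orb]) g0
      (fun i => by exact_mod_cast congrArg (Int.cast : ℤ → ZMod p) (e1 i))
      (fun i => by exact_mod_cast congrArg (Int.cast : ℤ → ZMod p) (e2 i)) (by
        have h6 : (orb k).2 = 2 * (orb k).1 - 3 * m := by omega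
        have h7 := congrArg (Int.cast : ℤ → ZMod p) h6
        rw [Int.cast_sub, Int.cast_mul, Int.cast_mul, m0] at h7
        simpa using h7)
    refine ⟨h4, fun i => ?_, fun i j h6 h7 => by exact_mod_cast h5 i j h6 h7⟩
    rw [← e2, Int.cast_mul]
    exact mul_ne_zero (g0 i) (h4 _)
  have za : ∀ i, (((orb i).1.toNat : ℕ) : ZMod m) = ((orb i).1 : ZMod m) := fun i => by
    rw [← Int.cast_natCast, ca]
  have zb : ∀ i, (((orb i).2.toNat : ℕ) : ZMod m) = ((orb i).2 : ZMod m) := fun i => by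
    rw [← Int.cast_natCast, cb]
  have uu : ∀ i, IsUnit (((orb i).1 : ZMod m) * (((orb i).1 : ZMod m) - (orb i).2)) := fun i => by
    exact_mod_cast unit_of fun p pp hd => (key p pp hd).2.1 i
  refine ⟨k, m, fun i => (orb i).1.toNat, fun i => (orb i).2.toNat, by omega, rfl, rfl,
    Nat.odd_iff.2 m2, m3, ?_, fun i => ?_, fun i => ?_, fun i => ?_, fun i => ?_, fun i => ?_,
    fun i => ?_, fun i => ?_, fun i => ?_, fun i => ?_, fun i j h1 h2 => ?_⟩
  · have := ca k
    have := cb k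
    omega
  · have := size i
    omega
  · have := size i
    omega
  · zify
    rw [ca, ca]
    obtain ⟨h0, h1, -⟩ := size i
    have h2 := e1 i
    have h3 : 0 < (orb i).2 * ((orb i).1 - (orb i).2) := mul_pos h0 (by omega)
    have h4 := sq_nonneg (orb i).1
    rcases hg i with h | h <;> rw [h] at h2 <;> nlinarith
  · zify
    rw [ca, ca]
    have h2 := e1 i
    have h3 := sq_nonneg ((orb i).1 - 2 * (orb i).2)
    have h4 := sq_nonneg (orb i).1
    rcases hg i with h | h <;> rw [h] at h2 <;> nlinarith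
  · simp only [ca, cb]
    rw [← e1, ← e2]
    ring
  · obtain ⟨h0, h1⟩ := nine i
    have := ca i
    have := cb i
    split_ifs at h1 <;> omega
  · rw [zb]
    exact unit_of fun p pp hd => (key p pp hd).1 i
  · rw [za]
    exact isUnit_of_mul_isUnit_left (uu i)
  · rw [za, zb]
    exact isUnit_of_mul_isUnit_right (uu i)
  · simp only [za, zb]
    exact_mod_cast unit_of fun p pp hd => (key p pp hd).2.2 i j h1 h2

end PlexLL
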