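import Pool.Agent.Lib.MP_3d3eb4_co.LL.Alpha
import Pool.Agent.Lib.MP_3d3eb4_co.PL.Diag

/-! A set of cells with prescribed, almost constant, line degrees that avoids a sparse set. -/

namespace PlexLL

open Finset
open PlexL (co cnt ev vec deg dft dg mem_dg deg_val deg_union deg_sdiff deg_apply cnt_val
  cnt_union_le cnt_le_card cnt_subset cnt_dg0 cnt_dg1 cnt_dg2 ev_apply sum_cnt)

set_option linter.unusedSectionVars false

variable {m : ℕ} [NeZero m]

theorem cnt_dg (hm : Odd m) (J : Finset (ZMod m)) (l : Fin 3 × ZMod m) :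
    cnt (dg J).val l = J.card := by
  obtain ⟨i, a⟩ := l
  fin_cases i
  · exact cnt_dg0 J a
  · exact cnt_dg1 J a
  · refine (cnt_dg2 J a).trans ((sum_congr rfl fun j _ => ?_).trans (card_eq_sum_ones J).symm)
    have h2 : IsUnit (2 : ZMod m) := by
      exact_mod_cast (ZMod.isUnit_iff_coprime 2 m).2 (Nat.coprime_two_left.2 hm)
    obtain ⟨u, hu⟩ := h2.exists_right_inv
    refine card_eq_one.2 ⟨u * (a - j), ?_⟩
    ext r
    simp only [mem_filter, mem_univ, true_and, mem_singleton]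
    exact ⟨fun h => by linear_combination u * h - r * hu, fun h => by
      linear_combination 2 * h + (a - j) * hu⟩

/-- two symbol lines -/
def sl (s z : ZMod m) : Finset (ZMod m × ZMod m) :=
  univ.filter fun p => p.1 + p.2 ∈ ({s, z} : Finset _)

theorem cnt_sl0 (s z r : ZMod m) : cnt (sl s z).val (0, r) ≤ 2 := by
  refine le_trans (card_le_card_of_injOn (t := ({s, z} : Finset _)) (co 2)
    (fun p hp => (mem_filter.1 (mem_filter.1 hp).1).2) fun p hp q hq h => ?_) card_le_two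
  have h1 : p.1 = r := (mem_filter.1 hp).2
  have h2 : q.1 = r := (mem_filter.1 hq).2
  exact Prod.ext (h1.trans h2.symm) (by simp only [PlexL.co_two, h1, h2] at h; exact add_left_cancel h)

theorem cnt_sl1 (s z r : ZMod m) : cnt (sl s z).val (1, r) ≤ 2 := by
  refine le_trans (card_le_card_of_injOn (t := ({s, z} : Finset _)) (co 2)
    (fun p hp => (mem_filter.1 (mem_filter.1 hp).1).2) fun p hp q hq h => ?_) card_le_two
  have h1 : p.2 = r := (mem_filter.1 hp).2
  have h2 : q.2 = r := (mem_filter.1 hq).2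
  exact Prod.ext (by simp only [PlexL.co_two, h1, h2] at h; exact add_right_cancel h) (h1.trans h2.symm)

theorem Spa.few {F : Finset (ZMod m × ZMod m)} {M g : ℕ} (h : Spa F M g) (x y : ZMod m) (a b : ℤ)
    (hab : 0 < a * b) (ha : |a| ≤ M) (hb : |b| ≤ M) :
    Few (fun τ => (x + (a : ZMod m) * τ, y + (b : ZMod m) * τ) ∈ F) g := by
  rw [abs_le] at ha hb
  rcases pos_and_pos_or_neg_and_neg_of_mul_pos hab with ⟨h1, h2⟩ | ⟨h1, h2⟩
  · lift a to ℕ using h1.le
    lift b to ℕ using h2.le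
    exact (Few.of_card (h (x, y) a b (by omega) (by omega) (by omega) (by omega))).mono le_rfl
      fun τ hτ => by simpa using hτ
  · obtain ⟨a, rfl⟩ : ∃ a' : ℕ, a = -a' := ⟨a.natAbs, by omega⟩
    obtain ⟨b, rfl⟩ : ∃ b' : ℕ, b = -b' := ⟨b.natAbs, by omega⟩
    exact ((Few.of_card (h (x, y) a b (by omega) (by omega) (by omega) (by omega))).comp
      (Equiv.neg _)).mono le_rfl fun τ hτ => by simpa using hτ

theorem thin {F Y : Finset (ZMod m × ZMod m)} {J : Finset (ZMod m)} {M g : ℕ} (h : Spa F M g)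
    (s z : ZMod m) :
    Thin (F ∪ dg J ∪ Y ∪ sl s z) M (g + 2 * M * J.card + M * Y.card + 2 * M * 2) := by
  intro x y a b hab hne ha hb
  have a0 : a ≠ 0 := by rintro rfl; simp at hab
  have ab : a + b ≠ 0 := by
    rcases pos_and_pos_or_neg_and_neg_of_mul_pos hab with h | h <;> omega
  have ha' := abs_le.1 ha
  have hb' := abs_le.1 hb
  refine ((((h.few x y a b hab ha hb).or (Few.lin (b - a) (2 * M) (by omega)
    (by rw [abs_le]; omega) (y - x) J)).or (Few.lin a M a0 ha x (Y.image Prod.fst))).or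
    (Few.lin (a + b) (2 * M) ab (by rw [abs_le]; omega) (x + y) {s, z})).mono ?_ fun τ hτ => ?_
  · gcongr
    exacts [card_image_le, card_le_two]
  · simp only [mem_union] at hτ
    refine hτ.imp (Or.imp (Or.imp id fun h => ?_) fun h => mem_image.2 ⟨_, h, rfl⟩) fun h => ?_
    · convert mem_dg.1 h using 1; push_cast; ring
    · convert (mem_filter.1 h).2 using 1; push_cast; ring

/-- the fixed data of the construction -/
structure Env (F : Finset (ZMod m × ZMod m)) (J K : Finset (ZMod m))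
    (Ks : Fin 3 → Finset (ZMod m)) (L M g h P : ℕ) : Prop where
  odd : Odd m
  kit : Kit L K
  sub : K ⊆ J
  cK : K.card ≤ 261
  kits : ∀ v, (Ks v).card ≤ 261 ∧ Kit L (Ks v) ∧ Disjoint K (Ks v)
  subs : ∀ v, Ks v ⊆ J
  alt : ∀ x, ∃ v, ∀ k ∈ K, ∀ k' ∈ Ks v, k - k' ≠ x ∧ k - k' ≠ -x
  dich : ∀ l, cnt F.val l ≤ g ∨ ∀ p, co l.1 p = l.2 → p ∈ F
  spa : Spa F M g
  hM : 2 * L + 3 ≤ M
  hP : g + 2 * M * J.card + M * h + 2 * M * 2 + 261 * 261 ≤ P
  big : 57 * M ^ 3 * P < m

variable {F : Finset (ZMod m × ZMod m)} {J K : Finset (ZMod m)} {Ks : Fin 3 → Finset (ZMod m)}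
  {L M g h P : ℕ}

theorem Env.step (E : Env F J K Ks L M g h P) (X : Finset (ZMod m × ZMod m)) (r c s x y z : ZMod m)
    (hX : Disjoint X F) (h1 : (dg J \ X).card ≤ h) (h2 : (X \ dg J).card ≤ h)
    (hr : cnt F.val (0, r) ≤ g) (hc : cnt F.val (1, c) ≤ g) (hs : cnt F.val (2, s) ≤ g)
    (hx : cnt F.val (0, x) ≤ g) (hy : cnt F.val (1, y) ≤ g) (hz : cnt F.val (2, z) ≤ g)
    (hsz : s ≠ z) :
    ∃ (X' : Finset (ZMod m × ZMod m)) (x' y' : ZMod m), Disjoint X' F ∧
      (dg J \ X').card ≤ (dg J \ X).card + (8 * L + 3) ∧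
      (X' \ dg J).card ≤ (X \ dg J).card + (8 * L + 3) ∧
      cnt F.val (0, x') ≤ g ∧ cnt F.val (1, y') ≤ g ∧ (x', z - x') ∉ F ∪ X' ∧
      deg X'.val + ev 0 x' + ev 1 y' =
        deg X.val + ev 0 x + ev 1 y + (ev 0 r + ev 1 c + ev 2 s) := by
  have hM := E.hM
  have hP := E.hP
  set Δ := s - r - c with hΔ
  obtain ⟨v, hv⟩ := E.alt (2 * Δ)
  obtain ⟨cv, kv, dv⟩ := E.kits v
  set Fb := F ∪ dg J ∪ (X \ dg J) ∪ sl s z with hFb
  have hMh : M * (X \ dg J).card ≤ M * h := Nat.mul_le_mul_left _ h2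
  have hMh' : h ≤ M * h := Nat.le_mul_of_pos_left _ (by omega)
  have hMJ : J.card ≤ 2 * M * J.card := Nat.le_mul_of_pos_left _ (by omega)
  have hT : Thin Fb M P := fun x y a b h1 h2 h3 h4 =>
    (thin E.spa s z x y a b h1 h2 h3 h4).mono (by omega) fun _ h => h
  have c0 : ∀ l, cnt F.val l ≤ g → cnt (F ∪ dg J ∪ (X \ dg J)).val l + 2 ≤ P := fun l hl => by
    have a1 := cnt_union_le (F ∪ dg J) (X \ dg J) l
    have a2 := cnt_union_le F (dg J) l
    have a3 : cnt (X \ dg J).val l ≤ (X \ dg J).card := cnt_le_card _ l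
    rw [cnt_dg E.odd] at a2
    omega
  have c1 : ∀ a, cnt F.val (0, a) ≤ g → cnt Fb.val (0, a) ≤ P := fun a ha =>
    (cnt_union_le _ _ _).trans ((Nat.add_le_add_left (cnt_sl0 s z a) _).trans (c0 _ ha))
  have c2 : ∀ a, cnt F.val (1, a) ≤ g → cnt Fb.val (1, a) ≤ P := fun a ha =>
    (cnt_union_le _ _ _).trans ((Nat.add_le_add_left (cnt_sl1 s z a) _).trans (c0 _ ha))
  set Hr := (dg J \ X).image Prod.fst with hHr
  have cH : Hr.card ≤ P := card_image_le.trans (by omega)
  have cK := E.cK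
  have E1 := alpha r y L M P E.kit hM hT (c1 r hr) (c2 y hy) cH (by omega)
    ((Nat.mul_le_mul cK cK).trans (by omega))
  have E2 := (alpha x c L M P kv hM hT (c1 x hx) (c2 c hc) cH (by omega)
    ((Nat.mul_le_mul cv cv).trans (by omega))).comp (Equiv.subRight Δ)
  have E3 := few_four K (Ks v) Δ
  have E4 := Few.sym (F ∪ dg J ∪ (X \ dg J)) r s
  have E5 := Few.sym (F ∪ dg J ∪ (X \ dg J)) (x - Δ) z
  have E6 := Few.sym F (z - y) z
  obtain ⟨δ, hδ⟩ := (((((E1.or E2).or E3).or E4).or E5).or E6).ex_not (by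
    have a1 := c0 _ hs
    have a2 := c0 _ hz
    have a3 := Nat.mul_le_mul cK cv
    have a4 : P ≤ M ^ 3 * P := Nat.le_mul_of_pos_left _ (pow_pos (by omega) _)
    have a5 := E.big
    rw [mul_assoc] at a5 ⊢
    omega)
  simp only [not_or, not_not, Equiv.subRight_apply] at hδ
  obtain ⟨⟨⟨⟨⟨o1, o2⟩, o3⟩, o4⟩, o5⟩, o6⟩ := hδ
  obtain ⟨A, R, a1, a2, a3, a4, a5⟩ := o1.add o2 dv (dis_Dg fun k hk k' hk' => by
    have := fun h => o3 ⟨(k, k'), mem_product.2 ⟨hk, hk'⟩, h⟩
    rw [sub_sub_cancel]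
    exact ⟨(hv k hk k' hk').1, (hv k hk k' hk').2, fun e => this (.inl e), fun e => this (.inr e)⟩)
  have hXs : X ⊆ F ∪ dg J ∪ (X \ dg J) := fun p hp => by
    by_cases h : p ∈ dg J <;> simp [h, hp]
  have hR : R ⊆ X := fun p hp => by
    by_contra hn
    refine (a2 p hp).1 (mem_image_of_mem _ (mem_sdiff.2 ⟨mem_dg.2 ?_, hn⟩))
    exact union_subset E.sub (E.subs v) (a2 p hp).2
  have hA : ∀ p ∈ A, p ∉ F ∧ p ∉ X ∧ p.1 + p.2 ≠ s ∧ p.1 + p.2 ≠ z := fun p hp => by
    have := (a1 p hp).1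
    rw [hFb, mem_union, not_or] at this
    exact ⟨fun h => this.1 (by simp [h]), fun h => this.1 (hXs h),
      fun h => this.2 (by simp [sl, h]), fun h => this.2 (by simp [sl, h])⟩
  have hd : Disjoint (X \ R) A := disjoint_right.2 fun p hp h => (hA p hp).2.1 (mem_sdiff.1 h).1
  have hn : (r + δ, s - (r + δ)) ∉ X \ R ∪ A := fun h => by
    rcases mem_union.1 h with h | h
    · exact o4 (hXs (mem_sdiff.1 h).1)
    · exact (hA _ h).2.2.1 (by simp)
  refine ⟨insert (r + δ, s - (r + δ)) (X \ R ∪ A), x + (δ - Δ), y - δ, ?_, ?_, ?_, ?_, ?_, ?_, ?_⟩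
  · rw [disjoint_insert_left, disjoint_union_left]
    exact ⟨fun h => o4 (by simp [h]), hX.mono_left sdiff_subset,
      disjoint_left.2 fun p hp => (hA p hp).1⟩
  · refine (card_le_card (t := (dg J \ X) ∪ R) fun p hp => ?_).trans
      ((card_union_le _ _).trans (by omega))
    simp only [mem_sdiff, mem_insert, mem_union] at hp ⊢
    tauto
  · refine (card_le_card (t := insert (r + δ, s - (r + δ)) ((X \ dg J) ∪ A)) fun p hp => ?_).trans
      ((card_insert_le _ _).trans (by have := card_union_le (X \ dg J) A; omega))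
    simp only [mem_sdiff, mem_insert, mem_union] at hp ⊢
    tauto
  · refine (E.dich _).resolve_right fun h => o5 ?_
    simp [h (x - Δ + δ, z - (x - Δ + δ)) (by simp only [PlexL.co_zero]; ring)]
  · exact (E.dich _).resolve_right fun h => o6 (h _ (by simp only [PlexL.co_one]; ring))
  · rw [show x + (δ - Δ) = x - Δ + δ by ring]
    simp only [mem_union, mem_insert, not_or]
    refine ⟨fun h => o5 (by simp [h]), fun h => hsz ?_, fun h => o5 (hXs (mem_sdiff.1 h).1),
      fun h => (hA _ h).2.2.2 (by simp)⟩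
    simp only [Prod.mk.injEq] at h
    linear_combination -h.1 - h.2
  · rw [insert_val_of_notMem hn, PlexL.deg_cons, deg_union hd, deg_sdiff hR,
      eq_add_of_sub_eq a5]
    simp only [vec, show s - (r + δ) = c - (δ - Δ) by rw [hΔ]; ring,
      show r + δ + (c - (δ - Δ)) = s by rw [hΔ]; ring]
    abel

theorem Env.all (E : Env F J K Ks L M g h P) (η : Fin 3 × ZMod m → ℤ) (hη : dft η = 0)
    (z : ZMod m) (hz : cnt F.val (2, z) ≤ g) (N : ℕ) :
    ∀ (X : Finset (ZMod m × ZMod m)) (v : Fin 3 × ZMod m → ℤ) (x y : ZMod m), Disjoint X F →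
    (dg J \ X).card + (8 * L + 3) * N ≤ h → (X \ dg J).card + (8 * L + 3) * N ≤ h →
    (∀ l, 0 ≤ v l) → (∀ l, v l ≠ 0 → cnt F.val l ≤ g) → v (2, z) = 0 →
    (∀ i, ∑ a, v (i, a) = N) → cnt F.val (0, x) ≤ g → cnt F.val (1, y) ≤ g →
    (x, z - x) ∉ F ∪ X → deg X.val + ev 0 x + ev 1 y + v + ev 2 z = η →
    ∃ X' : Finset (ZMod m × ZMod m), Disjoint X' F ∧ deg X'.val = η := by
  induction N with
  | zero =>
    intro X v x y h1 _ _ h4 _ _ h7 _ _ h10 h11
    obtain rfl : v = 0 := funext fun l =>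
      (sum_eq_zero_iff_of_nonneg fun a _ => h4 (l.1, a)).1 (h7 l.1) l.2 (mem_univ _)
    rw [← h11, add_zero, PlexL.dft_add, PlexL.dft_add, PlexL.dft_add, PlexL.dft_deg,
      PlexL.dft_ev0, PlexL.dft_ev1, PlexL.dft_ev2] at hη
    rw [mem_union, not_or] at h10
    refine ⟨insert (x, z - x) X, disjoint_insert_left.2 ⟨h10.1, h1⟩, ?_⟩
    rw [insert_val_of_notMem h10.2, PlexL.deg_cons, ← h11]
    simp only [vec, show z - x = y by linear_combination -hη,
      show x + y = z by linear_combination hη]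
    abel
  | succ N ih =>
    intro X v x y h1 h2 h3 h4 h5 h6 h7 h8 h9 h10 h11
    have ex : ∀ i, ∃ a, v (i, a) ≠ 0 := fun i => by
      by_contra hc
      push Not at hc
      have := h7 i
      simp only [hc, sum_const_zero] at this
      omega
    choose t ht using ex
    obtain ⟨X', x', y', a1, a2, a3, a4, a5, a6, a7⟩ := E.step X (t 0) (t 1) (t 2) x y z h1
      (by omega) (by omega) (h5 _ (ht 0)) (h5 _ (ht 1)) (h5 _ (ht 2)) h8 h9 hz
      fun e => ht 2 (e ▸ h6)
    have e : ∀ l, (ev 0 (t 0) + ev 1 (t 1) + ev 2 (t 2)) l = if l.2 = t l.1 then 1 else 0 := by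
      rintro ⟨i, a⟩
      fin_cases i <;> simp [ev_apply]
    rw [mul_add] at h2 h3
    refine ih X' (v - (ev 0 (t 0) + ev 1 (t 1) + ev 2 (t 2))) x' y' a1 (by omega) (by omega)
      (fun l => ?_) (fun l hl => h5 l fun h0 => hl ?_) ?_ (fun i => ?_) a4 a5 a6 ?_
    · rw [Pi.sub_apply, e]
      have := h4 l
      split_ifs with h
      · have : v l ≠ 0 := by rw [show l = (l.1, t l.1) from Prod.ext rfl h]; exact ht _
        omega
      · omega
    · rw [Pi.sub_apply, e, if_neg, h0, sub_zero]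
      exact fun h => ht l.1 (by rw [← h]; exact h0)
    · rw [Pi.sub_apply, e, if_neg, h6, sub_zero]
      exact fun h => ht 2 (by rw [← h6]; exact congrArg v (Prod.ext rfl h.symm))
    · simp only [Pi.sub_apply, e, sum_sub_distrib, h7, sum_ite_eq', mem_univ, if_true]
      push_cast; ring
    · rw [a7, ← h11]; abel

theorem top_num (β : ℕ) (hβ : 1000000 ≤ β) :
    2 * β ^ 105 + 1 + (8 * (129 * β) + 3) * (4 * β ^ 105) ≤ β ^ 107 ∧
    β ^ 104 + 2 * (300 * β) * β + 300 * β * β ^ 107 + 2 * (300 * β) * 2 + 261 * 261 ≤ β ^ 109 ∧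
    57 * (300 * β) ^ 3 * β ^ 109 < β ^ 127 ∧ 4 * β ^ 105 + β ^ 104 < β ^ 127 ∧
    3 * 261 ^ 4 < β ^ 127 := by
  have p : ∀ a b, a ≤ b → β ^ a ≤ β ^ b := fun a b h => Nat.pow_le_pow_right (by omega) h
  have q : ∀ a, 1000000 * β ^ a ≤ β ^ (a + 1) := fun a => by
    rw [pow_succ']; exact Nat.mul_le_mul_right _ hβ
  have := p 0 1; have := p 1 2; have := p 2 104; have := p 104 105; have := p 105 106
  have := p 106 108; have := p 114 126; have := p 107 126; have := p 2 126
  have := q 106; have := q 108; have := q 112; have := q 113; have := q 126; have := q 0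
  have := q 1
  refine ⟨?_, ?_, ?_, ?_, ?_⟩ <;> ring_nf at * <;> omega

theorem stTop : StTop := by
  intro m β c N _ F η Λ hm hβ m1 m2 c1 c2 dich supp spa hΛ hc hη hN hd
  obtain ⟨n1, n2, n3, n4, n5⟩ := top_num β hβ
  obtain ⟨K, Ks, k1, k2, k3, k4⟩ := exists_kits (m := m) β (by omega) m2
  have hβm : β ≤ m := (Nat.le_self_pow (by norm_num) β).trans m1
  obtain ⟨J, j1, -, j2⟩ := exists_subsuperset_card_eq (n := c)
    (subset_univ (K ∪ univ.biUnion Ks)) ((card_union_le _ _).trans (by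
      have := card_biUnion_le_card_mul univ Ks 261 fun v _ => (k3 v).1
      rw [card_univ, Fintype.card_fin] at this
      omega)) (by rw [card_univ, ZMod.card]; omega)
  have E : Env F J K Ks (129 * β) (300 * β) (β ^ 104) (β ^ 107) (β ^ 109) :=
    ⟨hm, k2, subset_union_left.trans j1, k1, k3,
      fun v => (subset_biUnion_of_mem Ks (mem_univ v)).trans (subset_union_right.trans j1), k4,
      dich, spa, by omega, le_trans (by rw [j2]; gcongr) n2, by omega⟩
  set X := (dg J).filter fun p => p ∉ F ∧ ∀ i, (i, co i p) ∉ Λ with hX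
  have hXs : X ⊆ dg J := filter_subset _ _
  have b1 : (dg J \ X).card ≤ 2 * β ^ 105 := by
    have s1 : dg J \ X ⊆ (J.biUnion fun j => (univ.filter fun τ : ZMod m =>
        ((0 : ZMod m) + (1 : ℕ) * τ, j + (1 : ℕ) * τ) ∈ F).image fun τ => (τ, j + τ)) ∪
        Λ.biUnion fun l => (dg J).filter fun p => co l.1 p = l.2 := by
      intro p hp
      simp only [hX, mem_sdiff, mem_filter, not_and, not_forall, not_not] at hp
      by_cases hF : p ∈ F
      · exact mem_union_left _ (mem_biUnion.2 ⟨_, mem_dg.1 hp.1, mem_image.2 ⟨p.1,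
          by simpa using hF, by simp⟩⟩)
      · obtain ⟨i, hi⟩ := hp.2 hp.1 hF
        exact mem_union_right _ (mem_biUnion.2 ⟨_, hi, mem_filter.2 ⟨hp.1, rfl⟩⟩)
    refine (card_le_card s1).trans ((card_union_le _ _).trans ((add_le_add
      (card_biUnion_le_card_mul _ _ (β ^ 104) fun j _ => card_image_le.trans
        (spa (0, j) 1 1 le_rfl (by omega) le_rfl (by omega)))
      (card_biUnion_le_card_mul _ _ c fun l _ => (cnt_val _ l).ge.trans
        ((cnt_dg hm J l).trans j2).le)).trans ?_))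
    rw [j2, two_mul, pow_succ β 104, mul_comm c]
    gcongr
  have b2 : ∀ l, cnt X.val l + cnt (dg J \ X).val l = c := fun l => by
    have := congrFun (deg_sdiff hXs) l
    rw [Pi.sub_apply, deg_apply, deg_apply, deg_apply, cnt_dg hm, j2] at this
    omega
  have b3 : ∀ l ∈ Λ, cnt X.val l = 0 := fun l hl => card_eq_zero.2 (filter_eq_empty_iff.2
    fun p hp e => (mem_filter.1 hp).2.2 l.1 (by rw [e]; exact hl))
  have b4 : ∀ l, cnt X.val l ≤ η l := fun l => by
    by_cases hl : l ∈ Λ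
    · rw [b3 l hl]; omega
    · rw [hc l hl, ← b2 l]; omega
  have b5 : ∀ i, ∑ a, (η (i, a) - cnt X.val (i, a)) = N - X.card := fun i => by
    rw [sum_tsub_distrib _ fun a _ => b4 _, hN, sum_cnt]; rfl
  have b6 : N - X.card ≤ 4 * β ^ 105 := by
    rw [← b5 0]
    calc _ ≤ ∑ a, ((if (0, a) ∈ Λ then 2 * β else 0) + cnt (dg J \ X).val (0, a)) :=
          sum_le_sum fun a _ => by
            have := hη (0, a)
            have := b2 (0, a)
            split_ifs with h
            · omega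
            · rw [hc _ h]; omega
      _ ≤ β ^ 104 * (2 * β) + 2 * β ^ 105 := by
          rw [sum_add_distrib, sum_cnt, ← sum_filter, sum_const, smul_eq_mul]
          refine add_le_add (Nat.mul_le_mul_right _ (le_trans ?_ hΛ)) b1
          exact card_le_card_of_injOn (fun a => (0, a)) (fun a ha => (mem_filter.1 ha).2)
            fun a _ b _ h => (Prod.ext_iff.1 h).2
      _ = _ := by ring
  obtain ⟨z, hz⟩ := (Few.or (P := fun z => η (2, z) - cnt X.val (2, z) ≠ 0)
    (Q := fun z => (2, z) ∈ Λ) (b := 4 * β ^ 105) (b' := β ^ 104) (Few.of_card (by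
      refine le_trans ?_ ((b5 2).le.trans b6)
      rw [card_filter]
      exact sum_le_sum fun a _ => by split_ifs <;> omega))
    ⟨Λ.image Prod.snd, card_image_le.trans hΛ, fun z h => mem_image.2 ⟨_, h, rfl⟩⟩).ex_not
    (by omega)
  rw [not_or, not_not] at hz
  obtain ⟨p, hp⟩ : (X.filter fun p => co 2 p = z).Nonempty := card_pos.1 (by
    have := hc _ hz.2
    have h1 : cnt X.val (2, z) = (X.filter fun p => co 2 p = z).card := rfl
    omega)
  replace hp := mem_filter.1 hp
  obtain ⟨hp, rfl⟩ := hp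
  have hpF : p ∉ F := (mem_filter.1 (hX ▸ hp :)).2.1
  have hl : ∀ i, cnt F.val (i, co i p) ≤ β ^ 104 := fun i =>
    (dich _).resolve_right fun h => hpF (h p rfl)
  have hm4 : (8 * (129 * β) + 3) * (N - X.card) ≤ (8 * (129 * β) + 3) * (4 * β ^ 105) :=
    Nat.mul_le_mul_left _ b6
  have g1 : (dg J \ X.erase p).card ≤ (dg J \ X).card + 1 :=
    (card_le_card (t := insert p (dg J \ X)) fun q hq => by
      simp only [mem_sdiff, mem_erase, mem_insert] at hq ⊢
      tauto).trans (card_insert_le _ _)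
  have g2 : deg X.val = vec p + deg (X.erase p).val := by
    rw [deg_val, deg_val, add_sum_erase _ _ hp]
  obtain ⟨X', h1, h2⟩ := E.all (fun l => η l) (by
      simp only [dft, natCast_zsmul]; rw [hd, sub_self]) (co 2 p) (hl 2) (N - X.card) (X.erase p)
    (fun l => (η l - cnt X.val l : ℕ)) p.1 p.2
    (disjoint_left.2 fun q hq => (mem_filter.1 (mem_of_mem_erase hq)).2.1) (by omega)
    (by
      rw [sdiff_eq_empty_iff_subset.2 ((erase_subset _ _).trans hXs), card_empty]
      omega)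
    (fun l => Int.natCast_nonneg _) (fun l h => supp l (by omega)) (by simp only [hz.1]; rfl)
    (fun i => by rw [← Nat.cast_sum, b5]) (hl 0) (hl 1) (by simp [hpF]) (by
      funext l
      have e := congrFun g2 l
      have := b4 l
      simp only [vec, Pi.add_apply, deg_apply, PlexL.co_two] at e ⊢
      omega)
  exact ⟨X', h1, fun l => by
    have := congrFun h2 l
    rw [deg_apply] at this
    exact_mod_cast this⟩

end PlexLL
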