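import Pool.Agent.Lib.MP_3d3eb4_co.LL.Dis
import Pool.Agent.Lib.MP_3d3eb4_co.LL.Off
import Pool.Agent.Lib.MP_3d3eb4_co.LL.Hex
import Pool.Agent.Lib.MP_3d3eb4_co.LL.Rep
import Pool.Agent.Lib.MP_3d3eb4_co.LL.Seq
import Pool.Agent.Lib.MP_3d3eb4_co.LL.Dyn
import Pool.Agent.Lib.MP_3d3eb4_co.LL.Fam
import Pool.Agent.Lib.MP_3d3eb4_co.LL.Patch
import Pool.Agent.Lib.MP_3d3eb4_co.LL.Fin
import Pool.Agent.Lib.MP_3d3eb4_co.LL.Top
import Pool.Agent.Lib.MP_3d3eb4_co.LL.Near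
import Pool.Agent.Lib.MP_3d3eb4_co.LL.Main

namespace PlexLL

theorem loglog : StMain :=
  stMain (stDyn stSeq) (stNear (stOff stDis) (stRep stHex) (stPatch stFam) stTop stFin)

end PlexLL
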