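import Pool.Agent.Lib.MP_3d3eb4_co.LL.Few

/-! Moving one unit of demand on a row and on a column in opposite directions. -/

namespace PlexLL

open Finset
open PlexL (co cnt ev vec deg deg_val deg_singleton)

set_option linter.unusedSectionVars false

variable {m : ℕ} [NeZero m] {K Hr : Finset (ZMod m)} {Fb : Finset (ZMod m × ZMod m)}

/-- few cells on the lines of positive slope other than one and small height -/
def Thin (Fb : Finset (ZMod m × ZMod m)) (M g : ℕ) : Prop :=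
  ∀ (x y : ZMod m) (a b : ℤ), 0 < a * b → a ≠ b → |a| ≤ M → |b| ≤ M →
    Few (fun τ => (x + (a : ZMod m) * τ, y + (b : ZMod m) * τ) ∈ Fb) g

theorem chain_few (b k : ZMod m) (κ : ℤ) (f : ℕ → ZMod m) (L M P : ℕ) (hM : 2 * L + 3 ≤ M)
    (hκ : κ = 0 ∨ κ = -(2 * L + 2)) (hT : Thin Fb M P) (hr : κ = 0 → cnt Fb.val (0, b) ≤ P)
    (hH : Hr.card ≤ P) (hP : 1 ≤ P) (hk : k ∈ K) (hf : ∀ i, k + f i ∈ K) :
    Few (fun δ => ¬ Op K (Dg K δ) Hr Fb (2 * L) (ev 0 (b + κ * δ) - ev 0 (b + κ * δ + δ) -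
      ev 0 (b + κ * δ + 2 * L * δ + ∑ i ∈ range L, f i) +
      ev 0 (b + κ * δ + 2 * L * δ + ∑ i ∈ range L, f i + δ))) (6 * M ^ 3 * P) := by
  let s : ℕ → ZMod m := fun n => b + ∑ i ∈ range (n / 2), f i
  let w : ZMod m → ℕ → ZMod m := fun δ n => s n + (((n : ℤ) + κ : ℤ) : ZMod m) * δ
  have E1 : Few (fun δ => ∃ n ∈ Icc 1 (2 * L), w δ n ∈ Hr) ((Icc 1 (2 * L)).card * (M * P)) :=
    Few.bex _ fun n hn => (Few.lin (n + κ) M (by have := mem_Icc.1 hn; omega)
      (by have := mem_Icc.1 hn; rw [abs_le]; omega) _ Hr).mono (Nat.mul_le_mul_left _ hH)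
      fun _ h => h
  have E2 : Few (fun δ => ∃ q ∈ (range (2 * L + 2)).offDiag, w δ q.1 = w δ q.2)
      ((range (2 * L + 2)).offDiag.card * (M * 1)) :=
    Few.bex _ fun q hq => by
      obtain ⟨h1, h2, h3⟩ := mem_offDiag.1 hq
      rw [mem_range] at h1 h2
      refine (Few.lin (q.1 - q.2) M (by omega) (by rw [abs_le]; omega) (s q.1 - s q.2) {0}).mono
        le_rfl fun δ h => ?_
      simp only [w] at h
      rw [mem_singleton]
      push_cast at h ⊢
      linear_combination h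
  have E3 : Few (fun δ => ∃ i ∈ range L, (w δ (2 * i), w δ (2 * i + 2) + k) ∈ Fb)
      ((range L).card * (2 * P)) :=
    Few.bex _ fun i hi => by
      rw [mem_range] at hi
      by_cases h0 : ((2 * i : ℕ) : ℤ) + κ = 0
      · obtain rfl : κ = 0 := by omega
        obtain rfl : i = 0 := by omega
        refine (Few.row Fb b (s 2 + k) 2 2 (by norm_num) (by norm_num)).mono
          (Nat.mul_le_mul_left _ (hr rfl)) fun δ h => ?_
        convert h using 2
        · simp [w, s]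
        · simp only [w]; push_cast; ring
      · refine (hT (s (2 * i)) (s (2 * i + 2) + k) ((2 * i : ℕ) + κ) ((2 * i + 2 : ℕ) + κ) ?_
          (by omega) (by rw [abs_le]; omega) (by rw [abs_le]; omega)).mono (by omega) fun δ h => ?_
        · rcases hκ with h | h
          · exact mul_pos (by omega) (by omega)
          · exact mul_pos_of_neg_of_neg (by omega) (by omega)
        · convert h using 2
          simp only [w]; ring
  have E4 : Few (fun δ => ∃ i ∈ range L, (w δ (2 * i + 3), w δ (2 * i + 1) + k + f i) ∈ Fb)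
      ((range L).card * (2 * P)) :=
    Few.bex _ fun i hi => by
      rw [mem_range] at hi
      refine (hT (s (2 * i + 3)) (s (2 * i + 1) + k + f i) ((2 * i + 3 : ℕ) + κ)
        ((2 * i + 1 : ℕ) + κ) ?_
        (by omega) (by rw [abs_le]; omega) (by rw [abs_le]; omega)).mono (by omega) fun δ h => ?_
      · rcases hκ with h | h
        · exact mul_pos (by omega) (by omega)
        · exact mul_pos_of_neg_of_neg (by omega) (by omega)
      · convert h using 2
        simp only [w]; ring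
  refine (((E1.or E2).or E3).or E4).mono ?_ fun δ h => ?_
  · have a1 : (range (2 * L + 2)).offDiag.card ≤ M * M := by
      rw [offDiag_card, card_range]
      exact (Nat.sub_le _ _).trans (Nat.mul_le_mul (by omega) (by omega))
    rw [Nat.card_Icc, card_range]
    have b0 : M * P ≤ M * (M * P) := Nat.le_mul_of_pos_left _ (by omega)
    have b1 : M * (M * P) ≤ M * (M * (M * P)) := Nat.le_mul_of_pos_left _ (by omega)
    have b2 : (2 * L + 1 - 1) * (M * P) ≤ M * (M * P) := Nat.mul_le_mul_right _ (by omega)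
    have b3 : _ * (M * 1) ≤ M * M * (M * P) := Nat.mul_le_mul a1 (Nat.mul_le_mul_left _ hP)
    have b4 : L * (2 * P) ≤ M * (2 * P) := Nat.mul_le_mul_right _ (by omega)
    nlinarith
  · by_contra hc
    simp only [not_or, not_exists, not_and] at hc
    obtain ⟨⟨⟨c1, c2⟩, c3⟩, c4⟩ := hc
    have := chain (K := K) (Hr := Hr) (Fb := Fb) (w δ) f k δ L
      (fun i => by
        simp only [w, s, show (2 * i + 1) / 2 = i by omega, show 2 * i / 2 = i by omega]
        push_cast; ring)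
      (fun i => by
        simp only [w, s, show (2 * i + 1) / 2 = i by omega, show (2 * i + 2) / 2 = i + 1 by omega,
          sum_range_succ]
        push_cast; ring)
      (fun n hn n' hn' e => by
        by_contra hne
        exact c2 (n, n') (mem_offDiag.2 ⟨mem_range.2 (by omega), mem_range.2 (by omega), hne⟩) e)
      (fun n h1 h2 => c1 n (mem_Icc.2 ⟨h1, h2⟩)) (fun i hi => c3 i (mem_range.2 hi))
      (fun i hi => c4 i (mem_range.2 hi)) hk hf
    have e0 : w δ 0 = b + κ * δ := by simp [w, s]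
    have e1 : w δ 1 = b + κ * δ + δ := by simp only [w, s]; simp; ring
    have e2 : w δ (2 * L) = b + κ * δ + 2 * L * δ + ∑ i ∈ range L, f i := by
      simp only [w, s, show 2 * L / 2 = L by omega]; push_cast; ring
    have e3 : w δ (2 * L + 1) = b + κ * δ + 2 * L * δ + ∑ i ∈ range L, f i + δ := by
      simp only [w, s, show (2 * L + 1) / 2 = L by omega]; push_cast; ring
    rw [e0, e1, e2, e3] at this
    exact h this

/-- every residue is a sum of `L` differences `k' - k`, `k' ∈ K` -/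
def Gen (L : ℕ) (K : Finset (ZMod m)) (k : ZMod m) : Prop :=
  k ∈ K ∧ ∀ S, ∃ f : ℕ → ZMod m, (∀ i, k + f i ∈ K) ∧ ∑ i ∈ range L, f i = S

/-- a set of diagonals that supports two chains and one more cell -/
def Kit (L : ℕ) (K : Finset (ZMod m)) : Prop :=
  ∃ (K1 K2 : Finset (ZMod m)) (k1 k2 k3 : ZMod m), K1 ∪ K2 ∪ {k3} = K ∧ Disjoint K1 K2 ∧
    k3 ∉ K1 ∪ K2 ∧ Gen L K1 k1 ∧ Gen L K2 k2

theorem dis_Dg {K K' : Finset (ZMod m)} {δ δ' : ZMod m}
    (h : ∀ k ∈ K, ∀ k' ∈ K', k - k' ≠ 2 * (δ - δ') ∧ k - k' ≠ -(2 * (δ - δ')) ∧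
      k - k' ≠ 2 * (δ + δ') ∧ k - k' ≠ -(2 * (δ + δ'))) : Disjoint (Dg K δ) (Dg K' δ') := by
  rw [disjoint_left]
  intro x hx hx'
  obtain ⟨k, hk, e⟩ := mem_Dg.1 hx
  obtain ⟨k', hk', e'⟩ := mem_Dg.1 hx'
  obtain ⟨h1, h2, h3, h4⟩ := h k hk k' hk'
  rcases e with e | e <;> rcases e' with e' | e'
  · exact h2 (by linear_combination e' - e)
  · exact h4 (by linear_combination e' - e)
  · exact h3 (by linear_combination e' - e)
  · exact h1 (by linear_combination e' - e)

theorem few_four (K K' : Finset (ZMod m)) (x : ZMod m) :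
    Few (fun δ => ∃ q ∈ K ×ˢ K', q.1 - q.2 = 2 * (δ + (δ - x)) ∨ q.1 - q.2 = -(2 * (δ + (δ - x))))
      (K.card * K'.card * 8) := by
  rw [← card_product]
  refine Few.bex _ fun q _ => (Few.lin 4 4 (by norm_num) (by norm_num) (-(2 * x))
    {q.1 - q.2, -(q.1 - q.2)}).mono ((Nat.mul_le_mul_left _ card_le_two)) fun δ h => ?_
  simp only [mem_insert, mem_singleton]
  push_cast
  exact h.imp (fun h => by linear_combination -h) fun h => by linear_combination h

theorem alpha (r c : ZMod m) (L M P : ℕ) (hK : Kit L K) (hM : 2 * L + 3 ≤ M) (hT : Thin Fb M P)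
    (hr : cnt Fb.val (0, r) ≤ P) (hc : cnt Fb.val (1, c) ≤ P) (hH : Hr.card ≤ P) (hP : 1 ≤ P)
    (hKP : K.card * K.card ≤ P) :
    Few (fun δ => ¬ Op K (Dg K δ) Hr Fb (4 * L + 1)
      (ev 0 r - ev 0 (r + δ) + ev 1 c - ev 1 (c - δ))) (23 * M ^ 3 * P) := by
  obtain ⟨K1, K2, k1, k2, k3, rfl, d1, d2, ⟨g1, g1'⟩, g2, g2'⟩ := hK
  choose f1 p1 q1 using g1'
  choose f2 p2 q2 using g2'
  have E1 := Few.two
    (fun S => chain_few r k1 0 (f1 S) L M P hM (.inl rfl) hT (fun _ => hr) hH hP g1 (p1 S))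
    (fun S => chain_few (c - k3 - S) k2 (-(2 * L + 2)) (f2 S) L M P hM (.inr rfl) hT
      (fun h => by omega) hH hP g2 (p2 S)) (fun δ => c - k3 - (4 * L + 2) * δ - r)
  have E2 := Few.col Fb (c - k3) c (-2) 2 (by norm_num) (by norm_num)
  have E3 := Few.lin (-1) 1 (by norm_num) (by norm_num) (c - k3) Hr
  have E4 := few_four (K1 ∪ K2 ∪ {k3}) (K1 ∪ K2 ∪ {k3}) 0
  refine (((E1.or E2).or E3).or E4).mono ?_ fun δ h => ?_
  · have : P ≤ M ^ 3 * P := Nat.le_mul_of_pos_left _ (pow_pos (by omega) _)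
    nlinarith
  by_contra hc
  simp only [not_or, not_not] at hc
  obtain ⟨⟨⟨⟨e, c1, c2⟩, c3⟩, c4⟩, c5⟩ := hc
  have dd : ∀ A B : Finset (ZMod m), A ⊆ K1 ∪ K2 ∪ {k3} → B ⊆ K1 ∪ K2 ∪ {k3} → Disjoint A B →
      Disjoint (Dg A δ) (Dg B δ) := fun A B hA hB hd => dis_Dg fun k hk k' hk' => by
    have ne : k - k' ≠ 0 := sub_ne_zero.2 fun e => disjoint_left.1 hd hk (e ▸ hk')
    have := fun h => c5 ⟨(k, k'), mem_product.2 ⟨hA hk, hB hk'⟩, h⟩
    simp only [sub_zero] at this
    exact ⟨by simpa using ne, by simpa using ne, fun e => this (.inl e), fun e => this (.inr e)⟩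
  have o3 : Op {k3} (Dg {k3} δ) Hr Fb 1
      (ev 0 (c - k3 - 2 * δ) - ev 0 (c - k3 - δ) + ev 1 c - ev 1 (c - δ)) := by
    refine ⟨{(c - k3 - 2 * δ, c)}, {(c - k3 - δ, c - δ)}, ?_, ?_, by simp, by simp, ?_⟩
    · simp only [mem_singleton, forall_eq]
      exact ⟨by convert c3 using 3; push_cast; ring,
        mem_Dg.2 ⟨k3, mem_singleton_self _, .inl (by ring)⟩⟩
    · simp only [mem_singleton, forall_eq]
      exact ⟨by convert c4 using 2; push_cast; ring, by ring⟩
    · simp only [singleton_val, deg_singleton, vec,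
        show c - k3 - 2 * δ + c = c - k3 - δ + (c - δ) by ring]
      abel
  have du : Dg K1 δ ∪ Dg K2 δ = Dg (K1 ∪ K2) δ := by
    simp only [Dg, image_union]; ac_rfl
  have du' : Dg (K1 ∪ K2) δ ∪ Dg {k3} δ = Dg (K1 ∪ K2 ∪ {k3}) δ := by
    simp only [Dg, image_union]; ac_rfl
  have o := c1.add c2 d1 (dd _ _ (subset_union_left.trans subset_union_left)
    (subset_union_right.trans subset_union_left) d1)
  rw [du] at o
  have o' := o.add o3 (disjoint_singleton_right.2 d2) (dd _ _ subset_union_left subset_union_right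
    (disjoint_singleton_right.2 d2))
  rw [du', q1, q2] at o'
  apply h
  convert o' using 1
  · ring
  · push_cast
    rw [show c - k3 - (c - k3 - (4 * L + 2) * δ - r - e) + -(2 * L + 2) * δ =
        r + 0 * δ + 2 * L * δ + e by ring,
      show r + 0 * δ + 2 * L * δ + e + 2 * L * δ + (c - k3 - (4 * L + 2) * δ - r - e) =
        c - k3 - 2 * δ by ring, show c - k3 - 2 * δ + δ = c - k3 - δ by ring, zero_mul, add_zero]
    abel

theorem digits (β Q : ℕ) : ∀ n < β ^ Q, ∃ f : ℕ → ℕ, (∀ i, f i = 0 ∨ ∃ q < Q, f i = β ^ q) ∧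
    ∑ i ∈ range (Q * β), f i = n := by
  induction Q with
  | zero => exact fun n hn => ⟨0, fun _ => .inl rfl, by simp at hn; simp [hn]⟩
  | succ Q ih =>
    intro n hn
    have hβ : 0 < β ^ Q := by
      rcases Nat.eq_zero_or_pos (β ^ Q) with h | h
      · rw [pow_succ, h] at hn; omega
      · exact h
    obtain ⟨f, h1, h2⟩ := ih (n % β ^ Q) (Nat.mod_lt _ hβ)
    have ht : n / β ^ Q < β := Nat.div_lt_of_lt_mul (by rwa [← pow_succ])
    refine ⟨fun i => if i < Q * β then f i else if i - Q * β < n / β ^ Q then β ^ Q else 0,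
      fun i => ?_, ?_⟩
    · dsimp only
      split_ifs
      · exact (h1 i).imp id fun ⟨q, hq, e⟩ => ⟨q, by omega, e⟩
      · exact .inr ⟨Q, by omega, rfl⟩
      · exact .inl rfl
    · rw [Nat.succ_mul, sum_range_add, sum_congr rfl fun i hi => if_pos (mem_range.1 hi), h2,
        sum_congr rfl fun i _ => if_neg (by omega)]
      simp only [Nat.add_sub_cancel_left]
      rw [← sum_filter, sum_const, smul_eq_mul,
        show (range β).filter (· < n / β ^ Q) = range (n / β ^ Q) by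
          ext; simp only [mem_filter, mem_range]; omega, card_range]
      exact Nat.mod_add_div' _ _

theorem Gen.shift {L : ℕ} {k : ZMod m} (h : Gen L K k) (x : ZMod m) :
    Gen L (K.image (x + ·)) (x + k) :=
  ⟨mem_image_of_mem _ h.1, fun S => let ⟨f, h1, h2⟩ := h.2 S
    ⟨f, fun i => mem_image.2 ⟨_, h1 i, (add_assoc _ _ _).symm⟩, h2⟩⟩

theorem Kit.shift {L : ℕ} (h : Kit L K) (x : ZMod m) : Kit L (K.image (x + ·)) := by
  obtain ⟨K1, K2, k1, k2, k3, rfl, d1, d2, g1, g2⟩ := h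
  refine ⟨_, _, _, _, x + k3, ?_, (disjoint_image (add_right_injective x)).2 d1, ?_, g1.shift x,
    g2.shift x⟩
  · simp only [image_union, image_singleton]
  · rw [← image_union]
    exact fun h => d2 ((add_right_injective x).mem_finset_image.1 h)

theorem exists_kit (β : ℕ) (h1 : 20000 < m) (h2 : m ≤ β ^ 129) :
    ∃ K : Finset (ZMod m), K.card ≤ 261 ∧ Kit (129 * β) K := by
  obtain ⟨B, hBd⟩ : ∃ B : Finset (ZMod m),
    B = insert 0 ((range 129).image fun q => ((β ^ q : ℕ) : ZMod m)) := ⟨_, rfl⟩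
  have hB : B.card ≤ 130 := hBd ▸ (card_insert_le _ _).trans
    (Nat.succ_le_succ (card_image_le.trans (by simp)))
  have g : Gen (129 * β) B 0 := ⟨hBd ▸ mem_insert_self _ _, fun S => by
    obtain ⟨f, f1, f2⟩ := digits β 129 S.val ((ZMod.val_lt S).trans_le h2)
    refine ⟨fun i => f i, fun i => ?_, by rw [← Nat.cast_sum, f2, ZMod.natCast_zmod_val]⟩
    rcases f1 i with h | ⟨q, hq, h⟩ <;> simp only [h, zero_add]
    · simp [hBd]
    · exact hBd ▸ mem_insert_of_mem (mem_image.2 ⟨q, mem_range.2 hq, rfl⟩)⟩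
  obtain ⟨x, hx⟩ := (Few.bex (B ×ˢ B) (P := fun q x => x = q.1 - q.2) (b := 1)
    fun q _ => ⟨{q.1 - q.2}, by simp, fun _ h => mem_singleton.2 h⟩).ex_not
    (by rw [card_product]; nlinarith)
  have hc : (B ∪ B.image (x + ·)).card ≤ 260 :=
    (card_union_le _ _).trans (by have := card_image_le (s := B) (f := (x + ·)); omega)
  obtain ⟨z, hz⟩ := (show Few (· ∈ B ∪ B.image (x + ·)) 260 from ⟨_, hc, fun _ h => h⟩).ex_not
    (by omega)
  clear hBd
  refine ⟨_, (card_union_le _ _).trans (by rw [card_singleton]; omega), B, _, _, _, z, rfl, ?_, hz,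
    g, g.shift x⟩
  rw [disjoint_left]
  intro b hb hb'
  obtain ⟨b', h, rfl⟩ := mem_image.1 hb'
  exact hx ⟨(x + b', b'), mem_product.2 ⟨hb, h⟩, (add_sub_cancel_right _ _).symm⟩

theorem exists_kits (β : ℕ) (h1 : 3 * 261 ^ 4 < m) (h2 : m ≤ β ^ 129) :
    ∃ (K : Finset (ZMod m)) (Ks : Fin 3 → Finset (ZMod m)), K.card ≤ 261 ∧ Kit (129 * β) K ∧
      (∀ v, (Ks v).card ≤ 261 ∧ Kit (129 * β) (Ks v) ∧ Disjoint K (Ks v)) ∧
      ∀ x, ∃ v, ∀ k ∈ K, ∀ k' ∈ Ks v, k - k' ≠ x ∧ k - k' ≠ -x := by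
  obtain ⟨K, c, hK⟩ := exists_kit (m := m) β (by omega) h2
  let R : ZMod m → ZMod m → Prop := fun y x =>
    ∃ q ∈ (K ×ˢ K) ×ˢ (K ×ˢ K), x = y + (q.1.1 - q.1.2 + (q.2.1 - q.2.2))
  have F : ∀ y, Few (R y) (261 ^ 4) := fun y => (Few.bex _ (b := 1) fun q _ =>
    ⟨{y + (q.1.1 - q.1.2 + (q.2.1 - q.2.2))}, by simp, fun _ h => mem_singleton.2 h⟩).mono
    (by simp only [card_product]; calc _ = K.card ^ 4 := by ring
        _ ≤ _ := Nat.pow_le_pow_left c 4) fun _ h => h
  obtain ⟨x0, a0⟩ := (F 0).ex_not (by omega)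
  obtain ⟨x1, a1⟩ := ((F 0).or (F x0)).ex_not (by omega)
  obtain ⟨x2, a2⟩ := (((F 0).or (F x0)).or (F x1)).ex_not (by omega)
  simp only [not_or] at a1 a2
  have dj : ∀ x, ¬ R 0 x → Disjoint K (K.image (x + ·)) := fun x hx => by
    rw [disjoint_left]
    intro b hb hb'
    obtain ⟨b', h, rfl⟩ := mem_image.1 hb'
    exact hx ⟨((x + b', b'), (b', b')), by simp [hb, h], by simp⟩
  let T : ZMod m → ZMod m → Prop := fun x z => ∃ k ∈ K, ∃ k' ∈ K, k - (x + k') = z
  have tw : ∀ y x z, ¬ R y x → T y z → T x z → False := by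
    rintro y x z h ⟨a, ha, b, hb, e⟩ ⟨a', ha', b', hb', e'⟩
    exact h ⟨((a', b'), (b, a)), by simp [*], by simp only; linear_combination e - e'⟩
  refine ⟨K, fun v => K.image (![x0, x1, x2] v + ·), c, hK,
    fun v => ⟨card_image_le.trans c, hK.shift _, dj _ ?_⟩, fun z => ?_⟩
  · fin_cases v
    exacts [a0, a1.1, a2.1.1]
  · by_contra hc
    have : ∀ v, T (![x0, x1, x2] v) z ∨ T (![x0, x1, x2] v) (-z) := fun v => by
      by_contra hn
      refine hc ⟨v, fun k hk k' hk' => ?_⟩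
      obtain ⟨b, hb, rfl⟩ := mem_image.1 hk'
      exact ⟨fun e => hn (.inl ⟨k, hk, b, hb, e⟩), fun e => hn (.inr ⟨k, hk, b, hb, e⟩)⟩
    rcases this 0 with t0 | t0 <;> rcases this 1 with t1 | t1 <;> rcases this 2 with t2 | t2
    all_goals first
      | exact tw _ _ _ a1.2 t0 t1
      | exact tw _ _ _ a2.1.2 t0 t2
      | exact tw _ _ _ a2.2 t1 t2

end PlexLL
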