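import Pool.Agent.Lib.MP_3d3eb4_co.Defs
import Pool.Agent.Lib.MP_3d3eb4_co.Square
import Pool.Agent.Lib.MP_3d3eb4_co.PL.Defs

/-! Plexes of order `n - O(log log n)`: shared definitions and the statements of the steps. -/

namespace PlexLL

open Finset
open Pool.Agent.Lib.MP_3d3eb4_co (ev evt sqv Good IsLatinSquare IsIndivisiblePlex)
open PlexL (co cnt)

set_option linter.unusedSectionVars false

section
variable {G : Type} [AddCommGroup G] [Fintype G] [DecidableEq G]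

/-- row, column and symbol of a triple -/
def tc (i : Fin 3) (t : G × G × G) : G := ![t.1, t.2.1, t.2.2] i

/-- number of triples on a line -/
def tn (Q : Multiset (G × G × G)) (l : Fin 3 × G) : ℕ :=
  (Q.filter fun t => tc l.1 t = l.2).card

/-- the cells of the addition table on no removed line -/
def T0 (Rm : Fin 3 → Finset G) : Finset (G × G) := univ.filter fun p => ∀ i, co i p ∉ Rm i

/-- the pair sums of a latin square on the remaining labels -/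
def Tg (Rm : Fin 3 → Finset G) (a b c : G → G → ℤ) : ℤ :=
  ∑ p ∈ univ.filter (fun p : G × G => p.1 ∉ Rm 0 ∧ p.2 ∉ Rm 1), a p.1 p.2 +
  ∑ p ∈ univ.filter (fun p : G × G => p.1 ∉ Rm 0 ∧ p.2 ∉ Rm 2), b p.1 p.2 +
  ∑ p ∈ univ.filter (fun p : G × G => p.1 ∉ Rm 1 ∧ p.2 ∉ Rm 2), c p.1 p.2

/-- table cells outside `U`, plus the triples `Q`, minus the triples `Z`, cover all pairs once -/
def Bal (Rm : Fin 3 → Finset G) (U : Finset (G × G)) (Q Z : Multiset (G × G × G)) : Prop :=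
  ∀ a b c : G → G → ℤ, ∑ p ∈ T0 Rm \ U, evt a b c p + (Q.map (ev a b c)).sum =
    Tg Rm a b c + (Z.map (ev a b c)).sum

/-- small trades with boundedly many cells on each line -/
structure IsOff (off : G → Finset (G × G)) (s : ℕ) : Prop where
  card : ∀ w, (off w).card ≤ s
  load : ∀ w l, cnt (off w).val l ≤ 400
  zero : off 0 = {(0, 0)}
  tr : ∀ w, ∃ B : Multiset (G × G × G), ∀ a b c : G → G → ℤ,
    ∑ p ∈ off w, evt a b c p = ev a b c (0, 0, w) + (B.map (ev a b c)).sum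

/-- the three table cells sharing a pair with a triple are not in use -/
def Cor (Rm : Fin 3 → Finset G) (U : Finset (G × G)) (t : G × G × G) : Prop :=
  (t.1, t.2.1) ∉ T0 Rm \ U ∧ (t.1, t.2.2 - t.1) ∉ T0 Rm \ U ∧ (t.2.2 - t.2.1, t.2.1) ∉ T0 Rm \ U

@[simp] theorem tc_zero (t : G × G × G) : tc 0 t = t.1 := rfl
@[simp] theorem tc_one (t : G × G × G) : tc 1 t = t.2.1 := rfl
@[simp] theorem tc_two (t : G × G × G) : tc 2 t = t.2.2 := rfl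

end

/-- the slope `t` is produced from the slopes `u` and `v` -/
def Mv {R : Type} [CommRing R] (u v t : R) : Prop := u * (v - 1) = v * (t - 1)

/-- the chain of slopes -/
structure Chn (m k : ℕ) (t : ℕ → ZMod m) : Prop where
  unit : ∀ i ≤ 3 * k + 3, IsUnit (t i) ∧ IsUnit (t i - 1)
  h0 : 2 * t 0 = 1
  h1 : 2 * t 1 = 3
  h2 : 2 * t 2 = 5
  h3 : 3 * t 3 = 4
  a1 : ∀ i < k, Mv (t (3 * i + 3)) (t (3 * i + 2)) (t (3 * i + 4))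
  a2 : ∀ i < k, Mv (t (3 * i + 4)) (t (3 * i + 3)) (t (3 * i + 5))
  c1 : ∀ i < k, Mv (t (3 * i + 2)) (t (3 * i + 4)) (t (3 * i + 6))
  e1 : Mv (t (3 * k + 3)) (t (3 * k + 2)) 0
  e2 : Mv (t (3 * k + 2)) (t (3 * k + 3)) (t 0)

/-- size of the kernel of a multiplication -/
def ker {m : ℕ} [NeZero m] (x : ZMod m) : ℕ := (univ.filter fun z => x * z = 0).card

/-- the slopes are far from each other and from small negative fractions -/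
structure Far (m k g L : ℕ) [NeZero m] (t : ℕ → ZMod m) : Prop where
  pair : ∀ i ≤ 3 * k + 3, ∀ j ≤ 3 * k + 3, i ≠ j → ker (t i - t j) ≤ g
  dir : ∀ i ≤ 3 * k + 3, ∀ a b : ℕ, 1 ≤ a → a ≤ L → 1 ≤ b → b ≤ L → ker ((a : ZMod m) * t i + (b : ZMod m)) ≤ g

/-- few cells of `F` on each line of positive slope and small height -/
def Spa {m : ℕ} [NeZero m] (F : Finset (ZMod m × ZMod m)) (L g : ℕ) : Prop :=
  ∀ (p : ZMod m × ZMod m) (a b : ℕ), 1 ≤ a → a ≤ L → 1 ≤ b → b ≤ L →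
    (univ.filter fun τ : ZMod m => (p.1 + a * τ, p.2 + b * τ) ∈ F).card ≤ g

/-- the affine patch with its defects -/
structure Pat (m d N L : ℕ) [NeZero m] (Rm : Fin 3 → Finset (ZMod m))
    (U : Finset (ZMod m × ZMod m)) (Q Z : Multiset (ZMod m × ZMod m × ZMod m))
    (Λ : Finset (Fin 3 × ZMod m)) : Prop where
  card : ∀ i, (Rm i).card = 2
  sig : ∑ x ∈ Rm 0, x + ∑ x ∈ Rm 1, x = ∑ x ∈ Rm 2, x + 2
  sub : U ⊆ T0 Rm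
  bal : Bal Rm U Q Z
  off : ∀ t ∈ Z, ∀ i, tc i t ∉ Rm i
  cor : ∀ t ∈ Z, Cor Rm U t
  lU : ∀ l, cnt U.val l ≤ 30 * d
  lQ : ∀ l, tn Q l ≤ 30 * d
  lZ : ∀ l, tn Z l ≤ 30 * d
  nZ : Z.card ≤ N
  nΛ : Λ.card ≤ N
  reg : ∀ l ∉ Λ, cnt (T0 Rm \ U).val l + d + 2 = m
  spa : Spa U L N

/-- the white lines -/
def wl {m : ℕ} (t : ℕ → ZMod m) (i : ℕ) (x : ZMod m) : ZMod m × ZMod m :=
  (x, -(t i * x) - if i = 1 then 2 else 0)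

/-- the orbit of `5` under `y ↦ 2 (y ^ 2 + y - 1) / (y (y - 1))` in lowest terms -/
structure Orb (k m : ℕ) (a b : ℕ → ℕ) : Prop where
  a0 : a 0 = 5
  b0 : b 0 = 1
  odd : Odd m
  three : ¬ 3 ∣ m
  fin : 3 * m + b k = 2 * a k
  lo : ∀ i, 2 * b i < a i
  hi : ∀ i, a i ≤ 5 * b i
  g1 : ∀ i, a i ^ 2 ≤ a (i + 1)
  g2 : ∀ i, a (i + 1) ≤ 3 * a i ^ 2
  step : ∀ i, (a (i + 1) : ℤ) * (a i * (a i - b i)) =
    b (i + 1) * (2 * ((a i : ℤ) ^ 2 + a i * b i - (b i : ℤ) ^ 2))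
  m3 : ∀ i, (a i + b i) % 3 = 0 ∧ b i % 3 ≠ 0
  ub : ∀ i, IsUnit (b i : ZMod m)
  ua : ∀ i, IsUnit (a i : ZMod m)
  uab : ∀ i, IsUnit ((a i : ZMod m) - b i)
  sep : ∀ i j, i < j → j ≤ k + 1 → IsUnit ((a i : ZMod m) * b j - a j * b i)

def StDis : Prop := ∀ j K : ℕ, 5 ≤ K → K ≤ 2 ^ j →
  ∃ (Sq : List (ℤ × ℤ × ℤ)) (W : List (ℤ × ℤ)) (q : ℤ × ℤ × ℤ) (e : ℕ),
    (q.2.2 = 2 ^ e ∨ q.2.2 = -2 ^ e) ∧ W.length ≤ 18 * j + 28 ∧ W.Nodup ∧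
    (∀ p ∈ W, Good (K + 3) K p) ∧
    (∀ f g : ℤ → ℤ → ℤ, sqv f g q + (Sq.map (sqv f g)).sum =
      f 0 0 + f (K + 3) K + g 0 K + g (K + 3) 0 + (W.map fun p => f p.1 p.2 + g p.1 p.2).sum) ∧
    ∀ v : ℤ, W.countP (fun p => p.1 = v) ≤ 316 ∧ W.countP (fun p => p.2 = v) ≤ 316 ∧
      W.countP (fun p => p.1 + p.2 = v) ≤ 316

def StSeq : Prop := ∀ K : ℕ, ∃ (k m : ℕ) (a b : ℕ → ℕ), K ≤ k ∧ Orb k m a b

def StFam : Prop := ∀ (m k : ℕ) [NeZero m] (t : ℕ → ZMod m), Chn m k t →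
  ∃ Bk : Multiset (ZMod m × ZMod m × ZMod m), (∀ l, tn Bk l = 3 * k + 6) ∧
    ∀ a b c : ZMod m → ZMod m → ℤ, (Bk.map (ev a b c)).sum =
      ∑ i ∈ range (3 * k + 4), ∑ x, evt a b c (wl t i x) +
      ∑ x, (a x (-3 - x) + a x (4 - x) + b x x + b x (x + 3) + c x (x - 2) + c x (x + 2))

def StOff : Prop := ∀ (m j : ℕ) [NeZero m], Odd m → m ≤ 2 ^ j →
  ∃ off : ZMod m → Finset (ZMod m × ZMod m), IsOff off (18 * j + 32)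

def StHex : Prop := ∀ (m s D h : ℕ) [NeZero m] (off : ZMod m → Finset (ZMod m × ZMod m))
  (U : Finset (ZMod m × ZMod m)) (H : Fin 3 → Finset (ZMod m)) (x y : Fin 3 → ZMod m),
  IsOff off s → (∀ l, cnt U.val l ≤ D) → (∀ i, (H i).card ≤ h) → (∀ i, x i ∈ H i ∧ y i ∈ H i) →
  111 * s * D + 333 * s * h + 4107 * s * s < m →
  ∃ (W : Finset (ZMod m × ZMod m)) (B : Multiset (ZMod m × ZMod m × ZMod m)),
    Disjoint W U ∧ W.card ≤ 37 * s ∧ (∀ l, cnt W.val l ≤ 14800) ∧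
    (∀ i a, a ∈ H i → cnt W.val (i, a) ≤ 4) ∧
    (∀ p ∈ W, ∀ i, co i p ∈ H i → co i p = x i ∨ co i p = y i) ∧
    (∀ t ∈ B, ∀ i, (∀ j, j ≠ i → tc j t ∈ H j) → tc i t ∉ H i ∧ ∃ p ∈ W, co i p = tc i t) ∧
    (∀ i, (B.filter fun t => ∀ j, j ≠ i → tc j t ∈ H j).card ≤ 6) ∧
    ∀ a b c : ZMod m → ZMod m → ℤ, (B.map (ev a b c)).sum = ∑ p ∈ W, evt a b c p +
      (a (x 0) (x 1) + c (x 1) (x 2) + b (y 0) (x 2) + a (y 0) (y 1) + c (y 1) (y 2) +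
        b (x 0) (y 2))

def StRep : Prop := ∀ (m s D N : ℕ) [NeZero m] (off : ZMod m → Finset (ZMod m × ZMod m))
  (Rm : Fin 3 → Finset (ZMod m)) (U₀ : Finset (ZMod m × ZMod m))
  (Q₀ Z : Multiset (ZMod m × ZMod m × ZMod m)) (w : ZMod m),
  IsOff off s → 1 ≤ s → (∀ i, (Rm i).card ≤ 2) → U₀ ⊆ T0 Rm → Bal Rm U₀ Q₀ Z →
  (∀ t ∈ Z, ∀ i, tc i t ∉ Rm i) → (∀ t ∈ Z, Cor Rm U₀ t) →
  (∀ l, cnt U₀.val l ≤ D) → (∀ l, tn Q₀ l ≤ D) → (∀ l, tn Z l ≤ D) → Z.card ≤ N →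
  1000 * s * D + 10000000 * s * s * (N + 1) < m →
  ∃ (U : Finset (ZMod m × ZMod m)) (Q : Multiset (ZMod m × ZMod m × ZMod m)) (r c : ZMod m),
    U₀ ⊆ U ∧ U ⊆ T0 Rm ∧ (U \ U₀).card ≤ 37 * s * (N + 1) ∧
    (∀ l, cnt U.val l ≤ 9 * D + 16000) ∧ Bal Rm U Q 0 ∧ (r, c) ∈ U ∧ (r, c, r + c + w) ∈ Q

def StDyn : Prop := ∀ K : ℕ, ∃ (k n β : ℕ) (t : ℕ → ZMod (n + 2)),
  K ≤ β ∧ Odd n ∧ β ^ 127 ≤ n + 2 ∧ n + 2 ≤ β ^ 129 ∧ 2 ^ 2 ^ k ≤ n + 2 ∧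
  Chn (n + 2) k t ∧ Far (n + 2) k (β ^ 97) (300 * β) t

def StPatch : Prop := ∀ (m k g L : ℕ) [NeZero m] (t : ℕ → ZMod m), Odd m → 100 ≤ m → 1 ≤ L →
  L ≤ g → Chn m k t → Far m k g L t →
  ∃ Rm U Q Z Λ, Pat m (3 * k + 6) (20 * (3 * k + 6) ^ 2 * g) L Rm U Q Z Λ

def StTop : Prop := ∀ (m β c N : ℕ) [NeZero m] (F : Finset (ZMod m × ZMod m))
  (η : Fin 3 × ZMod m → ℕ) (Λ : Finset (Fin 3 × ZMod m)),
  Odd m → 1000000 ≤ β → β ^ 127 ≤ m → m ≤ β ^ 129 → 3000 ≤ c → c ≤ β →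
  (∀ l, cnt F.val l ≤ β ^ 104 ∨ ∀ p, co l.1 p = l.2 → p ∈ F) →
  (∀ l, η l ≠ 0 → cnt F.val l ≤ β ^ 104) → Spa F (300 * β) (β ^ 104) →
  Λ.card ≤ β ^ 104 → (∀ l ∉ Λ, η l = c) → (∀ l, η l ≤ 2 * β) → (∀ i, ∑ a, η (i, a) = N) →
  ∑ a, η (0, a) • a + ∑ a, η (1, a) • a = ∑ a, η (2, a) • a →
  ∃ X : Finset (ZMod m × ZMod m), Disjoint X F ∧ ∀ l, cnt X.val l = η l

def StFin : Prop := ∀ (n k : ℕ) (Rm : Fin 3 → Finset (ZMod (n + 2)))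
  (U K : Finset (ZMod (n + 2) × ZMod (n + 2)))
  (Q : Multiset (ZMod (n + 2) × ZMod (n + 2) × ZMod (n + 2))) (r c : ZMod (n + 2)),
  Odd n → k ≤ n → (∀ i, (Rm i).card = 2) →
  ∑ x ∈ Rm 0, x + ∑ x ∈ Rm 1, x = ∑ x ∈ Rm 2, x + 2 → Bal Rm U Q 0 → (r, c) ∈ U →
  (r, c, r + c + 2 * k) ∈ Q → K ⊆ T0 Rm \ U →
  (∀ i a, a ∉ Rm i → cnt K.val (i, a) + (if tc i (r, c, r + c + 2 * k) = a then 1 else 0) = k) →
  ∃ (L : Fin n → Fin n → Fin n) (P : Finset (Fin n × Fin n)),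
    IsLatinSquare L ∧ IsIndivisiblePlex L k P

/-- the pairs `(n - D, n)` occur for the special orders -/
def StNear : Prop := ∀ (k n β D : ℕ) (t : ℕ → ZMod (n + 2)), 1000000 ≤ β → Odd n →
  β ^ 127 ≤ n + 2 → n + 2 ≤ β ^ 129 → Chn (n + 2) k t → Far (n + 2) k (β ^ 97) (300 * β) t →
  3000 * (3 * k + 6) ≤ D → D ≤ β →
  ∃ (L : Fin n → Fin n → Fin n) (P : Finset (Fin n × Fin n)),
    IsLatinSquare L ∧ IsIndivisiblePlex L (n - D) P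

/-- the final statement -/
def StMain : Prop := ∃ C : ℝ, ∀ N : ℕ, ∃ n : ℕ, N ≤ n ∧ ∀ k : ℕ, 1 ≤ k →
  (k : ℝ) ≤ (n : ℝ) - C * Real.log (Real.log (n : ℝ)) →
  ∃ (L : Fin n → Fin n → Fin n) (P : Finset (Fin n × Fin n)),
    IsLatinSquare L ∧ IsIndivisiblePlex L k P

end PlexLL
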