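import Pool.Agent.Lib.MP_3d3eb4_co.LL.Defs

namespace PlexLL

open Finset Pool.Agent.Lib.MP_3d3eb4_co
open PlexL (co cnt)

namespace DisAux

/-- few values at a given place, fewer far from the centre -/
def Load (K c : ℤ) (L : List ℤ) : Prop :=
  ∀ (v : ℤ) (t : ℕ), (8 ≤ t ∨ 8 * K < 2 ^ (t + 1) * |v - c|) → L.count v ≤ 172 + 18 * t

/-- at a distance comparable with `K` -/
def Away (K a : ℤ) : Prop := (K ≤ 20 * a ∨ K ≤ -(20 * a)) ∧ -(3 * K) ≤ a ∧ a ≤ 3 * K

theorem Load.of_short {K c : ℤ} {L : List ℤ} (h : L.length ≤ 172) : Load K c L :=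
  fun _ _ _ => (List.count_le_length.trans h).trans (Nat.le_add_right _ _)

theorem Load.step {K K' c a : ℤ} {L N : List ℤ} (H : Load K c L) (hK0 : 0 < K) (hK : 4 * K ≤ K')
    (hN : N.length ≤ 18) (h : ∀ x ∈ N, Away K' (x - (a + (-2) * c))) :
    Load K' (a + (-2) * c) (L.map (fun x => a + (-2) * x) ++ N) := by
  intro v t ht
  rw [List.count_append]
  have hN' : N.count v ≤ 18 := List.count_le_length.trans hN
  by_cases hv : v ∈ L.map fun x => a + (-2) * x
  swap
  · rw [List.count_eq_zero.2 hv]; omega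
  obtain ⟨u, -, rfl⟩ := List.mem_map.1 hv
  have hinj : Function.Injective fun x : ℤ => a + (-2) * x := fun x y e => by
    simp only at e; omega
  rw [List.count_map_of_injective L _ hinj u]
  have e : |a + (-2) * u - (a + (-2) * c)| = 2 * |u - c| := by
    rw [show a + (-2) * u - (a + (-2) * c) = (-2) * (u - c) by ring, abs_mul]; norm_num
  rw [e] at ht
  by_cases hn : a + (-2) * u ∈ N
  swap
  · rw [List.count_eq_zero.2 hn]
    refine H u t (ht.imp_right fun h1 => ?_)
    linarith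
  obtain ⟨h1, h2, h3⟩ := h _ hn
  have h4 : K' ≤ 40 * |u - c| := by
    rcases h1 with h1 | h1
    · linarith [neg_le_abs (u - c)]
    · linarith [le_abs_self (u - c)]
  have h5 : 2 * |u - c| ≤ 3 * K' := by
    rcases abs_cases (u - c) with h6 | h6 <;> linarith [h6.1]
  rcases t with _ | s
  · rcases ht with ht | ht
    · omega
    · norm_num at ht; linarith
  have key : L.count u ≤ 172 + 18 * s := by
    refine H u s ?_
    rcases ht with ht | ht
    · rcases Nat.lt_or_ge s 8 with h6 | h6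
      · obtain rfl : s = 7 := by omega
        right
        norm_num
        linarith
      · exact Or.inl h6
    · right
      rw [pow_succ] at ht
      linarith
  omega

/-- a dissection with the unit square near one third of the sides and with bounded load -/
def DisL (w h : ℤ) (lev : ℕ) : Prop :=
  ∃ (Sq : List (ℤ × ℤ × ℤ)) (W : List (ℤ × ℤ)) (q : ℤ × ℤ × ℤ) (e : ℕ),
    (q.2.2 = 2 ^ e ∨ q.2.2 = -2 ^ e) ∧ W.length ≤ 18 * lev + 28 ∧ W.Nodup ∧
    (∀ p ∈ W, Good w h p) ∧
    (∀ f g : ℤ → ℤ → ℤ, sqv f g q + (Sq.map (sqv f g)).sum =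
      f 0 0 + f w h + g 0 h + g w 0 + (W.map fun p => f p.1 p.2 + g p.1 p.2).sum) ∧
    |3 * q.1 - w| + 6 ≤ 60 * 2 ^ lev ∧ |3 * q.2.1 - h| + 6 ≤ 60 * 2 ^ lev ∧
    5 * 4 ^ lev ≤ min w h ∧
    Load (min w h) q.1 (W.map fun p => p.1) ∧ Load (min w h) q.2.1 (W.map fun p => p.2) ∧
    Load (min w h) (q.1 + q.2.1) (W.map fun p => p.1 + p.2)

theorem DisL.swap {w h : ℤ} {lev : ℕ} (H : DisL w h lev) : DisL h w lev := by
  obtain ⟨Sq, W, q, j, h1, h2, h3, h4, h5, h6, h7, h8, h9, h10, h11⟩ := H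
  rw [min_comm] at h8 h9 h10 h11
  refine ⟨Sq.map fun q => (q.2.1, q.1, q.2.2), W.map Prod.swap, (q.2.1, q.1, q.2.2), j, h1,
    by simpa using h2, h3.map Prod.swap_injective, ?_, ?_, h7, h6, h8, ?_, ?_, ?_⟩
  · intro p hp
    obtain ⟨p, hp', rfl⟩ := List.mem_map.1 hp
    have := h4 p hp'
    simp only [Good, Prod.fst_swap, Prod.snd_swap] at this ⊢
    omega
  · intro f g
    have := h5 (fun x y => f y x) (fun x y => g y x)
    have e : ∀ q : ℤ × ℤ × ℤ, sqv f g (q.2.1, q.1, q.2.2) =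
        sqv (fun x y => f y x) (fun x y => g y x) q := by
      intro q; simp only [sqv]; ring
    rw [List.map_map, List.map_map, e]
    have e2 : (sqv f g ∘ fun q : ℤ × ℤ × ℤ => (q.2.1, q.1, q.2.2)) =
        sqv (fun x y => f y x) (fun x y => g y x) := funext e
    rw [e2, this]
    simp only [Function.comp_def, Prod.fst_swap, Prod.snd_swap]
    ring
  · rw [List.map_map]; exact h10
  · rw [List.map_map]; exact h9
  · rw [List.map_map, add_comm]
    simpa only [Function.comp_def, Prod.fst_swap, Prod.snd_swap, add_comm] using h11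

/-- the rotated and doubled picture inside a larger rectangle -/
theorem DisL.grow {w h w' h' : ℤ} {lev : ℕ} (H : DisL w h lev) (S : List (ℤ × ℤ × ℤ))
    (N : List (ℤ × ℤ)) (hN : N.length ≤ 18) (hnd : N.Nodup)
    (hold : ∀ p, Good w h p → Good w' h' (2 * w + (-2) * p.1, 2 * h + (-2) * p.2) ∧
      ∀ b ∈ N, (2 * w + (-2) * p.1, 2 * h + (-2) * p.2) ≠ b)
    (hnew : ∀ b ∈ N, Good w' h' b)
    (hid : ∀ f g : ℤ → ℤ → ℤ, f (2 * w) (2 * h) + f 0 0 + g (2 * w) 0 + g 0 (2 * h) +
      (S.map (sqv f g)).sum =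
      f 0 0 + f w' h' + g 0 h' + g w' 0 + (N.map fun p => f p.1 p.2 + g p.1 p.2).sum)
    (hw : |4 * w - w'| ≤ 6) (hh : |4 * h - h'| ≤ 6) (hm : 4 * min w h ≤ min w' h')
    (hfar : ∀ x y X : ℤ, 3 * x - w ≤ 60 * X → w - 3 * x ≤ 60 * X → 3 * y - h ≤ 60 * X →
      h - 3 * y ≤ 60 * X → 256 ≤ X → 1280 * X ≤ min w h → ∀ b ∈ N,
      Away (min w' h') (b.1 - (2 * w + (-2) * x)) ∧ Away (min w' h') (b.2 - (2 * h + (-2) * y)) ∧
      Away (min w' h') (b.1 + b.2 - (2 * w + 2 * h + (-2) * (x + y)))) :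
    DisL w' h' (lev + 1) := by
  obtain ⟨Sq, W, q, j, h1, h2, h3, h4, h5, h6, h7, h8, h9, h10, h11⟩ := H
  have hlen : ((W.map fun p : ℤ × ℤ => (2 * w + (-2) * p.1, 2 * h + (-2) * p.2)) ++ N).length ≤
      18 * (lev + 1) + 28 := by
    simp only [List.length_append, List.length_map]; omega
  have hK0 : 0 < min w h := lt_of_lt_of_le (by positivity) h8
  refine ⟨(Sq.map fun q => (2 * w + (-2) * q.1, 2 * h + (-2) * q.2.1, (-2) * q.2.2)) ++ S,
    (W.map fun p => (2 * w + (-2) * p.1, 2 * h + (-2) * p.2)) ++ N,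
    (2 * w + (-2) * q.1, 2 * h + (-2) * q.2.1, (-2) * q.2.2), j + 1,
    ?_, hlen, ?_, ?_, ?_, ?_, ?_, ?_, ?_⟩
  · rcases h1 with h1 | h1 <;> simp only [h1, pow_succ] <;> [right; left] <;> ring
  · rw [List.nodup_append]
    refine ⟨h3.map ?_, hnd, ?_⟩
    · intro p p' hp
      simp only [Prod.mk.injEq] at hp
      ext <;> omega
    · intro a ha b hb
      obtain ⟨p, hp', rfl⟩ := List.mem_map.1 ha
      exact (hold p (h4 p hp')).2 b hb
  · intro a ha
    rcases List.mem_append.1 ha with ha | hb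
    · obtain ⟨p, hp', rfl⟩ := List.mem_map.1 ha
      exact (hold p (h4 p hp')).1
    · exact hnew a hb
  · intro f g
    have := h5 (fun x y => f (2 * w + (-2) * x) (2 * h + (-2) * y))
      (fun x y => g (2 * w + (-2) * x) (2 * h + (-2) * y))
    rw [List.map_append, List.map_append, List.sum_append, List.sum_append, List.map_map,
      List.map_map, sqv_aff]
    have e2 : (sqv f g ∘ fun q : ℤ × ℤ × ℤ => (2 * w + (-2) * q.1, 2 * h + (-2) * q.2.1,
        (-2) * q.2.2)) = sqv (fun x y => f (2 * w + (-2) * x) (2 * h + (-2) * y))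
        (fun x y => g (2 * w + (-2) * x) (2 * h + (-2) * y)) :=
      funext (sqv_aff f g _ _ (-2))
    rw [e2, ← add_assoc, this]
    have e3 : 2 * w + (-2) * w = 0 := by ring
    have e4 : 2 * h + (-2) * h = 0 := by ring
    simp only [Function.comp_def, e3, e4, mul_zero, add_zero]
    linarith [hid f g]
  · rw [pow_succ]
    have a1 := abs_le.1 hw
    have a2 := le_abs_self (3 * q.1 - w)
    have a3 := neg_le_abs (3 * q.1 - w)
    rcases abs_cases (3 * (2 * w + (-2) * q.1) - w') with a4 | a4 <;> linarith [a4.1]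
  · rw [pow_succ]
    have a1 := abs_le.1 hh
    have a2 := le_abs_self (3 * q.2.1 - h)
    have a3 := neg_le_abs (3 * q.2.1 - h)
    rcases abs_cases (3 * (2 * h + (-2) * q.2.1) - h') with a4 | a4 <;> linarith [a4.1]
  · rw [pow_succ]; linarith
  rcases Nat.lt_or_ge lev 8 with hl | hl
  · refine ⟨Load.of_short ?_, Load.of_short ?_, Load.of_short ?_⟩ <;> rw [List.length_map] <;> omega
  have hX : (256 : ℤ) ≤ 2 ^ lev := by
    calc (256 : ℤ) = 2 ^ 8 := by norm_num
      _ ≤ _ := pow_le_pow_right₀ (by norm_num) hl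
  have hX2 : 1280 * (2 : ℤ) ^ lev ≤ min w h := by
    have : (4 : ℤ) ^ lev = 2 ^ lev * 2 ^ lev := by rw [← mul_pow]; norm_num
    rw [this] at h8
    nlinarith
  have hf := hfar q.1 q.2.1 (2 ^ lev) (by linarith [le_abs_self (3 * q.1 - w)])
    (by linarith [neg_le_abs (3 * q.1 - w)]) (by linarith [le_abs_self (3 * q.2.1 - h)])
    (by linarith [neg_le_abs (3 * q.2.1 - h)]) hX hX2
  refine ⟨?_, ?_, ?_⟩
  · have := h9.step (a := 2 * w) (N := N.map fun p => p.1) hK0 hm (by rwa [List.length_map])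
      fun x hx => by
        obtain ⟨b, hb, rfl⟩ := List.mem_map.1 hx
        exact (hf b hb).1
    rw [List.map_map] at this
    rw [List.map_append, List.map_map]
    exact this
  · have := h10.step (a := 2 * h) (N := N.map fun p => p.2) hK0 hm (by rwa [List.length_map])
      fun x hx => by
        obtain ⟨b, hb, rfl⟩ := List.mem_map.1 hx
        exact (hf b hb).2.1
    rw [List.map_map] at this
    rw [List.map_append, List.map_map]
    exact this
  · have := h11.step (a := 2 * w + 2 * h) (N := N.map fun p => p.1 + p.2) hK0 hm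
      (by rwa [List.length_map]) fun x hx => by
        obtain ⟨b, hb, rfl⟩ := List.mem_map.1 hx
        exact (hf b hb).2.2
    rw [List.map_map] at this
    rw [List.map_append, List.map_map]
    convert this using 1
    · ring
    · congr 1
      refine List.map_congr_left fun p _ => ?_
      simp only [Function.comp_def]
      ring

theorem DisL.mapA {w h : ℤ} {lev : ℕ} (H : DisL w h lev) (hw : w = h + 3 ∨ w = h - 3)
    (hh : 5 ≤ h) (hw5 : 5 ≤ w) : DisL (2 * w + 2 * h) (w + 3 * h) (lev + 1) := by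
  refine H.grow [(2 * w, 0, 2 * h), (0, 2 * h, w + h), (w + h, 2 * h, w + h)]
    [(2 * w, 0), (2 * w, 2 * h), (0, 2 * h), (2 * w + 2 * h, 2 * h), (w + h, 2 * h),
      (w + h, w + 3 * h)] (by simp) ?_ (fun p hp => ⟨?_, fun b hb => ?_⟩) (fun b hb => ?_)
    (fun f g => ?_) (abs_le.2 ⟨by omega, by omega⟩) (abs_le.2 ⟨by omega, by omega⟩) (by omega)
    fun x y X a1 a2 a3 a4 a5 a6 b hb => ?_
  · simp only [List.nodup_cons, List.mem_cons, Prod.mk.injEq, List.not_mem_nil, List.nodup_nil,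
      or_false, not_false_eq_true, and_true]
    omega
  · simp only [Good] at hp ⊢
    omega
  · simp only [Good] at hp
    simp only [List.mem_cons, List.not_mem_nil, or_false] at hb
    rcases hb with rfl | rfl | rfl | rfl | rfl | rfl <;> simp only [ne_eq, Prod.mk.injEq] <;> omega
  · simp only [List.mem_cons, List.not_mem_nil, or_false] at hb
    rcases hb with rfl | rfl | rfl | rfl | rfl | rfl <;> simp only [Good] <;> omega
  · simp only [List.map_cons, List.map_nil, List.sum_cons, List.sum_nil, sqv]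
    ring_nf
  · simp only [List.mem_cons, List.not_mem_nil, or_false] at hb
    rcases hb with rfl | rfl | rfl | rfl | rfl | rfl <;> simp only [Away] <;>
      refine ⟨?_, ?_, ?_⟩ <;> omega

theorem DisL.mapB {k c : ℤ} {lev : ℕ} (H : DisL (k + 3 * c) k lev) (hc : c = 1 ∨ c = -1)
    (hh : 5 ≤ k) (hw5 : 5 ≤ k + 3 * c) : DisL (4 * k + 7 * c) (4 * k + 4 * c) (lev + 1) := by
  refine H.grow
    [(2 * k + 6 * c, k, k), (2 * k + 6 * c, 0, k),
      (0, 2 * k, 2 * k + 4 * c), (2 * k + 4 * c, 3 * k + 2 * c, k + 2 * c),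
      (2 * k + 4 * c, 2 * k, k + 2 * c), (3 * k + 6 * c, 3 * k + 3 * c, k + c),
      (3 * k + 6 * c, 2 * k + 2 * c, k + c), (3 * k + 6 * c, k + c, k + c),
      (3 * k + 6 * c, 0, k + c)]
    [(2 * k + 6 * c, 2 * k), (2 * k + 6 * c, 0), (2 * k + 6 * c, k), (3 * k + 6 * c, k),
      (0, 2 * k), (3 * k + 6 * c, 2 * k), (2 * k + 4 * c, 4 * k + 4 * c), (2 * k + 4 * c, 2 * k),
      (2 * k + 4 * c, 3 * k + 2 * c), (3 * k + 6 * c, 3 * k + 2 * c),
      (3 * k + 6 * c, 4 * k + 4 * c), (3 * k + 6 * c, 0),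
      (3 * k + 6 * c, 3 * k + 3 * c), (4 * k + 7 * c, 3 * k + 3 * c),
      (3 * k + 6 * c, 2 * k + 2 * c), (4 * k + 7 * c, 2 * k + 2 * c),
      (3 * k + 6 * c, k + c), (4 * k + 7 * c, k + c)]
    (by simp) ?_ (fun p hp => ⟨?_, fun b hb => ?_⟩) (fun b hb => ?_)
    (fun f g => ?_) (abs_le.2 ⟨by omega, by omega⟩) (abs_le.2 ⟨by omega, by omega⟩) (by omega)
    fun x y X a1 a2 a3 a4 a5 a6 b hb => ?_
  · simp only [List.nodup_cons, List.mem_cons, Prod.mk.injEq, List.not_mem_nil, List.nodup_nil,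
      or_false, not_or, not_and, not_false_eq_true, and_true]
    rcases hc with rfl | rfl <;> refine ⟨?_, ?_, ?_, ?_, ?_, ?_, ?_, ?_, ?_, ?_, ?_, ?_, ?_, ?_,
      ?_, ?_, ?_⟩ <;> omega
  · simp only [Good] at hp ⊢
    omega
  · simp only [Good] at hp
    simp only [List.mem_cons, List.not_mem_nil, or_false] at hb
    rcases hb with rfl | rfl | rfl | rfl | rfl | rfl | rfl | rfl | rfl | rfl | rfl | rfl | rfl |
      rfl | rfl | rfl | rfl | rfl <;> simp only [ne_eq, Prod.mk.injEq] <;> omega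
  · simp only [List.mem_cons, List.not_mem_nil, or_false] at hb
    rcases hb with rfl | rfl | rfl | rfl | rfl | rfl | rfl | rfl | rfl | rfl | rfl | rfl | rfl |
      rfl | rfl | rfl | rfl | rfl <;> simp only [Good] <;> omega
  · simp only [List.map_cons, List.map_nil, List.sum_cons, List.sum_nil, sqv]
    ring_nf
  · simp only [List.mem_cons, List.not_mem_nil, or_false] at hb
    rcases hb with rfl | rfl | rfl | rfl | rfl | rfl | rfl | rfl | rfl | rfl | rfl | rfl | rfl |
      rfl | rfl | rfl | rfl | rfl <;> simp only [Away] <;> refine ⟨?_, ?_, ?_⟩ <;> omega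

theorem base (K : ℕ) (h5 : 5 ≤ K) (h22 : K ≤ 22) : DisL ((K : ℤ) + 3) K 0 := by
  obtain ⟨k, rfl⟩ : ∃ k, K = k + 5 := ⟨K - 5, by omega⟩
  obtain ⟨h1, h2, h3, hA, hB⟩ := base_check ⟨k, by omega⟩
  refine ⟨(baseData (k + 5)).1, (baseData (k + 5)).2, (((k + 5 : ℕ) : ℤ), 0, 1), 0, Or.inl rfl,
    h1, h2, h3, fun f g => ?_, ?_, ?_, by omega, Load.of_short ?_, Load.of_short ?_,
    Load.of_short ?_⟩
  · have := sum_sqv f g ((((k + 5 : ℕ) : ℤ), 0, 1) :: (baseData (k + 5)).1)
    rw [List.map_cons, List.sum_cons] at this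
    rw [this, (hA.map _).sum_eq, (hB.map _).sum_eq]
    simp only [List.map_cons, List.sum_cons, List.sum_map_add]
    ring
  · dsimp only
    rw [abs_of_nonneg (by omega)]; omega
  · dsimp only
    rw [abs_of_nonpos (by omega)]; omega
  all_goals
    rw [List.length_map]
    exact h1.trans (by norm_num)

theorem all (j : ℕ) : ∀ K : ℕ, 5 ≤ K → K ≤ 2 ^ j → ∃ lev ≤ j, DisL ((K : ℤ) + 3) K lev := by
  induction j with
  | zero => intro K h5 h; omega
  | succ j ih =>
    intro K h5 hK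
    by_cases h22 : K ≤ 22
    · exact ⟨0, Nat.zero_le _, base K h5 h22⟩
    obtain ⟨k, hk⟩ : ∃ k : ℕ, K = 4 * k + 3 ∨ K = 4 * k + 4 ∨ K = 4 * k + 5 ∨ K = 4 * k + 6 :=
      ⟨(K - 3) / 4, by omega⟩
    have hk5 : 5 ≤ k := by omega
    have hkj : k ≤ 2 ^ j := by rw [pow_succ] at hK; omega
    obtain ⟨lev, hl, H⟩ := ih k hk5 hkj
    refine ⟨lev + 1, by omega, ?_⟩
    rcases hk with rfl | rfl | rfl | rfl
    · have := H.mapA (Or.inl rfl) (by omega) (by omega)
      convert this using 1 <;> push_cast <;> ring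
    · have := DisL.mapB (k := k) (c := 1) (by simpa using H) (Or.inl rfl) (by omega) (by omega)
      convert this using 1 <;> push_cast <;> ring
    · have := (DisL.mapB (k := k + 3) (c := -1) (by simpa using H.swap) (Or.inr rfl) (by omega)
        (by omega)).swap
      convert this using 1 <;> push_cast <;> ring
    · have := (H.swap.mapA (Or.inr (by ring)) (by omega) (by omega)).swap
      convert this using 1 <;> push_cast <;> ring

theorem Load.fin {K c : ℤ} {W : List (ℤ × ℤ)} {φ : ℤ × ℤ → ℤ} (H : Load K c (W.map φ)) (v : ℤ) :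
    W.countP (fun p => φ p = v) ≤ 316 := by
  have := H v 8 (Or.inl le_rfl)
  rw [List.count_eq_countP, List.countP_map] at this
  refine le_of_eq_of_le (List.countP_congr fun p _ => ?_) this
  simp

end DisAux

theorem stDis : StDis := fun j K h5 hK => by
  obtain ⟨lev, hl, Sq, W, q, e, h1, h2, h3, h4, h6, -, -, -, h7, h8, h9⟩ := DisAux.all j K h5 hK
  exact ⟨Sq, W, q, e, h1, h2.trans (by omega), h3, h4, h6, fun v =>
    ⟨h7.fin v, h8.fin v, h9.fin v⟩⟩

end PlexLL
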