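import Pool.Agent.Lib.MP_3d3eb4_co.LL.Defs

/-! Properties that hold for few residues; exchanges of cells along chains. -/

namespace PlexLL

open Finset
open Pool.Agent.Lib.MP_3d3eb4_co (fiber_le)
open PlexL (co cnt ev vec deg deg_val deg_union cnt_val)

set_option linter.unusedSectionVars false

variable {m : ℕ} [NeZero m]

/-- at most `b` residues satisfy `P` -/
def Few (P : ZMod m → Prop) (b : ℕ) : Prop :=
  ∃ S : Finset (ZMod m), S.card ≤ b ∧ ∀ τ, P τ → τ ∈ S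

namespace Few

variable {P Q : ZMod m → Prop} {b b' : ℕ}

theorem mono (h : Few P b) (hb : b ≤ b') (hQ : ∀ τ, Q τ → P τ) : Few Q b' :=
  let ⟨S, h1, h2⟩ := h; ⟨S, h1.trans hb, fun τ hτ => h2 τ (hQ τ hτ)⟩

theorem or (h : Few P b) (h' : Few Q b') : Few (fun τ => P τ ∨ Q τ) (b + b') := by
  obtain ⟨S, h1, h2⟩ := h
  obtain ⟨S', h3, h4⟩ := h'
  exact ⟨S ∪ S', (card_union_le _ _).trans (by omega), fun τ hτ =>
    mem_union.2 (hτ.imp (h2 τ) (h4 τ))⟩

theorem bex {ι : Type} (s : Finset ι) {P : ι → ZMod m → Prop} (h : ∀ i ∈ s, Few (P i) b) :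
    Few (fun τ => ∃ i ∈ s, P i τ) (s.card * b) := by
  classical
  choose! S h1 h2 using h
  exact ⟨s.biUnion S, card_biUnion_le_card_mul _ _ _ h1, fun τ ⟨i, hi, hτ⟩ =>
    mem_biUnion.2 ⟨i, hi, h2 i hi τ hτ⟩⟩

theorem lin (l : ℤ) (M : ℕ) (hl : l ≠ 0) (hM : |l| ≤ M) (c : ZMod m) (A : Finset (ZMod m)) :
    Few (fun τ => c + (l : ZMod m) * τ ∈ A) (M * A.card) := by
  refine ⟨_, (fiber_le l hl c A).trans (Nat.mul_le_mul_right _ ?_), fun τ hτ => ?_⟩
  · rw [Int.abs_eq_natAbs] at hM; omega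
  · simpa [zsmul_eq_mul] using hτ

theorem of_card [DecidablePred P] (h : (univ.filter P).card ≤ b) : Few P b :=
  ⟨_, h, fun τ hτ => by simpa using hτ⟩

theorem comp (h : Few P b) (f : ZMod m ≃ ZMod m) : Few (fun τ => P (f τ)) b := by
  obtain ⟨S, h1, h2⟩ := h
  exact ⟨S.image f.symm, card_image_le.trans h1, fun τ hτ =>
    mem_image.2 ⟨f τ, h2 _ hτ, by simp⟩⟩

theorem card_le [DecidablePred P] (h : Few P b) : (univ.filter P).card ≤ b :=
  let ⟨_, h1, h2⟩ := h; (card_le_card fun τ hτ => h2 τ (mem_filter.1 hτ).2).trans h1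

theorem ex_not (h : Few P b) (hb : b < m) : ∃ τ, ¬ P τ := by
  obtain ⟨S, h1, h2⟩ := h
  by_contra hc
  push Not at hc
  have : S = univ := eq_univ_of_forall fun τ => h2 τ (hc τ)
  rw [this, card_univ, ZMod.card] at h1
  omega

theorem two {P Q : ZMod m → ZMod m → Prop} (h : ∀ S, Few (fun δ => ¬ P δ S) b)
    (h' : ∀ S, Few (fun δ => ¬ Q δ S) b') (φ : ZMod m → ZMod m) :
    Few (fun δ => ¬ ∃ e, P δ e ∧ Q δ (φ δ - e)) (b + b') := by
  classical
  refine of_card ?_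
  choose S h1 h2 using h
  choose S' h3 h4 using h'
  have key : ∀ (S : ZMod m → Finset (ZMod m)) (b : ℕ), (∀ e, (S e).card ≤ b) →
      ∑ δ, (univ.filter fun e => δ ∈ S e).card ≤ b * m := by
    intro S b h
    calc _ = ∑ e, (univ.filter fun δ => δ ∈ S e).card := by
          simp only [card_filter]; exact sum_comm
      _ ≤ ∑ _e : ZMod m, b := sum_le_sum fun e _ => by simpa using h e
      _ = _ := by simp [mul_comm]
  have a1 := key S b h1
  have a2 := key S' b' h3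
  set T := univ.filter fun δ => ¬ ∃ e, P δ e ∧ Q δ (φ δ - e)
  have a3 : T.card * m ≤ ∑ δ, ((univ.filter fun e => δ ∈ S e).card +
      (univ.filter fun e => δ ∈ S' e).card) := by
    refine le_trans ?_ (sum_le_sum_of_subset (subset_univ T))
    rw [← smul_eq_mul]
    refine card_nsmul_le_sum _ _ _ fun δ hδ => ?_
    have hδ := (mem_filter.1 hδ).2
    have : (univ : Finset (ZMod m)) ⊆ (univ.filter fun e => δ ∈ S e) ∪
        (univ.filter fun e => δ ∈ S' e).image (φ δ - ·) := by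
      intro e _
      by_cases hP : P δ e
      · exact mem_union_right _ (mem_image.2 ⟨φ δ - e, mem_filter.2 ⟨mem_univ _,
          h4 _ _ fun hQ => hδ ⟨e, hP, hQ⟩⟩, by simp⟩)
      · exact mem_union_left _ (mem_filter.2 ⟨mem_univ _, h2 _ _ hP⟩)
    have := (card_le_card this).trans (card_union_le _ _)
    rw [card_univ, ZMod.card] at this
    exact this.trans (Nat.add_le_add_left card_image_le _)
  rw [sum_add_distrib] at a3
  exact Nat.le_of_mul_le_mul_right (c := m) (by rw [add_mul]; omega) (NeZero.pos m)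

theorem row (F : Finset (ZMod m × ZMod m)) (r c : ZMod m) (l : ℤ) (M : ℕ) (hl : l ≠ 0)
    (hM : |l| ≤ M) : Few (fun τ => (r, c + (l : ZMod m) * τ) ∈ F) (M * cnt F.val (0, r)) :=
  (lin l M hl hM c ((F.filter fun x => co 0 x = r).image Prod.snd)).mono
    (Nat.mul_le_mul_left _ card_image_le) fun _ hτ =>
    mem_image.2 ⟨_, mem_filter.2 ⟨hτ, rfl⟩, rfl⟩

theorem col (F : Finset (ZMod m × ZMod m)) (r c : ZMod m) (l : ℤ) (M : ℕ) (hl : l ≠ 0)
    (hM : |l| ≤ M) : Few (fun τ => (r + (l : ZMod m) * τ, c) ∈ F) (M * cnt F.val (1, c)) :=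
  (lin l M hl hM r ((F.filter fun x => co 1 x = c).image Prod.fst)).mono
    (Nat.mul_le_mul_left _ card_image_le) fun _ hτ =>
    mem_image.2 ⟨_, mem_filter.2 ⟨hτ, rfl⟩, rfl⟩

theorem sym (F : Finset (ZMod m × ZMod m)) (r s : ZMod m) :
    Few (fun τ => (r + τ, s - (r + τ)) ∈ F) (cnt F.val (2, s)) :=
  (lin 1 1 one_ne_zero (by simp) r ((F.filter fun x => co 2 x = s).image Prod.fst)).mono
    (by rw [one_mul]; exact card_image_le) fun _ hτ =>
    mem_image.2 ⟨_, mem_filter.2 ⟨hτ, by simp⟩, by simp⟩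

end Few

/-- add the cells `A`, remove the cells `R` -/
def Op (K D Hr : Finset (ZMod m)) (Fb : Finset (ZMod m × ZMod m)) (n : ℕ)
    (v : Fin 3 × ZMod m → ℤ) : Prop :=
  ∃ A R : Finset (ZMod m × ZMod m), (∀ p ∈ A, p ∉ Fb ∧ p.2 - p.1 ∈ D) ∧
    (∀ p ∈ R, p.1 ∉ Hr ∧ p.2 - p.1 ∈ K) ∧ A.card ≤ n ∧ R.card ≤ n ∧ deg A.val - deg R.val = v

variable {K K' D D' Hr : Finset (ZMod m)} {Fb : Finset (ZMod m × ZMod m)} {n n' : ℕ}
  {v v' : Fin 3 × ZMod m → ℤ}

theorem Op.mono (h : Op K D Hr Fb n v) (hK : K ⊆ K') (hD : D ⊆ D') : Op K' D' Hr Fb n v :=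
  let ⟨A, R, h1, h2, h3⟩ := h
  ⟨A, R, fun p hp => ⟨(h1 p hp).1, hD (h1 p hp).2⟩, fun p hp => ⟨(h2 p hp).1, hK (h2 p hp).2⟩, h3⟩

theorem Op.add (h : Op K D Hr Fb n v) (h' : Op K' D' Hr Fb n' v') (hK : Disjoint K K')
    (hD : Disjoint D D') : Op (K ∪ K') (D ∪ D') Hr Fb (n + n') (v + v') := by
  obtain ⟨A, R, a1, a2, a3, a4, a5⟩ := h
  obtain ⟨A', R', b1, b2, b3, b4, b5⟩ := h'
  refine ⟨A ∪ A', R ∪ R', fun p hp => ?_, fun p hp => ?_, (card_union_le _ _).trans (by omega),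
    (card_union_le _ _).trans (by omega), ?_⟩
  · rcases mem_union.1 hp with hp | hp
    · exact ⟨(a1 p hp).1, mem_union_left _ (a1 p hp).2⟩
    · exact ⟨(b1 p hp).1, mem_union_right _ (b1 p hp).2⟩
  · rcases mem_union.1 hp with hp | hp
    · exact ⟨(a2 p hp).1, mem_union_left _ (a2 p hp).2⟩
    · exact ⟨(b2 p hp).1, mem_union_right _ (b2 p hp).2⟩
  · rw [deg_union (disjoint_left.2 fun p hp hp' => disjoint_left.1 hD (a1 p hp).2 (b1 p hp').2),
      deg_union (disjoint_left.2 fun p hp hp' => disjoint_left.1 hK (a2 p hp).2 (b2 p hp').2),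
      ← a5, ← b5]
    abel

/-- the diagonals of the added cells -/
def Dg (K : Finset (ZMod m)) (δ : ZMod m) : Finset (ZMod m) :=
  K.image (· + 2 * δ) ∪ K.image (· - 2 * δ)

theorem mem_Dg {δ x : ZMod m} : x ∈ Dg K δ ↔ ∃ k ∈ K, x = k + 2 * δ ∨ x = k - 2 * δ := by
  simp only [Dg, mem_union, mem_image]
  constructor
  · rintro (⟨k, h, rfl⟩ | ⟨k, h, rfl⟩)
    exacts [⟨k, h, .inl rfl⟩, ⟨k, h, .inr rfl⟩]
  · rintro ⟨k, h, rfl | rfl⟩
    exacts [.inl ⟨k, h, rfl⟩, .inr ⟨k, h, rfl⟩]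

theorem deg_two (C E : ℕ → ZMod m × ZMod m) (L : ℕ)
    (h1 : ∀ i < L, ∀ j < L, (C i).1 = (C j).1 → i = j)
    (h2 : ∀ i < L, ∀ j < L, (E i).1 = (E j).1 → i = j)
    (h3 : ∀ i < L, ∀ j < L, (C i).1 ≠ (E j).1) :
    deg ((range L).image C ∪ (range L).image E).val = ∑ i ∈ range L, (vec (C i) + vec (E i)) := by
  rw [deg_union, deg_val, deg_val, sum_image, sum_image, sum_add_distrib]
  · exact fun i hi j hj h => h2 i (by simpa using hi) j (by simpa using hj) (congrArg _ h)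
  · exact fun i hi j hj h => h1 i (by simpa using hi) j (by simpa using hj) (congrArg _ h)
  · rw [disjoint_left]
    intro p hp hp'
    obtain ⟨i, hi, rfl⟩ := mem_image.1 hp
    obtain ⟨j, hj, e⟩ := mem_image.1 hp'
    exact h3 i (mem_range.1 hi) j (mem_range.1 hj) (congrArg _ e.symm)

theorem card_two (C E : ℕ → ZMod m × ZMod m) (L : ℕ) :
    ((range L).image C ∪ (range L).image E).card ≤ 2 * L := by
  have h1 := card_image_le (s := range L) (f := C)
  have h2 := card_image_le (s := range L) (f := E)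
  have := card_union_le ((range L).image C) ((range L).image E)
  rw [card_range] at h1 h2
  omega

theorem chain (w f : ℕ → ZMod m) (k δ : ZMod m) (L : ℕ)
    (h1 : ∀ i, w (2 * i + 1) = w (2 * i) + δ) (h2 : ∀ i, w (2 * i + 2) = w (2 * i + 1) + δ + f i)
    (inj : ∀ n ≤ 2 * L + 1, ∀ n' ≤ 2 * L + 1, w n = w n' → n = n')
    (hH : ∀ n, 1 ≤ n → n ≤ 2 * L → w n ∉ Hr)
    (hC : ∀ i < L, (w (2 * i), w (2 * i + 2) + k) ∉ Fb)
    (hD : ∀ i < L, (w (2 * i + 3), w (2 * i + 1) + k + f i) ∉ Fb)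
    (hk : k ∈ K) (hf : ∀ i, k + f i ∈ K) :
    Op K (Dg K δ) Hr Fb (2 * L)
      (ev 0 (w 0) - ev 0 (w 1) - ev 0 (w (2 * L)) + ev 0 (w (2 * L + 1))) := by
  have h3 : ∀ i, w (2 * i + 3) = w (2 * i + 2) + δ := fun i => h1 (i + 1)
  refine ⟨(range L).image (fun i => (w (2 * i), w (2 * i + 2) + k)) ∪
      (range L).image (fun i => (w (2 * i + 3), w (2 * i + 1) + k + f i)),
    (range L).image (fun i => (w (2 * i + 1), w (2 * i + 1) + k + f i)) ∪
      (range L).image (fun i => (w (2 * i + 2), w (2 * i + 2) + k)),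
    fun p hp => ?_, fun p hp => ?_, card_two _ _ _, card_two _ _ _, ?_⟩
  · rcases mem_union.1 hp with hp | hp <;> obtain ⟨i, hi, rfl⟩ := mem_image.1 hp
    · exact ⟨hC i (mem_range.1 hi), mem_Dg.2 ⟨_, hf i, .inl (by simp only [h2, h1]; ring)⟩⟩
    · exact ⟨hD i (mem_range.1 hi), mem_Dg.2 ⟨_, hk, .inr (by simp only [h3, h2]; ring)⟩⟩
  · rcases mem_union.1 hp with hp | hp <;> obtain ⟨i, hi, rfl⟩ := mem_image.1 hp <;>
      have := mem_range.1 hi
    · exact ⟨hH _ (by omega) (by omega), by simpa [add_assoc] using hf i⟩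
    · exact ⟨hH _ (by omega) (by omega), by simpa using hk⟩
  · rw [deg_two, deg_two, ← sum_sub_distrib]
    · have e : ∀ i, vec (w (2 * i), w (2 * i + 2) + k) + vec (w (2 * i + 3), w (2 * i + 1) + k + f i)
          - (vec (w (2 * i + 1), w (2 * i + 1) + k + f i) + vec (w (2 * i + 2), w (2 * i + 2) + k))
          = (ev 0 (w (2 * i)) - ev 0 (w (2 * i + 1))) -
            (ev 0 (w (2 * (i + 1))) - ev 0 (w (2 * (i + 1) + 1))) := by
        intro i
        have e1 : w (2 * i) + (w (2 * i + 2) + k) = w (2 * i + 1) + (w (2 * i + 1) + k + f i) := by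
          simp only [h2, h1]; ring
        have e2 : w (2 * i + 3) + (w (2 * i + 1) + k + f i) =
            w (2 * i + 2) + (w (2 * i + 2) + k) := by simp only [h3, h2]; ring
        simp only [vec, e1, e2, mul_add, mul_one, add_assoc (2 * i)]
        abel
      rw [sum_congr rfl fun i _ => e i,
        sum_range_sub' fun i => ev 0 (w (2 * i)) - ev 0 (w (2 * i + 1))]
      simp only [mul_zero, zero_add]
      abel
    all_goals
      intro i hi j hj h
      have := inj _ (by omega) _ (by omega) h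
      omega

end PlexLL
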