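import Pool.Agent.Lib.MP_3d3eb4_co.LL.Defs

/-! Data of the gadget absorbing a hexagon with six arbitrary vertices. -/

namespace PlexLL

open Pool.Agent.Lib.MP_3d3eb4_co

/-- the slots -/
def gW : List (Form × Form × Form) := [
  (([1], [0, -1]),
    ([], [0, 1]),
    ([1], [])),
  (([0, 1], []),
    ([0, -1], [0, 0, 1]),
    ([], [0, 0, 1])),
  (([], [0, 0, 0, 1]),
    ([0, 0, 1], []),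
    ([0, 0, 1], [0, 0, 0, 1])),
  (([0, 0, 0, 1], [0, 0, 0, 0, -1]),
    ([], [0, 0, 0, 0, 1]),
    ([0, 0, 0, 1], [])),
  (([0, 0, 0, 0, 1], []),
    ([0, 0, 0, 0, -1], [0, 0, 0, 0, 0, 1]),
    ([], [0, 0, 0, 0, 0, 1])),
  (([], [1]),
    ([0, 0, 0, 0, 0, 1], []),
    ([0, 0, 0, 0, 0, 1], [1])),
  (([], [1]),
    ([1], [-1]),
    ([1], [])),
  (([0, 1], []),
    ([], [0, 1]),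
    ([0, 1], [0, 1])),
  (([0, 0, -1], [0, 0, 1]),
    ([0, 0, 1], []),
    ([], [0, 0, 1])),
  (([], [0, 0, 0, 1]),
    ([0, 0, 0, 1], [0, 0, 0, -1]),
    ([0, 0, 0, 1], [])),
  (([0, 0, 0, 0, 1], []),
    ([], [0, 0, 0, 0, 1]),
    ([0, 0, 0, 0, 1], [0, 0, 0, 0, 1])),
  (([0, 0, 0, 0, 0, -1], [0, 0, 0, 0, 0, 1]),
    ([0, 0, 0, 0, 0, 1], []),
    ([], [0, 0, 0, 0, 0, 1])),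
  (([1], [0, -1]),
    ([0, 0, 0, 0, 0, 0, 0, 1], []),
    ([0, 1], [0, 1])),
  (([0, 0, 0, 0, 0, 0, 0, 0, 0, 0, 0, 0, 1], []),
    ([0, 0, 0, 0, 0, 0, 0, 1], []),
    ([1], [])),
  (([0, 1], []),
    ([0, 0, 0, 0, 0, 0, 0, 1], []),
    ([0, 0, 0, 0, 0, 0, 0, 0, 0, 0, 0, 0, 0, 0, 0, 0, 0, 0, 0, 1], [])),
  (([0, 0, 0, 0, 0, 0, 0, 0, 0, 0, 0, 0, 1], []),
    ([0, 0, 0, 0, 0, 0, 0, 0, 0, 0, 0, 0, 0, 0, 0, 0, 0, 0, 1], []),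
    ([0, 0, 0, 0, 0, 0, 0, 0, 0, 0, 0, 0, 0, 0, 0, 0, 0, 0, 0, 1], [])),
  (([0, 0, -1], [0, 0, 1]),
    ([0, -1], [0, 0, 1]),
    ([0, 0, 0, 0, 0, 0, 0, 0, 1], [])),
  (([0, 1], []),
    ([0, 0, 0, 0, 0, 0, 0, 0, 0, 0, 0, 0, 0, 1], []),
    ([0, 0, 0, 0, 0, 0, 0, 0, 1], [])),
  (([0, 0, 0, 0, 0, 0, 0, 0, 0, 0, 0, 0, 0, 0, 0, 0, 0, 0, 0, 0, 1], []),
    ([0, 0, 1], []),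
    ([0, 0, 0, 0, 0, 0, 0, 0, 1], [])),
  (([0, 0, 0, 0, 0, 0, 0, 0, 0, 0, 0, 0, 0, 0, 0, 0, 0, 0, 0, 0, 1], []),
    ([0, 0, 0, 0, 0, 0, 0, 0, 0, 0, 0, 0, 0, 1], []),
    ([0, 0, 0, 0, 0, 0, 0, 0, 0, 0, 0, 0, 0, 0, 0, 0, 0, 0, 0, 1], [])),
  (([0, 0, 0, 0, 0, 0, 0, 0, 0, 1], []),
    ([0, 0, 0, 1], [0, 0, 0, -1]),
    ([0, 0, 1], [0, 0, 0, 1])),
  (([0, 0, 0, 0, 0, 0, 0, 0, 0, 1], []),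
    ([0, 0, 1], []),
    ([0, 0, 0, 0, 0, 0, 0, 0, 0, 0, 0, 0, 0, 0, 1], [])),
  (([0, 0, 0, 0, 0, 0, 0, 0, 0, 1], []),
    ([0, 0, 0, 0, 0, 0, 0, 0, 0, 0, 0, 0, 0, 0, 0, 0, 0, 0, 0, 0, 0, 1], []),
    ([0, 0, 0, 1], [])),
  (([0, 0, 0, 0, 0, 0, 0, 0, 0, 0, 0, 0, 0, 0, 0, 0, 0, 0, 0, 0, 1], []),
    ([0, 0, 0, 0, 0, 0, 0, 0, 0, 0, 0, 0, 0, 0, 0, 0, 0, 0, 0, 0, 0, 1], []),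
    ([0, 0, 0, 0, 0, 0, 0, 0, 0, 0, 0, 0, 0, 0, 1], [])),
  (([0, 0, 0, 1], [0, 0, 0, 0, -1]),
    ([0, 0, 0, 0, 0, 0, 0, 0, 0, 0, 1], []),
    ([0, 0, 0, 0, 1], [0, 0, 0, 0, 1])),
  (([0, 0, 0, 0, 0, 0, 0, 0, 0, 0, 0, 0, 0, 0, 0, 1], []),
    ([0, 0, 0, 0, 0, 0, 0, 0, 0, 0, 1], []),
    ([0, 0, 0, 1], [])),
  (([0, 0, 0, 0, 1], []),
    ([0, 0, 0, 0, 0, 0, 0, 0, 0, 0, 1], []),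
    ([0, 0, 0, 0, 0, 0, 0, 0, 0, 0, 0, 0, 0, 0, 0, 0, 0, 0, 0, 0, 0, 0, 1], [])),
  (([0, 0, 0, 0, 0, 0, 0, 0, 0, 0, 0, 0, 0, 0, 0, 1], []),
    ([0, 0, 0, 0, 0, 0, 0, 0, 0, 0, 0, 0, 0, 0, 0, 0, 0, 0, 0, 0, 0, 1], []),
    ([0, 0, 0, 0, 0, 0, 0, 0, 0, 0, 0, 0, 0, 0, 0, 0, 0, 0, 0, 0, 0, 0, 1], [])),
  (([0, 0, 0, 0, 0, -1], [0, 0, 0, 0, 0, 1]),
    ([0, 0, 0, 0, -1], [0, 0, 0, 0, 0, 1]),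
    ([0, 0, 0, 0, 0, 0, 0, 0, 0, 0, 0, 1], [])),
  (([0, 0, 0, 0, 1], []),
    ([0, 0, 0, 0, 0, 0, 0, 0, 0, 0, 0, 0, 0, 0, 0, 0, 1], []),
    ([0, 0, 0, 0, 0, 0, 0, 0, 0, 0, 0, 1], [])),
  (([0, 0, 0, 0, 0, 0, 0, 0, 0, 0, 0, 0, 0, 0, 0, 0, 0, 0, 0, 0, 0, 0, 0, 1], []),
    ([0, 0, 0, 0, 0, 1], []),
    ([0, 0, 0, 0, 0, 0, 0, 0, 0, 0, 0, 1], [])),
  (([0, 0, 0, 0, 0, 0, 0, 0, 0, 0, 0, 0, 0, 0, 0, 0, 0, 0, 0, 0, 0, 0, 0, 1], []),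
    ([0, 0, 0, 0, 0, 0, 0, 0, 0, 0, 0, 0, 0, 0, 0, 0, 1], []),
    ([0, 0, 0, 0, 0, 0, 0, 0, 0, 0, 0, 0, 0, 0, 0, 0, 0, 0, 0, 0, 0, 0, 1], [])),
  (([0, 0, 0, 0, 0, 0, 1], []),
    ([1], [-1]),
    ([0, 0, 0, 0, 0, 1], [1])),
  (([0, 0, 0, 0, 0, 0, 1], []),
    ([0, 0, 0, 0, 0, 1], []),
    ([0, 0, 0, 0, 0, 0, 0, 0, 0, 0, 0, 0, 0, 0, 0, 0, 0, 1], [])),
  (([0, 0, 0, 0, 0, 0, 1], []),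
    ([0, 0, 0, 0, 0, 0, 0, 0, 0, 0, 0, 0, 0, 0, 0, 0, 0, 0, 1], []),
    ([1], [])),
  (([0, 0, 0, 0, 0, 0, 0, 0, 0, 0, 0, 0, 0, 0, 0, 0, 0, 0, 0, 0, 0, 0, 0, 1], []),
    ([0, 0, 0, 0, 0, 0, 0, 0, 0, 0, 0, 0, 0, 0, 0, 0, 0, 0, 1], []),
    ([0, 0, 0, 0, 0, 0, 0, 0, 0, 0, 0, 0, 0, 0, 0, 0, 0, 1], [])),
  (([0, 0, 0, 0, 0, 0, 0, 0, 0, 0, 0, 0, 0, 0, 0, 0, 0, 0, 0, 0, 1], []),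
    ([0, 0, 0, 0, 0, 0, 0, 0, 0, 0, 0, 0, 0, 0, 0, 0, 0, 0, 1], []),
    ([0, 0, 0, 0, 0, 0, 0, 0, 0, 0, 0, 0, 0, 0, 0, 0, 0, 0, 0, 0, 0, 0, 1], []))]

/-- the new triples with at most one fixed label -/
def gB : List (Form × Form × Form) := [
  (([1], [0, -1]),
    ([], [0, 1]),
    ([0, 1], [0, 1])),
  (([1], [0, -1]),
    ([0, 0, 0, 0, 0, 0, 0, 1], []),
    ([1], [])),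
  (([0, 1], []),
    ([0, 0, 0, 0, 0, 0, 0, 1], []),
    ([0, 1], [0, 1])),
  (([0, 0, 0, 0, 0, 0, 0, 0, 0, 0, 0, 0, 1], []),
    ([0, 0, 0, 0, 0, 0, 0, 1], []),
    ([0, 0, 0, 0, 0, 0, 0, 0, 0, 0, 0, 0, 0, 0, 0, 0, 0, 0, 0, 1], [])),
  (([0, 0, 0, 0, 0, 0, 0, 0, 0, 0, 0, 0, 1], []),
    ([0, 0, 0, 0, 0, 0, 0, 0, 0, 0, 0, 0, 0, 0, 0, 0, 0, 0, 1], []),
    ([1], [])),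
  (([0, 0, -1], [0, 0, 1]),
    ([0, -1], [0, 0, 1]),
    ([], [0, 0, 1])),
  (([0, 1], []),
    ([0, -1], [0, 0, 1]),
    ([0, 0, 0, 0, 0, 0, 0, 0, 1], [])),
  (([0, 0, -1], [0, 0, 1]),
    ([0, 0, 1], []),
    ([0, 0, 0, 0, 0, 0, 0, 0, 1], [])),
  (([0, 0, 0, 0, 0, 0, 0, 0, 0, 0, 0, 0, 0, 0, 0, 0, 0, 0, 0, 0, 1], []),
    ([0, 0, 0, 0, 0, 0, 0, 0, 0, 0, 0, 0, 0, 1], []),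
    ([0, 0, 0, 0, 0, 0, 0, 0, 1], [])),
  (([0, 1], []),
    ([0, 0, 0, 0, 0, 0, 0, 0, 0, 0, 0, 0, 0, 1], []),
    ([0, 0, 0, 0, 0, 0, 0, 0, 0, 0, 0, 0, 0, 0, 0, 0, 0, 0, 0, 1], [])),
  (([], [0, 0, 0, 1]),
    ([0, 0, 0, 1], [0, 0, 0, -1]),
    ([0, 0, 1], [0, 0, 0, 1])),
  (([0, 0, 0, 0, 0, 0, 0, 0, 0, 1], []),
    ([0, 0, 1], []),
    ([0, 0, 1], [0, 0, 0, 1])),
  (([0, 0, 0, 0, 0, 0, 0, 0, 0, 1], []),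
    ([0, 0, 0, 1], [0, 0, 0, -1]),
    ([0, 0, 0, 1], [])),
  (([0, 0, 0, 0, 0, 0, 0, 0, 0, 1], []),
    ([0, 0, 0, 0, 0, 0, 0, 0, 0, 0, 0, 0, 0, 0, 0, 0, 0, 0, 0, 0, 0, 1], []),
    ([0, 0, 0, 0, 0, 0, 0, 0, 0, 0, 0, 0, 0, 0, 1], [])),
  (([0, 0, 0, 0, 0, 0, 0, 0, 0, 0, 0, 0, 0, 0, 0, 0, 0, 0, 0, 0, 1], []),
    ([0, 0, 1], []),
    ([0, 0, 0, 0, 0, 0, 0, 0, 0, 0, 0, 0, 0, 0, 1], [])),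
  (([0, 0, 0, 1], [0, 0, 0, 0, -1]),
    ([], [0, 0, 0, 0, 1]),
    ([0, 0, 0, 0, 1], [0, 0, 0, 0, 1])),
  (([0, 0, 0, 1], [0, 0, 0, 0, -1]),
    ([0, 0, 0, 0, 0, 0, 0, 0, 0, 0, 1], []),
    ([0, 0, 0, 1], [])),
  (([0, 0, 0, 0, 1], []),
    ([0, 0, 0, 0, 0, 0, 0, 0, 0, 0, 1], []),
    ([0, 0, 0, 0, 1], [0, 0, 0, 0, 1])),
  (([0, 0, 0, 0, 0, 0, 0, 0, 0, 0, 0, 0, 0, 0, 0, 1], []),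
    ([0, 0, 0, 0, 0, 0, 0, 0, 0, 0, 1], []),
    ([0, 0, 0, 0, 0, 0, 0, 0, 0, 0, 0, 0, 0, 0, 0, 0, 0, 0, 0, 0, 0, 0, 1], [])),
  (([0, 0, 0, 0, 0, 0, 0, 0, 0, 0, 0, 0, 0, 0, 0, 1], []),
    ([0, 0, 0, 0, 0, 0, 0, 0, 0, 0, 0, 0, 0, 0, 0, 0, 0, 0, 0, 0, 0, 1], []),
    ([0, 0, 0, 1], [])),
  (([0, 0, 0, 0, 0, -1], [0, 0, 0, 0, 0, 1]),
    ([0, 0, 0, 0, -1], [0, 0, 0, 0, 0, 1]),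
    ([], [0, 0, 0, 0, 0, 1])),
  (([0, 0, 0, 0, 1], []),
    ([0, 0, 0, 0, -1], [0, 0, 0, 0, 0, 1]),
    ([0, 0, 0, 0, 0, 0, 0, 0, 0, 0, 0, 1], [])),
  (([0, 0, 0, 0, 0, -1], [0, 0, 0, 0, 0, 1]),
    ([0, 0, 0, 0, 0, 1], []),
    ([0, 0, 0, 0, 0, 0, 0, 0, 0, 0, 0, 1], [])),
  (([0, 0, 0, 0, 0, 0, 0, 0, 0, 0, 0, 0, 0, 0, 0, 0, 0, 0, 0, 0, 0, 0, 0, 1], []),
    ([0, 0, 0, 0, 0, 0, 0, 0, 0, 0, 0, 0, 0, 0, 0, 0, 1], []),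
    ([0, 0, 0, 0, 0, 0, 0, 0, 0, 0, 0, 1], [])),
  (([0, 0, 0, 0, 1], []),
    ([0, 0, 0, 0, 0, 0, 0, 0, 0, 0, 0, 0, 0, 0, 0, 0, 1], []),
    ([0, 0, 0, 0, 0, 0, 0, 0, 0, 0, 0, 0, 0, 0, 0, 0, 0, 0, 0, 0, 0, 0, 1], [])),
  (([], [1]),
    ([1], [-1]),
    ([0, 0, 0, 0, 0, 1], [1])),
  (([0, 0, 0, 0, 0, 0, 1], []),
    ([0, 0, 0, 0, 0, 1], []),
    ([0, 0, 0, 0, 0, 1], [1])),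
  (([0, 0, 0, 0, 0, 0, 1], []),
    ([1], [-1]),
    ([1], [])),
  (([0, 0, 0, 0, 0, 0, 1], []),
    ([0, 0, 0, 0, 0, 0, 0, 0, 0, 0, 0, 0, 0, 0, 0, 0, 0, 0, 1], []),
    ([0, 0, 0, 0, 0, 0, 0, 0, 0, 0, 0, 0, 0, 0, 0, 0, 0, 1], [])),
  (([0, 0, 0, 0, 0, 0, 0, 0, 0, 0, 0, 0, 0, 0, 0, 0, 0, 0, 0, 0, 0, 0, 0, 1], []),
    ([0, 0, 0, 0, 0, 1], []),
    ([0, 0, 0, 0, 0, 0, 0, 0, 0, 0, 0, 0, 0, 0, 0, 0, 0, 1], [])),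
  (([0, 0, 0, 0, 0, 0, 0, 0, 0, 0, 0, 0, 0, 0, 0, 0, 0, 0, 0, 0, 1], []),
    ([0, 0, 0, 0, 0, 0, 0, 0, 0, 0, 0, 0, 0, 0, 0, 0, 0, 0, 1], []),
    ([0, 0, 0, 0, 0, 0, 0, 0, 0, 0, 0, 0, 0, 0, 0, 0, 0, 0, 0, 1], [])),
  (([0, 0, 0, 0, 0, 0, 0, 0, 0, 0, 0, 0, 0, 0, 0, 0, 0, 0, 0, 0, 1], []),
    ([0, 0, 0, 0, 0, 0, 0, 0, 0, 0, 0, 0, 0, 0, 0, 0, 0, 0, 0, 0, 0, 1], []),
    ([0, 0, 0, 0, 0, 0, 0, 0, 0, 0, 0, 0, 0, 0, 0, 0, 0, 0, 0, 0, 0, 0, 1], [])),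
  (([0, 0, 0, 0, 0, 0, 0, 0, 0, 0, 0, 0, 0, 0, 0, 0, 0, 0, 0, 0, 0, 0, 0, 1], []),
    ([0, 0, 0, 0, 0, 0, 0, 0, 0, 0, 0, 0, 0, 0, 0, 0, 0, 0, 1], []),
    ([0, 0, 0, 0, 0, 0, 0, 0, 0, 0, 0, 0, 0, 0, 0, 0, 0, 0, 0, 0, 0, 0, 1], []))]

/-- the new triples on the sides of the hexagon -/
def gH : List (Form × Form × Form) := [
  (([], [1]),
    ([], [0, 1]),
    ([1], [])),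
  (([0, 1], []),
    ([], [0, 1]),
    ([], [0, 0, 1])),
  (([], [0, 0, 0, 1]),
    ([0, 0, 1], []),
    ([], [0, 0, 1])),
  (([], [0, 0, 0, 1]),
    ([], [0, 0, 0, 0, 1]),
    ([0, 0, 0, 1], [])),
  (([0, 0, 0, 0, 1], []),
    ([], [0, 0, 0, 0, 1]),
    ([], [0, 0, 0, 0, 0, 1])),
  (([], [1]),
    ([0, 0, 0, 0, 0, 1], []),
    ([], [0, 0, 0, 0, 0, 1]))]

def gD : List (List ℤ) := [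
  [-1, 1, 1, -1, 0, 1, 0, 0, 0, -1, 0, -1, -1, -1, -1, -1, 0, 1, -1, 1, -1],
  [-1, 0, 0, 0, -1, 1, 0, 1, 0, 0, 1, 0, 0, 1, 0, -1, 1, 0, -1, 1, 0, 0, -1],
  [1, 0, 0, -1, -1, 1, -1, 0, 0, 1, 0, 1, 0, 0, 1, 0, -1, 0, 0, -1, -1, -1, -1],
  [-1, -1, 0, 0, 0, 0, 1, 0, 1, 0, 0, 1, -1, 0, 0, 1, 0, 0, 1, 0, 1, 0, 1, 1],
  [1, 0, 1, 0, 1, -1, 0, -1, -1, 1, 1, 0, -1, -1, 0, 0, 0, 0, 0, -1, 1, -1],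
  [1, 0, 0, 0, 0, 0, 1, 1, -1, 1, 1, -1, 0, 0, 1, -1, -1, 1, 0, 1, 1, 0, 1, -1],
  [-1, 0, 0, 0, 0, -1, 0, 1, 1, -1, 1, 0, 1, -1, -1, 0, 0, 0, -1, 1, 0, 1, 1, 1],
  [0, -1, 0, 0, 0, 1, 1, 1, 0, 1, 0, -1, 0, 1, 0, 1, -1, 0, -1, 1, 0, 0, 1, 1],
  [1, 1, 0, 0, -1, 1, -1, 0, -1, 0, 0, 0, -1, 1, 1, 0, 0, 0, 0, -1, 1, 0, 0, -1],
  [0, 1, -1, 1, 0, 0, 0, 1, -1, 0, 0, 0, -1, 1, 1, 1, 0, 1, 0, -1, 1, 0, 1, -1],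
  [0, -1, 0, -1, 0, 1, 0, 0, -1, 0, 0, 1, 0, 0, 0, 0, 0, 1, 1, 1, -1],
  [0, 0, -1, 1, 0, 0, 1, 0, -1, 0, -1, -1, 0, 1, -1, 0, 0, -1, 1, -1, -1, 0, -1, 1],
  [-1, -1, 1, -1, -1, 0, -1, 0, 1, 0, 0, -1, 1, 1, 1, -1, -1, 0, -1, 0, -1, 0, 0, 1],
  [-1, -1, 0, 0, -1, 0, 1, 0, 0, 1, -1, 0, -1, 0, 0, 1, 0, 1, 0, 0, -1, 0, -1],
  [1, -1, 1, 0, 1, 0, 1, 0, -1, 0, -1, -1, 0, 1, 0, 0, 0, 1, 1, -1, 1, 1, -1, -1]]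

/-- the form does not depend on the parameters -/
def fx (f : Form) : Bool := f.1 = []

def gG : Gad 37 where
  R i := (gW.getD i (([], []), ([], []), ([], []))).1
  C i := (gW.getD i (([], []), ([], []), ([], []))).2.1
  S i := (gW.getD i (([], []), ([], []), ([], []))).2.2
  mR i := !fx (gW.getD i (([], []), ([], []), ([], []))).1
  mC i := !fx (gW.getD i (([], []), ([], []), ([], []))).2.1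
  mS i := !fx (gW.getD i (([], []), ([], []), ([], []))).2.2
  ex i j := decide (i = j)

theorem g_cert : gG.Cert 24 3 gD := by decide +kernel

/-- the fixed labels -/
def kv (i : ℕ) : Form := ([], List.replicate i 0 ++ [1])

theorem g_perm :
    (List.ofFn fun i => (gG.R i, gG.C i, gG.S i)) = gW ∧
    ((gB ++ gH).map fun t => (t.1, t.2.1)).Perm
      ([(kv 0, kv 1), (kv 3, kv 4)] ++ gW.map fun t => (t.1, t.2.1)) ∧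
    ((gB ++ gH).map fun t => (t.1, t.2.2)).Perm
      ([(kv 3, kv 2), (kv 0, kv 5)] ++ gW.map fun t => (t.1, t.2.2)) ∧
    ((gB ++ gH).map fun t => (t.2.1, t.2.2)).Perm
      ([(kv 1, kv 2), (kv 4, kv 5)] ++ gW.map fun t => (t.2.1, t.2.2)) := by
  refine ⟨?_, ?_, ?_, ?_⟩ <;> decide +kernel

end PlexLL
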