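import Pool.Agent.Lib.MP_3d3eb4_co.LL.Defs

namespace PlexLL

open Finset Pool.Agent.Lib.MP_3d3eb4_co
open PlexL (co cnt)

namespace NearAux

set_option linter.unusedSectionVars false

section
variable {G : Type} [AddCommGroup G] [Fintype G] [DecidableEq G]

theorem co_inj {i j : Fin 3} (h : i ≠ j) {p q : G × G} (h1 : co i p = co i q)
    (h2 : co j p = co j q) : p = q := by
  obtain ⟨a, b⟩ := p
  obtain ⟨a', b'⟩ := q
  fin_cases i <;> fin_cases j <;> simp_all [co]

theorem cnt_univ (l : Fin 3 × G) : cnt (univ : Finset (G × G)).val l = Fintype.card G := by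
  obtain ⟨i, a⟩ := l
  rw [PlexL.cnt_val, ← card_univ]
  fin_cases i
  · exact card_bij' (fun p _ => p.2) (fun x _ => (a, x)) (by simp) (by simp [co])
      (by simp +contextual [co, eq_comm]) (by simp)
  · exact card_bij' (fun p _ => p.1) (fun x _ => (x, a)) (by simp) (by simp [co])
      (by simp +contextual [co, eq_comm]) (by simp)
  · exact card_bij' (fun p _ => p.1) (fun x _ => (x, a - x)) (by simp) (by simp [co])
      (by
        intro p hp
        have : p.1 + p.2 = a := by simpa [co] using hp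
        simp [← this]) (by simp)

theorem cnt_sdiff {K K' : Finset (G × G)} (h : K' ⊆ K) (l : Fin 3 × G) :
    cnt (K \ K').val l + cnt K'.val l = cnt K.val l := by
  have h1 := congrFun (PlexL.deg_sdiff h) l
  rw [Pi.sub_apply, PlexL.deg_apply, PlexL.deg_apply, PlexL.deg_apply] at h1
  omega

theorem cnt_eq_zero {K : Finset (G × G)} {l : Fin 3 × G} (h : ∀ p ∈ K, co l.1 p ≠ l.2) :
    cnt K.val l = 0 := by
  rw [PlexL.cnt_val, card_eq_zero, filter_eq_empty_iff]; exact h

theorem cnt_compl {Rm : Fin 3 → Finset G} (hc : ∀ i, (Rm i).card = 2) (U : Finset (G × G))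
    {l : Fin 3 × G} (hl : l.2 ∉ Rm l.1) :
    cnt (univ \ (T0 Rm \ U)).val l ≤ cnt U.val l + 6 := by
  have h1 : ∀ j, (univ.filter fun p : G × G => co l.1 p = l.2 ∧ co j p ∈ Rm j).card ≤ 2 := by
    intro j
    rw [← hc j]
    refine card_le_card_of_injOn (co j) (fun p hp => (mem_filter.1 hp).2.2) fun p hp q hq e => ?_
    have hp := (mem_filter.1 hp).2
    have hq := (mem_filter.1 hq).2
    refine co_inj (i := l.1) (j := j) ?_ (hp.1.trans hq.1.symm) e
    rintro rfl
    exact hl (hp.1 ▸ hp.2)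
  have h2 := card_biUnion_le_card_mul (univ : Finset (Fin 3)) _ 2 fun j _ => h1 j
  rw [PlexL.cnt_val, PlexL.cnt_val]
  refine (card_le_card (t := _ ∪ _) fun p hp => ?_).trans
    ((card_union_le _ _).trans (Nat.add_le_add_left (h2.trans (by simp)) _))
  simp only [mem_filter, mem_sdiff, mem_univ, true_and, T0, not_and, not_not, mem_union,
    mem_biUnion] at hp ⊢
  by_cases hU : p ∈ U
  · exact Or.inl ⟨hU, hp.2⟩
  · right
    by_contra hn
    exact hU (hp.1 fun j hj => hn ⟨j, hp.2, hj⟩)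

theorem sym_off {Rm : Fin 3 → Finset G} {U : Finset (G × G)} {Q : Multiset (G × G × G)}
    (h : Bal Rm U Q 0) {e : G × G × G} (he : e ∈ Q) : e.2.2 ∉ Rm 2 := by
  have h1 := h (fun _ _ => 0) (fun _ s => if s ∈ Rm 2 then 1 else 0) (fun _ _ => 0)
  have h2 : ∑ p ∈ T0 Rm \ U, evt (fun _ _ => 0) (fun _ s => if s ∈ Rm 2 then 1 else 0)
      (fun _ _ => 0) p = 0 := sum_eq_zero fun p hp => by
    have := (mem_filter.1 (mem_sdiff.1 hp).1).2 2
    simp only [PlexL.co_two] at this
    simp [evt, this]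
  have h3 : Tg Rm (fun _ _ => 0) (fun _ s => if s ∈ Rm 2 then 1 else 0) (fun _ _ => 0) = 0 := by
    simp only [Tg, sum_const_zero, zero_add, add_zero]
    exact sum_eq_zero fun p hp => if_neg (mem_filter.1 hp).2.2
  have h4 : (Q.map (ev (fun _ _ => 0) (fun _ s => if s ∈ Rm 2 then 1 else 0) (fun _ _ => 0))).sum =
      (Q.filter fun t => t.2.2 ∈ Rm 2).card := by
    rw [← sum_ind]; simp [ev]
  rw [h2, h3, h4] at h1
  intro hm
  have := Multiset.card_pos_iff_exists_mem.2
    ⟨e, (Multiset.mem_filter (p := fun t => t.2.2 ∈ Rm 2)).2 ⟨he, hm⟩⟩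
  simp only [Multiset.map_zero, Multiset.sum_zero] at h1
  omega

theorem cnt_dft (A : Multiset (G × G)) :
    ∑ a, cnt A (0, a) • a + ∑ a, cnt A (1, a) • a = ∑ a, cnt A (2, a) • a := by
  have := PlexL.dft_deg A
  simp only [PlexL.dft, PlexL.deg_apply, natCast_zsmul] at this
  exact sub_eq_zero.1 this

end

theorem sum_all {m : ℕ} [NeZero m] (h : Odd m) : ∑ a : ZMod m, a = 0 := by
  have h1 : ∑ a : ZMod m, a = ∑ a : ZMod m, -a := (Equiv.sum_comp (Equiv.neg _) fun a => a).symm
  rw [sum_neg_distrib] at h1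
  have h2 : IsUnit ((2 : ℕ) : ZMod m) := (ZMod.isUnit_iff_coprime _ _).2 h.coprime_two_left
  refine h2.mul_right_eq_zero.1 ?_
  push_cast
  linear_combination h1

theorem fib {m : ℕ} [NeZero m] (a : ℕ) (ha : 1 ≤ a) (c : ZMod m) (A : Finset (ZMod m)) :
    (univ.filter fun τ : ZMod m => c + a * τ ∈ A).card ≤ a * A.card := by
  simpa using fiber_le (a : ℤ) (by omega) c A

theorem spa_compl {m L N M : ℕ} [NeZero m] {Rm : Fin 3 → Finset (ZMod m)}
    (hc : ∀ i, (Rm i).card = 2) {U₀ U : Finset (ZMod m × ZMod m)} (h0 : Spa U₀ L N)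
    (hM : (U \ U₀).card ≤ M) : Spa (univ \ (T0 Rm \ U)) L (N + L * M + 8 * L) := by
  intro p a b ha haL hb hbL
  have e0 := h0 p a b ha haL hb hbL
  have e1 := fib a ha p.1 ((U \ U₀).image Prod.fst)
  have e2 := fib a ha p.1 (Rm 0)
  have e3 := fib b hb p.2 (Rm 1)
  have e4 := fib (a + b) (by omega) (p.1 + p.2) (Rm 2)
  rw [hc] at e2 e3 e4
  have e5 := Nat.mul_le_mul haL (card_image_le.trans hM : ((U \ U₀).image Prod.fst).card ≤ M)
  refine (card_le_card (t := _ ∪ (_ ∪ (_ ∪ (_ ∪ _)))) fun τ hτ => ?_).trans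
    (((card_union_le _ _).trans (Nat.add_le_add e0 ((card_union_le _ _).trans (Nat.add_le_add e1
      ((card_union_le _ _).trans (Nat.add_le_add e2 ((card_union_le _ _).trans
        (Nat.add_le_add e3 e4)))))))).trans (by omega))
  simp only [mem_filter, mem_sdiff, mem_univ, true_and, T0, not_and, not_not, mem_union,
    mem_image] at hτ ⊢
  by_contra hn
  simp only [not_or] at hn
  obtain ⟨n0, n1, n2, n3, n4⟩ := hn
  refine n1 ⟨_, ⟨hτ fun i => ?_, n0⟩, rfl⟩
  fin_cases i
  · exact n2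
  · exact n3
  · have : p.1 + a * τ + (p.2 + b * τ) = p.1 + p.2 + ((a + b : ℕ) : ZMod m) * τ := by
      push_cast; ring
    simpa only [PlexL.co, this, Fin.reduceFinMk, Matrix.cons_val] using n4

theorem exists_j {β m : ℕ} (hβ : 1000000 ≤ β) (hm : m ≤ β ^ 129) :
    ∃ j, m ≤ 2 ^ j ∧ 18 * j + 32 ≤ β := by
  have h1 : ∀ q, 20 ≤ q → 3000 * (q + 1) ≤ 2 ^ q := by
    intro q hq
    induction q, hq using Nat.le_induction with
    | base => norm_num
    | succ q hq ih => rw [pow_succ]; omega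
  refine ⟨β / 3000 * 129, hm.trans ?_, by omega⟩
  rw [pow_mul]
  exact Nat.pow_le_pow_left (le_trans (by omega) (h1 _ (by omega))) _

theorem nums {β d s : ℕ} (hβ : 1000000 ≤ β) (hd : 3000 * d ≤ β) (hs : s ≤ β) :
    20 * d ^ 2 * β ^ 97 + 1 ≤ β ^ 99 ∧ 300 * β ≤ β ^ 97 ∧
    1000 * s * (30 * d) + 10000000 * s * s * β ^ 99 < β ^ 127 ∧
    β ^ 99 + 300 * β * (37 * s * β ^ 99) + 8 * (300 * β) ≤ β ^ 104 ∧ β ≤ β ^ 127 := by
  have h0 : 0 < β := by omega
  have mono : ∀ {a b : ℕ}, a ≤ b → β ^ a ≤ β ^ b := fun h => Nat.pow_le_pow_right h0 h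
  have up : ∀ a, 1000000 * β ^ a ≤ β ^ (a + 1) := fun a => by
    rw [pow_succ, mul_comm]; exact Nat.mul_le_mul_left _ hβ
  have p1 : β ^ 1 = β := pow_one β
  have q1 : 20 * d ^ 2 + 1 ≤ β ^ 2 := by nlinarith
  refine ⟨?_, ?_, ?_, ?_, ?_⟩
  · calc _ ≤ (20 * d ^ 2 + 1) * β ^ 97 := by
          have := Nat.one_le_pow 97 β h0
          rw [add_mul]; omega
      _ ≤ β ^ 2 * β ^ 97 := Nat.mul_le_mul_right _ q1
      _ = _ := by ring
  · have := up 1
    have := mono (show 1 + 1 ≤ 97 by norm_num)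
    omega
  · have a1 : 1000 * s * (30 * d) ≤ 1000 * β ^ 2 := by
      calc _ ≤ 1000 * β * β := by gcongr; omega
        _ = _ := by ring
    have a2 : 10000000 * s * s * β ^ 99 ≤ 10000000 * β ^ 101 := by
      calc _ ≤ 10000000 * β * β * β ^ 99 := by gcongr
        _ = _ := by ring
    have := mono (show 2 ≤ 101 by norm_num)
    have := up 101
    have := up 102
    have := mono (show 102 + 1 ≤ 127 by norm_num)
    have := Nat.one_le_pow 101 β h0
    norm_num at *
    omega
  · have a2 : 300 * β * (37 * s * β ^ 99) ≤ 11100 * β ^ 101 := by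
      calc _ ≤ 300 * β * (37 * β * β ^ 99) := by gcongr
        _ = _ := by ring
    have := mono (show 99 ≤ 101 by norm_num)
    have := mono (show 1 ≤ 101 by norm_num)
    have := up 101
    have := mono (show 101 + 1 ≤ 104 by norm_num)
    omega
  · have := mono (show 1 ≤ 127 by norm_num)
    omega

end NearAux

open NearAux in
theorem stNear (h1 : StOff) (h2 : StRep) (h3 : StPatch) (h4 : StTop) (h5 : StFin) : StNear := by
  intro k n β D t hβ hn hlo hhi hch hfar hD hDβ
  have hm : Odd (n + 2) := hn.add_even even_two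
  obtain ⟨j, hj, hs⟩ := exists_j hβ hhi
  obtain ⟨off, hoff⟩ := h1 (n + 2) j hm hj
  obtain ⟨n1, n2, n3, n4, n5⟩ := nums hβ (hD.trans hDβ) hs
  have n6 : 2 * β ≤ n := by
    have : β * β ≤ β ^ 127 := by
      rw [← pow_two]; exact Nat.pow_le_pow_right (by omega) (by norm_num)
    have := Nat.mul_le_mul_right β hβ
    omega
  obtain ⟨Rm, U₀, Q₀, Z, Λ, hP⟩ := h3 (n + 2) k (β ^ 97) (300 * β) t hm (by omega) (by omega) n2
    hch hfar
  generalize 18 * j + 32 = s at *
  have hs1 : 1 ≤ s := by simpa [hoff.zero] using hoff.card 0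
  generalize hN : 20 * (3 * k + 6) ^ 2 * β ^ 97 = N at *
  obtain ⟨U, Q, r, c, hU0, hUT, hUc, hUl, hB, hrc, he⟩ := h2 (n + 2) s (30 * (3 * k + 6)) N off Rm
    U₀ Q₀ Z (2 * ((n - D : ℕ) : ZMod (n + 2))) hoff hs1 (fun i => (hP.card i).le) hP.sub hP.bal
    hP.off hP.cor hP.lU hP.lQ hP.lZ hP.nZ
    (lt_of_le_of_lt (by gcongr) (n3.trans_le hlo))
  have hM : (U \ U₀).card ≤ 37 * s * β ^ 99 := hUc.trans (by gcongr)
  generalize 37 * s * β ^ 99 = M at *
  have hLM : 300000000 * M ≤ 300 * β * M := by gcongr; omega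
  set e : ZMod (n + 2) × ZMod (n + 2) × ZMod (n + 2) :=
    (r, c, r + c + 2 * ((n - D : ℕ) : ZMod (n + 2))) with he_def
  have heo : ∀ i, tc i e ∉ Rm i := by
    intro i
    have hT := (mem_filter.1 (hUT hrc)).2
    fin_cases i
    exacts [hT 0, hT 1, sym_off hB he]
  set T := T0 Rm \ U with hT
  have hsum : ∀ l, cnt (univ \ T).val l + cnt T.val l = n + 2 := fun l => by
    rw [cnt_sdiff (subset_univ _), cnt_univ, ZMod.card]
  have hF : ∀ l : Fin 3 × ZMod (n + 2), l.2 ∉ Rm l.1 →
      cnt (univ \ T).val l ≤ 9 * (30 * (3 * k + 6)) + 16006 := fun l hl => by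
    have := cnt_compl hP.card U hl
    rw [← hT] at this
    have := hUl l
    omega
  obtain ⟨η, hη⟩ : ∃ η : Fin 3 × ZMod (n + 2) → ℕ, ∀ l, η l =
      if l.2 ∈ Rm l.1 then 0 else cnt T.val l + (if tc l.1 e = l.2 then 1 else 0) - (n - D) :=
    ⟨_, fun _ => rfl⟩
  have key : ∀ i a, η (i, a) + (if a ∈ Rm i then 0 else n - D) =
      cnt T.val (i, a) + (if tc i e = a then 1 else 0) := by
    intro i a
    by_cases ha : a ∈ Rm i
    · have : cnt T.val (i, a) = 0 := cnt_eq_zero fun p hp hc =>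
        (mem_filter.1 (mem_sdiff.1 hp).1).2 i (hc ▸ ha)
      have h' : tc i e ≠ a := fun h => heo i (h ▸ ha)
      simp [hη, ha, this, h']
    · have := hsum (i, a)
      have := hF (i, a) ha
      simp only [hη, if_neg ha]
      omega
  let A : Fin 3 → Finset (ZMod (n + 2)) := fun i => insert (tc i e) ((U \ U₀).image (co i) ∪ Rm i)
  have hA : ∀ i, ((A i).image (Prod.mk i)).card ≤ M + 3 := fun i => by
    have a1 := card_union_le ((U \ U₀).image (co i)) (Rm i)
    have a2 : ((U \ U₀).image (co i)).card ≤ M := card_image_le.trans hM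
    have a3 := hP.card i
    have a4 := card_insert_le (tc i e) ((U \ U₀).image (co i) ∪ Rm i)
    exact card_image_le.trans (a4.trans (by omega))
  obtain ⟨X, hXF, hX⟩ := h4 (n + 2) β (D - (3 * k + 6)) (T.card + 1 - n * (n - D)) (univ \ T) η
    (Λ ∪ univ.biUnion fun i => (A i).image (Prod.mk i)) hm hβ hlo hhi (by omega) (by omega)
    (fun l => by
      by_cases hl : l.2 ∈ Rm l.1
      · exact Or.inr fun p hp => mem_sdiff.2 ⟨mem_univ _, fun h =>
          (mem_filter.1 (mem_sdiff.1 h).1).2 l.1 (hp ▸ hl)⟩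
      · exact Or.inl ((hF l hl).trans (by omega)))
    (fun l hl => (hF l fun h => hl ((hη l).trans (if_pos h))).trans (by omega))
    (fun p a b ha haL hb hbL =>
      (spa_compl hP.card hP.spa hM p a b ha haL hb hbL).trans (by omega))
    (by
      have a1 := card_biUnion_le_card_mul (univ : Finset (Fin 3)) _ _ fun i _ => hA i
      have a2 := hP.nΛ
      rw [card_univ, Fintype.card_fin] at a1
      exact (card_union_le _ _).trans (by omega))
    (by
      rintro ⟨i, a⟩ hl
      have a1 := hP.reg (i, a) fun h => hl (mem_union_left _ h)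
      have a2 : a ∉ A i := fun h =>
        hl (mem_union_right _ (mem_biUnion.2 ⟨i, mem_univ _, mem_image_of_mem _ h⟩))
      simp only [A, mem_insert, mem_union, mem_image, not_or] at a2
      have a3 : cnt (U \ U₀).val (i, a) = 0 := cnt_eq_zero fun p hp hc => a2.2.1 ⟨p, hp, hc⟩
      have a4 := cnt_sdiff (sdiff_subset_sdiff hUT (Subset.refl U₀)) (i, a)
      have a5 : (T0 Rm \ U₀) \ (U \ U₀) = T := by
        ext p
        have := @hU0 p
        simp only [hT, mem_sdiff]
        tauto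
      have a6 := key i a
      rw [if_neg a2.2.2, if_neg (Ne.symm a2.1)] at a6
      rw [a5] at a4
      omega)
    (by
      rintro ⟨i, a⟩
      have a1 := key i a
      have a2 := hsum (i, a)
      by_cases ha : a ∈ Rm i
      · simp [hη, ha]
      · rw [if_neg ha] at a1
        split_ifs at a1 <;> omega)
    (fun i => by
      have a1 := sum_congr (s₁ := univ) rfl fun a _ => key i a
      rw [sum_add_distrib, sum_add_distrib, PlexL.sum_cnt, sum_ite, sum_const_zero, sum_const,
        filter_not, filter_mem_eq_inter, univ_inter, card_univ_sdiff, ZMod.card, hP.card,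
        sum_ite_eq] at a1
      simp only [card_val, mem_univ, if_true, smul_eq_mul, Nat.add_sub_cancel, zero_add] at a1
      omega)
    (by
      have a1 : ∀ i, ∑ a, η (i, a) • a - ((n - D : ℕ) : ZMod (n + 2)) * ∑ a ∈ Rm i, a =
          ∑ a, cnt T.val (i, a) • a + tc i e := by
        intro i
        have b1 := sum_congr (s₁ := univ) rfl fun a _ => congrArg (fun x : ℕ => x • a) (key i a)
        simp only [add_smul, sum_add_distrib, ite_smul, zero_smul, one_smul, sum_ite_eq, mem_univ,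
          if_true] at b1
        rw [sum_ite, sum_const_zero, filter_not, filter_mem_eq_inter, univ_inter, ← smul_sum,
          sum_sdiff_eq_sub (subset_univ _), sum_all hm, nsmul_eq_mul] at b1
        linear_combination b1
      have b0 := a1 0
      have b1 := a1 1
      have b2 := a1 2
      simp only [he_def, tc_zero, tc_one, tc_two] at b0 b1 b2
      linear_combination b0 + b1 - b2 + cnt_dft T.val + ((n - D : ℕ) : ZMod (n + 2)) * hP.sig)
  have hXT : X ⊆ T := fun p hp => by
    by_contra h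
    exact disjoint_left.1 hXF hp (mem_sdiff.2 ⟨mem_univ _, h⟩)
  refine h5 n (n - D) Rm U (T \ X) Q r c hn (Nat.sub_le _ _) hP.card hP.sig hB hrc he
    sdiff_subset fun i a ha => ?_
  have a1 := key i a
  have a2 := cnt_sdiff hXT (i, a)
  rw [if_neg ha] at a1
  rw [hX] at a2
  rw [← he_def]
  omega

end PlexLL
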